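import Pool.Agent.H2.UST.Vis
import Pool.Agent.H40.S6.Ev
import Pool.Agent.H51.S6.Loc

/-!
# The frames of the U-step

`UFr`: own slopes `al` and offsets `nu` at the exact points, the plank `(s, t)` of the window `wl`,
the straightness `(k, b)` in the direction of its normal, and the slope labels `a w` of the windows
`wa ≤ w ≤ wb`, which are multiples of `2 ^ (- vp w)`.
-/

set_option autoImplicit false

namespace Pool.UST

open Finset Real
open Pool.Agent.H49.Ent Pool.Agent.H32.Dense Pool.STK Pool.KA Pool.KA.Win Pool.KA.TRC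
  Pool.KSAT Pool.K2S Pool.K2S.Rows Pool.K2S.FF Pool.PB Pool.S6K.Wfe

variable {J : ℕ}

/-- The frames of the U-step on the windows `wa ≤ w ≤ wb`. -/
structure UFr (F : Fam 3 J) (A : F.Ω → Prop) (σ : Fin 3 → Fin 3) (wl wa wb : ℕ) (vp : ℕ → ℕ)
    (kap Hu HN : ℕ) (al nu k b : (Fin 3 → ℤ) × (ℕ × F.ζ) → ℝ) (a : ℕ → F.Ω → ℝ)
    (s t : F.Ω → ℝ) (B C : ℝ) : Prop where
  bij : Function.Bijective σ
  B1 : 1 ≤ B
  C1 : 1 ≤ C
  lw : wl ≤ wa
  wJ : wb ≤ J
  mono : ∀ w w', wa ≤ w → w ≤ w' → w' ≤ wb → vp w ≤ vp w'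
  on1 : ∀ ω, A ω → |F.d ω (σ 1) - al (Fam.pt F ω) * F.d ω (σ 0) - nu (Fam.pt F ω)| ≤ B / 2 ^ Hu
  on2 : ∀ ω, A ω → |F.d ω (σ 2) - s ω * F.d ω (σ 1) - t ω * F.d ω (σ 0) - b (Fam.pt F ω) -
    k (Fam.pt F ω) * F.d ω (σ 0)| ≤ B / 2 ^ HN
  bal : ∀ ω, A ω → |al (Fam.pt F ω)| ≤ B
  bd : ∀ ω, A ω → |s ω| ≤ B ∧ |t ω| ≤ B
  near : ∀ w, wa ≤ w → w ≤ wb → ∀ ω, A ω → |al (Fam.pt F ω) - a w ω| ≤ 3 / 2 ^ vp w
  int : ∀ w, wa ≤ w → w ≤ wb → ∀ ω, ∃ n : ℤ, a w ω = n / 2 ^ vp w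
  kle : ∀ ω, A ω → |k (Fam.pt F ω)| ≤ C / 2 ^ kap
  slm : ∀ w, wa ≤ w → w ≤ wb → Det F.p (slam F w) (a w)
  slp : Det F.p (slam F wl) (fun ω => (s ω, t ω))
  pts : ∃ φ : (Fin 3 → ℤ) × (ℕ × F.ζ) → ℝ × ℝ, ∀ ω, A ω → (s ω, t ω) = φ (Fam.pt F ω)

theorem UFr.sub {F : Fam 3 J} {A A' : F.Ω → Prop} {σ : Fin 3 → Fin 3} {wl wa wb : ℕ}
    {vp : ℕ → ℕ} {kap Hu HN : ℕ} {al nu k b : (Fin 3 → ℤ) × (ℕ × F.ζ) → ℝ} {a : ℕ → F.Ω → ℝ}
    {s t : F.Ω → ℝ} {B C : ℝ} (h : UFr F A σ wl wa wb vp kap Hu HN al nu k b a s t B C)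
    (hA : Sub A' A) : UFr F A' σ wl wa wb vp kap Hu HN al nu k b a s t B C := by
  obtain ⟨φ, hφ⟩ := h.pts
  exact ⟨h.bij, h.B1, h.C1, h.lw, h.wJ, h.mono, fun ω hω => h.on1 ω (hA ω hω),
    fun ω hω => h.on2 ω (hA ω hω), fun ω hω => h.bal ω (hA ω hω), fun ω hω => h.bd ω (hA ω hω),
    fun w h1 h2 ω hω => h.near w h1 h2 ω (hA ω hω), h.int, fun ω hω => h.kle ω (hA ω hω),
    h.slm, h.slp, φ, fun ω hω => hφ ω (hA ω hω)⟩

/-- A variable which is an integer near a function of the condition. -/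
theorem CH_near_int {Ω T : Type} [Fintype Ω] {p : Ω → ℝ} (hp : IsLaw p) (X : Ω → ℤ) (W : Ω → T)
    (g : T → ℝ) {c : ℝ} (h : ∀ ω, 0 < p ω → |(X ω : ℝ) - g (W ω)| ≤ c) :
    CH p X W ≤ Real.log (2 * (2 * c) + 1) := by
  have h1 := Plk.CH_vec_const (m := 1) hp (fun ω _ => X ω) W (c := 2 * c)
    (fun ω ω' h1 h2 h3 _ => by
      have a1 := abs_le.1 (h ω h1)
      have a2 := abs_le.1 (h ω' h2)
      rw [← h3] at a2
      push_cast
      rw [abs_le]
      constructor <;> linarith [a1.1, a1.2, a2.1, a2.2])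
  have h2 : CH p X W ≤ CH p (fun ω (_ : Fin 1) => X ω) W :=
    CH_mono_left hp.nonneg fun ω ω' _ _ h => congrFun (Prod.ext_iff.mp h).1 0
  have h3 : ((1 : ℕ) : ℝ) * Real.log (2 * (2 * c) + 1) = Real.log (2 * (2 * c) + 1) := by norm_num
  linarith

section vok

variable {F : Fam 3 J} {A : F.Ω → Prop} {σ : Fin 3 → Fin 3} {wl wa wb : ℕ}
    {vp : ℕ → ℕ} {kap Hu HN : ℕ} {al nu k b : (Fin 3 → ℤ) × (ℕ × F.ζ) → ℝ} {a : ℕ → F.Ω → ℝ}
    {s t : F.Ω → ℝ} {B C : ℝ}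

/-- The frame `(a w, s, t)` is a function of the window. -/
theorem UFr.det (h : UFr F A σ wl wa wb vp kap Hu HN al nu k b a s t B C) {w : ℕ} (h1 : wa ≤ w)
    (h2 : w ≤ wb) : Det F.p (slam F w) (fun ω => (a w ω, s ω, t ω)) := by
  intro ω ω' hω hω' e
  have e1 := h.slm w h1 h2 ω ω' hω hω' e
  have hlw := h.lw
  have hwJ := h.wJ
  have e2 : slam F wl ω = slam F wl ω' := by
    rw [slam_coarse F (w := wl) (w' := w) (by omega) (by omega) ω,
      slam_coarse F (w := wl) (w' := w) (by omega) (by omega) ω', e]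
  have e3 := h.slp ω ω' hω hω' e2
  have e4 := Prod.ext_iff.mp e3
  exact Prod.ext e1 (Prod.ext e4.1 e4.2)

/-- The frame is visible. -/
theorem UFr.vis (h : UFr F A σ wl wa wb vp kap Hu HN al nu k b a s t B C) {w : ℕ} (h1 : wa ≤ w)
    (h2 : w ≤ wb) (q : ℕ) (B' : F.Ω → Prop) (hB' : Sub B' A) (hB0 : 0 < Pe F.p B') :
    CH (Pool.Agent.H49.Ent.cond F.p B' True) (fun ω => (a w ω, s ω, t ω))
      (Pool.K2S.ptq F (σ 0) q) ≤ Real.log 13 := by
  have hlB := isLaw_cond F.isLaw hB0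
  have h0 := hlB.nonneg
  have hpos : ∀ ω, 0 < Pool.Agent.H49.Ent.cond F.p B' True ω → A ω := by
    intro ω hω
    have := ((cond_pos_iff F.isLaw.nonneg B' True ω).1 hω).2
    exact hB' ω (by simpa using this)
  obtain ⟨φ, hφ⟩ := h.pts
  choose n hn using h.int w h1 h2
  have k1 := CH_near_int hlB n (Pool.K2S.ptq F (σ 0) q) (fun u => 2 ^ vp w * al u.1) (c := 3) (by
    intro ω hω
    have e1 := h.near w h1 h2 ω (hpos ω hω)
    have e2 : (n ω : ℝ) - 2 ^ vp w * al (Pool.K2S.ptq F (σ 0) q ω).1 =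
        2 ^ vp w * (a w ω - al (Fam.pt F ω)) := by
      have e3 : (n ω : ℝ) = 2 ^ vp w * a w ω := by
        rw [hn ω]
        field_simp
      rw [e3]
      show _ - 2 ^ vp w * al (Fam.pt F ω) = _
      ring
    rw [e2, abs_mul, abs_of_pos (by positivity : (0 : ℝ) < 2 ^ vp w), abs_sub_comm]
    calc (2 : ℝ) ^ vp w * |al (Fam.pt F ω) - a w ω| ≤ 2 ^ vp w * (3 / 2 ^ vp w) :=
          mul_le_mul_of_nonneg_left e1 (by positivity)
      _ = 3 := by field_simp)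
  have k2 : CH (Pool.Agent.H49.Ent.cond F.p B' True) (fun ω => (a w ω, s ω, t ω))
      (Pool.K2S.ptq F (σ 0) q) ≤ CH (Pool.Agent.H49.Ent.cond F.p B' True) n
      (Pool.K2S.ptq F (σ 0) q) := by
    refine CH_mono_left h0 ?_
    intro ω ω' hω hω' e
    have e1 := Prod.ext_iff.mp e
    have e2 : n ω = n ω' := e1.1
    have e3 : Fam.pt F ω = Fam.pt F ω' := (Prod.ext_iff.mp e1.2).1
    have e4 := hφ ω (hpos ω hω)
    have e5 := hφ ω' (hpos ω' hω')
    rw [e3, ← e5] at e4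
    have e6 := Prod.ext_iff.mp e4
    exact Prod.ext (by simp only [hn ω, hn ω', e2]) (Prod.ext e6.1 e6.2)
  refine k2.trans (k1.trans (le_of_eq ?_))
  norm_num

/-- The context of the window `w` at `q`. -/
theorem UFr.vok (h : UFr F A σ wl wa wb vp kap Hu HN al nu k b a s t B C) {w q : ℕ} (h1 : wa ≤ w)
    (h2 : w ≤ wb) (hu : vp w + q ≤ Hu) (hN : q + kap ≤ HN) (h3 : w + vp w + q ≤ J)
    (h4 : w + q + kap ≤ J) :
    VOK F A σ w q (w + vp w + q) (w + q + kap) al nu k b (a w) s t (B + 3) (C + 3)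
      (Real.log 13) := by
  have hB := h.B1
  have hC := h.C1
  have c3 : (3 : ℝ) / 2 ^ vp w ≤ 3 := div_le_self (by norm_num) (one_le_pow₀ (by norm_num))
  refine ⟨by omega, by omega, by omega, by omega, by omega, ?_, ?_, ?_, ?_, ?_, ?_, ?_, ?_⟩
  · intro ω hω
    refine (h.on1 ω hω).trans ?_
    have e : w + vp w + q - w = vp w + q := by omega
    rw [e]
    exact div_le_div₀ (by linarith) (by linarith) (by positivity)
      (pow_le_pow_right₀ (by norm_num) hu)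
  · intro ω hω
    refine (h.on2 ω hω).trans ?_
    have e : w + q + kap - w = q + kap := by omega
    rw [e]
    exact div_le_div₀ (by linarith) (by linarith) (by positivity)
      (pow_le_pow_right₀ (by norm_num) hN)
  · intro ω hω
    exact (h.bal ω hω).trans (by linarith)
  · intro ω hω
    obtain ⟨b1, b2⟩ := h.bd ω hω
    refine ⟨?_, by linarith, by linarith⟩
    have b3 := h.near w h1 h2 ω hω
    have b4 := h.bal ω hω
    have b5 := abs_sub_abs_le_abs_sub (a w ω) (al (Fam.pt F ω))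
    rw [abs_sub_comm] at b5
    linarith
  · intro ω hω
    have e : w + vp w + q - w - q = vp w := by omega
    rw [e]
    refine (h.near w h1 h2 ω hω).trans ?_
    exact div_le_div_of_nonneg_right (by linarith) (by positivity)
  · intro ω hω
    have e : w + q + kap - w - q = kap := by omega
    rw [e]
    refine (h.kle ω hω).trans ?_
    exact div_le_div_of_nonneg_right (by linarith) (by positivity)
  · intro ω ω' hω hω' e
    refine h.det h1 h2 ω ω' hω hω' ?_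
    have e1 := Prod.ext_iff.mp e
    have e2 := Prod.ext_iff.mp e1.2
    exact Prod.ext e1.1 (Prod.ext e2.2 e2.1)
  · exact fun B' hB' hB0 => h.vis h1 h2 q B' hB' hB0

/-! ### The threshold of the directions -/

/-- **(H6)** for one family: the slopes of two samples of a label which is a function of the
window, and which determines the plank, are not close. -/
theorem UFr.cpy_lt (h : UFr F A σ wl wa wb vp kap Hu HN al nu k b a s t B C) {κ r ρ : ℝ} {wg : ℕ}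
    (hA : 0 < Pe F.p A) (hs : Stb F.p κ A (RotU (σ 0) r r (Fam.pt F) (slam F wg) F.d))
    (hn : ¬ RotU (σ 0) r r (Fam.pt F) (slam F wg) F.d A)
    (h1 : B / 2 ^ Hu ≤ r) (h2 : B / 2 ^ HN + B * (B / 2 ^ Hu) ≤ r)
    (h3 : B * ρ + 2 * (C / 2 ^ kap) ≤ r) (hρ : ρ ≤ r) (hr : 0 ≤ r) {V : Type} {wn : F.Ω → V}
    {φ : ((Fin 3 → ℝ) × (Fin 3 → ℝ)) × F.ζ × ℕ → V} (hφ : ∀ ω, wn ω = φ (slam F wg ω))
    (hst : ∀ ω ω', A ω → A ω' → 0 < F.p ω → 0 < F.p ω' → wn ω = wn ω' → s ω = s ω' ∧ t ω = t ω') :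
    Pe (cpy (Pool.Agent.H49.Ent.cond F.p A True) wn)
      (fun v => |al (Fam.pt F v.1) - al (Fam.pt F v.2)| ≤ ρ) < Real.exp (-κ) := by
  obtain ⟨χ, hχ⟩ := h.pts
  obtain ⟨e, he⟩ : ∃ e : (Fin 3 → ℤ) × (ℕ × F.ζ) → Fin 3 → ℝ, e = fun u j =>
    if j = σ 0 then 1 else if j = σ 1 then al u else (χ u).1 * al u + (χ u).2 + k u := ⟨_, rfl⟩
  obtain ⟨n, hn'⟩ : ∃ n : (Fin 3 → ℤ) × (ℕ × F.ζ) → Fin 3 → ℝ, n = fun u j =>
    if j = σ 0 then 0 else if j = σ 1 then nu u else (χ u).1 * nu u + b u := ⟨_, rfl⟩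
  have h01 : σ 1 ≠ σ 0 := fun e => by
    have := h.bij.1 e
    exact absurd this (by decide)
  have h20 : σ 2 ≠ σ 0 := fun e => by
    have := h.bij.1 e
    exact absurd this (by decide)
  have h21 : σ 2 ≠ σ 1 := fun e => by
    have := h.bij.1 e
    exact absurd this (by decide)
  have hc : ∀ j : Fin 3, j = σ 0 ∨ j = σ 1 ∨ j = σ 2 := by
    intro j
    obtain ⟨i, hi⟩ := h.bij.2 j
    rw [← hi]
    fin_cases i
    · exact Or.inl rfl
    · exact Or.inr (Or.inl rfl)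
    · exact Or.inr (Or.inr rfl)
  have hon : OnL (σ 0) r (Fam.pt F) F.d A e n := by
    intro ω hω j
    have e1 := Prod.ext_iff.mp (hχ ω hω)
    have es : s ω = (χ (Fam.pt F ω)).1 := e1.1
    have et : t ω = (χ (Fam.pt F ω)).2 := e1.2
    rcases hc j with hj | hj | hj
    · rw [hj, he, hn']
      simp only [if_true]
      rw [show F.d ω (σ 0) - 1 * F.d ω (σ 0) - 0 = 0 by ring, abs_zero]
      exact hr
    · rw [hj, he, hn']
      simp only [if_neg h01, if_true]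
      exact (h.on1 ω hω).trans h1
    · rw [hj, he, hn']
      simp only [if_neg h20, if_neg h21]
      rw [← es, ← et]
      have a1 := h.on1 ω hω
      have a2 := h.on2 ω hω
      have a3 := (h.bd ω hω).1
      have e2 : F.d ω (σ 2) - (s ω * al (Fam.pt F ω) + t ω + k (Fam.pt F ω)) * F.d ω (σ 0) -
          (s ω * nu (Fam.pt F ω) + b (Fam.pt F ω)) =
          (F.d ω (σ 2) - s ω * F.d ω (σ 1) - t ω * F.d ω (σ 0) - b (Fam.pt F ω) -
            k (Fam.pt F ω) * F.d ω (σ 0)) + s ω * (F.d ω (σ 1) - al (Fam.pt F ω) * F.d ω (σ 0) -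
            nu (Fam.pt F ω)) := by ring
      rw [e2]
      refine (abs_add_le _ _).trans (le_trans ?_ h2)
      rw [abs_mul]
      have hB := h.B1
      exact add_le_add a2 (mul_le_mul a3 a1 (abs_nonneg _) (by linarith))
  have key := Stb.rotU_cpy_lt F.isLaw hA hs hn hon (wn' := wn) (φ := φ) hφ
  refine lt_of_le_of_lt ?_ key
  have hl := isLaw_cond F.isLaw hA
  have h0 := hl.nonneg
  rw [Pe_eq, Pe_eq]
  refine Finset.sum_le_sum fun v _ => ?_
  have hnn : 0 ≤ cpy (Pool.Agent.H49.Ent.cond F.p A True) wn v := by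
    unfold cpy
    split_ifs
    · exact div_nonneg (mul_nonneg (h0 _) (h0 _)) (law_nonneg h0 _ _)
    · exact le_rfl
  by_cases hv : cpy (Pool.Agent.H49.Ent.cond F.p A True) wn v = 0
  · simp [hv]
  by_cases hcl : |al (Fam.pt F v.1) - al (Fam.pt F v.2)| ≤ ρ
  swap
  · rw [if_neg hcl]
    split_ifs
    · exact hnn
    · exact le_rfl
  rw [if_pos hcl, if_pos]
  have hvv : wn v.1 = wn v.2 ∧ 0 < Pool.Agent.H49.Ent.cond F.p A True v.1 ∧
      0 < Pool.Agent.H49.Ent.cond F.p A True v.2 := by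
    unfold cpy at hv
    by_cases hw : wn v.1 = wn v.2
    · rw [if_pos hw] at hv
      refine ⟨hw, lt_of_le_of_ne (h0 _) fun e => hv ?_, lt_of_le_of_ne (h0 _) fun e => hv ?_⟩
      · rw [← e]
        simp
      · rw [← e]
        simp
    · rw [if_neg hw] at hv
      exact absurd rfl hv
  obtain ⟨hw, hp1, hp2⟩ := hvv
  have hA1 : A v.1 ∧ 0 < F.p v.1 := by
    have := (cond_pos_iff F.isLaw.nonneg A True v.1).1 hp1
    exact ⟨by simpa using this.2, this.1⟩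
  have hA2 : A v.2 ∧ 0 < F.p v.2 := by
    have := (cond_pos_iff F.isLaw.nonneg A True v.2).1 hp2
    exact ⟨by simpa using this.2, this.1⟩
  obtain ⟨es, et⟩ := hst v.1 v.2 hA1.1 hA2.1 hA1.2 hA2.2 hw
  intro j
  rcases hc j with hj | hj | hj
  · rw [hj, he]
    simp only [if_true]
    rw [sub_self, abs_zero]
    exact hr
  · rw [hj, he]
    simp only [if_neg h01, if_true]
    exact hcl.trans hρ
  · rw [hj, he]
    simp only [if_neg h20, if_neg h21]
    have e1 := Prod.ext_iff.mp (hχ v.1 hA1.1)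
    have e2 := Prod.ext_iff.mp (hχ v.2 hA2.1)
    have f1 : s v.1 = (χ (Fam.pt F v.1)).1 := e1.1
    have f2 : t v.1 = (χ (Fam.pt F v.1)).2 := e1.2
    have f3 : s v.2 = (χ (Fam.pt F v.2)).1 := e2.1
    have f4 : t v.2 = (χ (Fam.pt F v.2)).2 := e2.2
    rw [← f1, ← f2, ← f3, ← f4, ← es, ← et]
    have e3 : s v.1 * al (Fam.pt F v.1) + t v.1 + k (Fam.pt F v.1) -
        (s v.1 * al (Fam.pt F v.2) + t v.1 + k (Fam.pt F v.2)) =
        s v.1 * (al (Fam.pt F v.1) - al (Fam.pt F v.2)) +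
          (k (Fam.pt F v.1) - k (Fam.pt F v.2)) := by ring
    rw [e3]
    refine (abs_add_le _ _).trans (le_trans ?_ h3)
    rw [abs_mul]
    have a1 := (h.bd v.1 hA1.1).1
    have a2 := h.kle v.1 hA1.1
    have a3 := h.kle v.2 hA2.1
    have a4 := abs_sub (k (Fam.pt F v.1)) (k (Fam.pt F v.2))
    have hB := h.B1
    have a5 : |s v.1| * |al (Fam.pt F v.1) - al (Fam.pt F v.2)| ≤ B * ρ :=
      mul_le_mul a1 hcl (abs_nonneg _) (by linarith)
    linarith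

end vok

end Pool.UST
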