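import Pool.Agent.H2.UST.Side
import Pool.Agent.H64.KS6.WfeA

/-!
# The local U-step in a class, `v > 0`

`uh_cls`: the hypotheses of helper10's theorem on all integer rectangles `[wa, wb] × [qa, qb)` of
the zone `|w - w₀ J| ≤ L J`, `|q - q₀ J| ≤ M L J`, where the number `rot` has the slope `v ≥ 0` at
`w₀` and the activity number has the slope `α > 0` at `q₀`, with side labels. `ue_cls`, `us_cls`:
the conclusions for `v > 0`, in static boxes.
-/

set_option autoImplicit false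

namespace Pool.UST

open Finset Real
open Pool.Agent.H49.Ent Pool.Agent.H32.Dense Pool.STK Pool.KA Pool.KSAT Pool.K2S Pool.PB
  Pool.S6U Pool.S6C

/-! ### Events -/

theorem cond_ev' {Ω : Type} [Fintype Ω] (p : Ω → ℝ) (A : Ω → Prop) [DecidablePred A] (ω : Ω) :
    Pool.Agent.H49.Ent.cond p A True ω = if A ω then p ω / Pe p A else 0 := by
  classical
  unfold Pool.Agent.H49.Ent.cond
  by_cases h : A ω
  · rw [if_pos (eq_true h), if_pos h]
  · rw [if_neg (fun h' => h (of_eq_true h')), if_neg h]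

/-- Conditioning twice. -/
theorem cond_and' {Ω : Type} [Fintype Ω] (p : Ω → ℝ) {A B : Ω → Prop} (hA : Pe p A ≠ 0) :
    Pool.Agent.H49.Ent.cond (Pool.Agent.H49.Ent.cond p A True) B True =
      Pool.Agent.H49.Ent.cond p (fun ω => A ω ∧ B ω) True := by
  classical
  funext ω
  rw [cond_ev', cond_ev', cond_ev', Pe_cond B]
  by_cases h1 : A ω
  · by_cases h2 : B ω
    · rw [if_pos h2, if_pos h1, if_pos (⟨h1, h2⟩ : A ω ∧ B ω), div_div_div_cancel_right₀ hA]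
    · rw [if_neg h2, if_neg (fun h : A ω ∧ B ω => h2 h.2)]
  · rw [if_neg h1, if_neg (fun h : A ω ∧ B ω => h1 h.1), zero_div]
    split_ifs <;> rfl

/-- **TIME** in a class. -/
theorem time_cls {S : PCl 3} {a₁ R : ℝ}
    (hSt : ∀ (τ : ℝ) (J : ℕ) (F : Fam 3 J) (A : F.Ω → Prop), S.St τ J F A → Fam.Stt F a₁ R τ A)
    {η : ℝ} (hη : 0 < η) : Clp S (fun J F A => (J : ℝ) * Real.log 2 - η * J ≤
      CH (Pool.Agent.H49.Ent.cond F.p A True) F.T (fun ω => (F.l ω, F.Z ω))) := by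
  refine Clp.of (τ := η / 6) (by positivity) 0 fun J _ F A hS => ?_
  obtain ⟨c1, c2, c3, c4⟩ := hSt _ J F A hS
  have hA0 : 0 < Pe F.p A := lt_of_lt_of_le (Real.exp_pos _) c4
  have h1 := Pool.S6K.Wfe.res_Tm (F := F) (τ := η / 6) (c := η / 6) (by positivity) (by positivity)
    c1 c2.1 c3 c4 (isLaw_cond F.isLaw hA0)
  unfold Fam.Tm at h1
  have e : (5 * (η / 6) + η / 6) * (J : ℝ) = η * J := by ring
  rw [e] at h1
  exact h1

/-! ### Frames -/

section fr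

variable {J : ℕ} {F : Fam 3 J} {A : F.Ω → Prop} {σ : Fin 3 → Fin 3} {wl wa wb : ℕ}
    {vp : ℕ → ℕ} {kap Hu HN : ℕ} {al nu k b : (Fin 3 → ℤ) × (ℕ × F.ζ) → ℝ} {a : ℕ → F.Ω → ℝ}
    {s t : F.Ω → ℝ} {B C : ℝ}

/-- Fewer windows. -/
theorem UFr.win (h : UFr F A σ wl wa wb vp kap Hu HN al nu k b a s t B C) {wa' wb' : ℕ}
    (h1 : wa ≤ wa') (h2 : wb' ≤ wb) :
    UFr F A σ wl wa' wb' vp kap Hu HN al nu k b a s t B C :=
  ⟨h.bij, h.B1, h.C1, h.lw.trans h1, h2.trans h.wJ,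
    fun w w' g1 g2 g3 => h.mono w w' (h1.trans g1) g2 (g3.trans h2), h.on1, h.on2, h.bal, h.bd,
    fun w g1 g2 => h.near w (h1.trans g1) (g2.trans h2),
    fun w g1 g2 => h.int w (h1.trans g1) (g2.trans h2), h.kle,
    fun w g1 g2 => h.slm w (h1.trans g1) (g2.trans h2), h.slp, h.pts⟩

/-- Lower levels. -/
theorem UFr.lvl (h : UFr F A σ wl wa wb vp kap Hu HN al nu k b a s t B C) {kap' Hu' HN' : ℕ}
    (h1 : kap' ≤ kap) (h2 : Hu' ≤ Hu) (h3 : HN' ≤ HN) :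
    UFr F A σ wl wa wb vp kap' Hu' HN' al nu k b a s t B C := by
  have hB := h.B1
  have hC := h.C1
  have key : ∀ {x y : ℕ} {c : ℝ}, 0 ≤ c → x ≤ y → c / (2 : ℝ) ^ y ≤ c / 2 ^ x := by
    intro x y c hc hxy
    exact div_le_div_of_nonneg_left hc (by positivity) (pow_le_pow_right₀ (by norm_num) hxy)
  exact ⟨h.bij, h.B1, h.C1, h.lw, h.wJ, h.mono,
    fun ω hω => (h.on1 ω hω).trans (key (by linarith only [hB]) h2),
    fun ω hω => (h.on2 ω hω).trans (key (by linarith only [hB]) h3), h.bal, h.bd, h.near, h.int,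
    fun ω hω => (h.kle ω hω).trans (key (by linarith) h1), h.slm, h.slp, h.pts⟩

/-- The trivial side label. -/
theorem Uh_unit {p : F.Ω → ℝ} (hp : ∀ ω, 0 ≤ p ω) {D : ℕ} {al : F.Ω → ℝ} {κ d X qa qb : ℕ}
    {x₁ ϖ δ ε₁ ca : ℝ}
    (h : Uh (F.cnd (fun _ : F.Ω => ())) p σ wa wb vp D a s t al κ d X qa qb x₁ ϖ δ ε₁ ca) :
    Uh F p σ wa wb vp D a s t al κ d X qa qb x₁ ϖ δ ε₁ ca := by
  have hc : ∀ (E : F.Ω → Prop) (ω : F.Ω), 0 ≤ Pool.Agent.H49.Ent.cond p E True ω :=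
    fun E ω => cond_nonneg hp _ _ _
  have hb : ∀ (w : ℕ) (c : Fin 3 → ℕ) (M : F.Ω → Fin 3 → Fin 3 → ℝ) (ω ω' : F.Ω),
      (F.cnd (fun _ : F.Ω => ())).blb w c M ω = (F.cnd (fun _ : F.Ω => ())).blb w c M ω' ↔
        F.blb w c M ω = F.blb w c M ω' := by
    intro w c M ω ω'
    rw [blb_cnd]
    simp
  constructor
  · intro E hE
    refine (h.tm E hE).trans ?_
    refine CH_mono_cond (hc E) ?_
    intro ω ω' _ _ e
    have e1 := Prod.ext_iff.mp e
    have e2 := Prod.ext_iff.mp e1.2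
    exact Prod.ext e1.1 (Prod.ext (Prod.ext_iff.mp e2.1).2 e2.2)
  · intro w q h1 h2 h3 h4 E hE
    have h5 := h.h6 w q h1 h2 h3 h4 E hE
    have h6 : dbl (Pool.Agent.H49.Ent.cond p E True)
        (F.blb w (cv (vp w) κ (q + X)) (frm σ (a w) s t)) =
        dbl (Pool.Agent.H49.Ent.cond p E True)
        ((F.cnd (fun _ : F.Ω => ())).blb w (cv (vp w) κ (q + X)) (frm σ (a w) s t)) :=
      dbl_congr (hc E) fun ω ω' _ _ => (hb _ _ _ _ _).symm
    rw [h6]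
    exact h5
  · intro w q X' h1 h2 h3 h4 h5 h6 h7 E hE
    refine (h.wf w q X' h1 h2 h3 h4 h5 h6 h7 E hE).trans ?_
    refine CH_mono_cond (hc E) ?_
    intro ω ω' _ _ e
    have e1 := Prod.ext_iff.mp e
    exact Prod.ext ((hb _ _ _ _ _).1 e1.1) e1.2
  · intro w q X' h1 h2 h3 h4 h5 h6 h7 E hE
    refine (h.act w q X' h1 h2 h3 h4 h5 h6 h7 E hE).trans ?_
    refine CH_mono_cond (hc E) ?_
    intro ω ω' _ _ e
    exact (hb _ _ _ _ _).1 e

end fr

/-! ### The numbers -/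

/-- The numbers of a rectangle `[wa, wb] × [qa, qb)` in the zone of size `L` at `(w₀, q₀)`. The
block is `X = n d`, the frames at the exact points are rounded to `D` digits. -/
structure UeN (J : ℕ) (w₀ v₀ v q₀ L M cw κ e₂ γ x₁ : ℝ) (n wa wb : ℕ) (vp : ℕ → ℕ)
    (kap Hu HN qa qb d D : ℕ) : Prop where
  wa1 : (w₀ - L) * J ≤ wa
  wb1 : (wb : ℝ) ≤ (w₀ + L) * J
  ww : wa + cw * L * J ≤ wb
  qa1 : (q₀ - M * L) * J ≤ qa
  qb1 : (qb : ℝ) ≤ (q₀ + M * L) * J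
  qq : qa ≤ qb
  lin : ∀ w, wa ≤ w → w ≤ wb → |(vp w : ℝ) - (v₀ * J + v * (w - w₀ * J))| ≤ e₂ * L * J
  hh : vp wb + L * J ≤ kap
  room : Room (J := J) wb vp kap Hu HN qb (L * J)
  d1 : κ * L * J / 2 ≤ d
  d2 : (d : ℝ) ≤ κ * L * J
  nd : ((n * d : ℕ) : ℝ) ≤ γ * (qb - qa : ℕ)
  D1 : vp wb + x₁ * (n * d : ℕ) ≤ D
  D2 : ((D - vp wa : ℕ) : ℝ) ≤ γ * (qb - qa : ℕ)
  rise : wb + vp wb ≤ wa + vp wa + (qb - qa)

/-- **(UH)** The hypotheses of the U-step in a class, `v ≥ 0`, for given constants. -/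
def UhStmt : Prop :=
  ∀ (x₁ ϖ δ ε₁ γ α : ℝ) (n d₀ : ℕ), 0 < x₁ → 0 < ϖ → 0 < δ → 0 < ε₁ → 0 < γ → 0 < α → 1 ≤ n →
  ∀ v M cw : ℝ, 0 ≤ v → 0 < M → 0 < cw → ∃ κ₀ : ℝ, 0 < κ₀ ∧ ∀ κ : ℝ, 0 < κ → κ ≤ κ₀ →
  ∃ e₂ : ℝ, 0 < e₂ ∧ ∀ (S : PCl 3) (a₁ R : ℝ) (i₀ : Fin 3) (rt act : ℚ → ℝ) (w₀ v₀ q₀ a₀ : ℝ),
    (∀ (τ : ℝ) (J : ℕ) (F : Fam 3 J) (A : F.Ω → Prop), S.St τ J F A → Fam.Stt F a₁ R τ A) →
    (∀ w : ℚ, 0 ≤ w → w ≤ 1 → PNum S (capS 1 (qRot i₀ 1 w)) (rt w)) →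
    (∀ w : ℚ, 0 ≤ w → w ≤ 1 → 0 ≤ rt w) →
    ActN S i₀ act → (∀ q q' : ℚ, 0 ≤ q → q ≤ q' → q' ≤ 1 → act q ≤ act q') →
    0 < w₀ → w₀ < 1 → v₀ < 1 → 0 < q₀ → q₀ < 1 →
    Pool.Sel51.Slp rt w₀ v₀ v → Pool.Sel51.Slp act q₀ a₀ α →
  ∃ L₀ : ℝ, 0 < L₀ ∧ ∀ L B C : ℝ, 0 < L → L ≤ L₀ → Clp S (fun J F A =>
    ∀ (σ : Fin 3 → Fin 3) (wl wa wb : ℕ) (vp : ℕ → ℕ) (kap Hu HN : ℕ)
      (al nu k b : (Fin 3 → ℤ) × (ℕ × F.ζ) → ℝ) (a : ℕ → F.Ω → ℝ) (s t : F.Ω → ℝ),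
      UFr F A σ wl wa wb vp kap Hu HN al nu k b a s t B C → σ 0 = i₀ →
    ∀ qa qb d D : ℕ, UeN J w₀ v₀ v q₀ L M cw κ e₂ γ x₁ n wa wb vp kap Hu HN qa qb d D →
    0 < Pe F.p A ∧ vp wb ≤ D ∧ d₀ ≤ d ∧
    (0 < v → ∃ tt, Ush wa wb vp D (n * d) tt qa qb J γ) ∧
    ∀ (K : Type) (Th : F.Ω → K), SLb F A wl Th →
      Uh (F.cnd Th) (Pool.Agent.H49.Ent.cond F.p A True) σ wa wb vp D a s t
        (fun ω => al (Fam.pt F ω)) kap d (n * d) qa qb x₁ ϖ δ ε₁ (α / 2))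

/-- **(UE)** in a class, for slopes `v` of `rot` in the set `V`; in static boxes, outside a small set
of contexts. -/
def UeStmt (V : Set ℝ) : Prop :=
  ∀ ε ρ α : ℝ, 0 < ε → 0 < ρ → 0 < α → ∃ (n : ℕ) (γ x₁ : ℝ), 1 ≤ n ∧ 0 < γ ∧ γ ≤ 1 ∧ 0 < x₁ ∧
  ∀ v ∈ V, ∀ M cw : ℝ, 0 < M → 0 < cw → ∃ κ₀ : ℝ, 0 < κ₀ ∧ ∀ κ : ℝ, 0 < κ → κ ≤ κ₀ →
  ∃ e₂ : ℝ, 0 < e₂ ∧ ∀ (S : PCl 3) (a₁ R : ℝ) (i₀ : Fin 3) (rt act : ℚ → ℝ) (w₀ v₀ q₀ a₀ : ℝ),
    (∀ (τ : ℝ) (J : ℕ) (F : Fam 3 J) (A : F.Ω → Prop), S.St τ J F A → Fam.Stt F a₁ R τ A) →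
    (∀ w : ℚ, 0 ≤ w → w ≤ 1 → PNum S (capS 1 (qRot i₀ 1 w)) (rt w)) →
    (∀ w : ℚ, 0 ≤ w → w ≤ 1 → 0 ≤ rt w) →
    ActN S i₀ act → (∀ q q' : ℚ, 0 ≤ q → q ≤ q' → q' ≤ 1 → act q ≤ act q') →
    0 < w₀ → w₀ < 1 → v₀ < 1 → 0 < q₀ → q₀ < 1 →
    Pool.Sel51.Slp rt w₀ v₀ v → Pool.Sel51.Slp act q₀ a₀ α →
  ∃ L₀ : ℝ, 0 < L₀ ∧ ∀ L B C : ℝ, 0 < L → L ≤ L₀ → Clp S (fun J F A =>
    ∀ (σ : Fin 3 → Fin 3) (wl wa wb : ℕ) (vp : ℕ → ℕ) (kap Hu HN : ℕ)
      (al nu k b : (Fin 3 → ℤ) × (ℕ × F.ζ) → ℝ) (a : ℕ → F.Ω → ℝ) (s t : F.Ω → ℝ),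
      UFr F A σ wl wa wb vp kap Hu HN al nu k b a s t B C → σ 0 = i₀ →
    ∀ qa qb d D : ℕ, UeN J w₀ v₀ v q₀ L M cw κ e₂ γ x₁ n wa wb vp kap Hu HN qa qb d D →
    (∃ Bd : Finset (ℕ × ℕ), (Bd.card : ℝ) ≤ ρ * ((wb + 1 - wa : ℕ) * (qb - qa : ℕ)) ∧
      ∀ w q, wa ≤ w → w ≤ wb → qa ≤ q → q < qb → (w, q) ∉ Bd →
        Uc F (Pool.Agent.H49.Ent.cond F.p A True) σ vp D a s t (fun ω => al (Fam.pt F ω)) kap
          (n * d) w q ε) ∧
    ∀ (K : Type) (Th : F.Ω → K), SLb F A wl Th →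
    ∃ Bd : Finset (ℕ × ℕ), (Bd.card : ℝ) ≤ ρ * ((wb + 1 - wa : ℕ) * (qb - qa : ℕ)) ∧
      ∀ w q, wa ≤ w → w ≤ wb → qa ≤ q → q < qb → (w, q) ∉ Bd →
        Uc (F.cnd Th) (Pool.Agent.H49.Ent.cond F.p A True) σ vp D a s t
          (fun ω => al (Fam.pt F ω)) kap (n * d) w q ε)

/-- The sum of the losses over the rectangle. -/
noncomputable def Usm {J : ℕ} (F : Fam 3 J) (p : F.Ω → ℝ) (σ : Fin 3 → Fin 3) (wa wb : ℕ)
    (vp : ℕ → ℕ) (D : ℕ) (a : ℕ → F.Ω → ℝ) (s t al : F.Ω → ℝ) (κ X qa qb : ℕ) (N : ℕ → ℕ → ℕ) :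
    ℝ :=
  ∑ x ∈ Finset.Icc wa wb ×ˢ Finset.Ico qa qb, (2 * X * Real.log 2 -
    CH p (F.sbx σ (x.1 + x.2 + X) (x.1 + vp x.1 + x.2 + X) (N x.1 x.2) (ald D al) s t)
      (ocn F σ vp D a s t al κ x.1 x.2 (N x.1 x.2)))

/-- **(US)** in a class: the same in the mean over the rectangle. -/
def UsStmt (V : Set ℝ) : Prop :=
  ∀ ε α : ℝ, 0 < ε → 0 < α → ∃ (n : ℕ) (γ x₁ : ℝ), 1 ≤ n ∧ 0 < γ ∧ γ ≤ 1 ∧ 0 < x₁ ∧
  ∀ v ∈ V, ∀ M cw : ℝ, 0 < M → 0 < cw → ∃ κ₀ : ℝ, 0 < κ₀ ∧ ∀ κ : ℝ, 0 < κ → κ ≤ κ₀ →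
  ∃ e₂ : ℝ, 0 < e₂ ∧ ∀ (S : PCl 3) (a₁ R : ℝ) (i₀ : Fin 3) (rt act : ℚ → ℝ) (w₀ v₀ q₀ a₀ : ℝ),
    (∀ (τ : ℝ) (J : ℕ) (F : Fam 3 J) (A : F.Ω → Prop), S.St τ J F A → Fam.Stt F a₁ R τ A) →
    (∀ w : ℚ, 0 ≤ w → w ≤ 1 → PNum S (capS 1 (qRot i₀ 1 w)) (rt w)) →
    (∀ w : ℚ, 0 ≤ w → w ≤ 1 → 0 ≤ rt w) →
    ActN S i₀ act → (∀ q q' : ℚ, 0 ≤ q → q ≤ q' → q' ≤ 1 → act q ≤ act q') →
    0 < w₀ → w₀ < 1 → v₀ < 1 → 0 < q₀ → q₀ < 1 →
    Pool.Sel51.Slp rt w₀ v₀ v → Pool.Sel51.Slp act q₀ a₀ α →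
  ∃ L₀ : ℝ, 0 < L₀ ∧ ∀ L B C : ℝ, 0 < L → L ≤ L₀ → Clp S (fun J F A =>
    ∀ (σ : Fin 3 → Fin 3) (wl wa wb : ℕ) (vp : ℕ → ℕ) (kap Hu HN : ℕ)
      (al nu k b : (Fin 3 → ℤ) × (ℕ × F.ζ) → ℝ) (a : ℕ → F.Ω → ℝ) (s t : F.Ω → ℝ),
      UFr F A σ wl wa wb vp kap Hu HN al nu k b a s t B C → σ 0 = i₀ →
    ∀ qa qb d D : ℕ, UeN J w₀ v₀ v q₀ L M cw κ e₂ γ x₁ n wa wb vp kap Hu HN qa qb d D →
    ∀ N : ℕ → ℕ → ℕ, (∀ w q, wa ≤ w → w ≤ wb → qa ≤ q → q < qb → N w q ≤ w + q + kap) →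
    Usm F (Pool.Agent.H49.Ent.cond F.p A True) σ wa wb vp D a s t (fun ω => al (Fam.pt F ω)) kap
      (n * d) qa qb N ≤ ε * (n * d : ℕ) * ((wb + 1 - wa : ℕ) * (qb - qa : ℕ)) ∧
    ∀ (K : Type) (Th : F.Ω → K), SLb F A wl Th →
      Usm (F.cnd Th) (Pool.Agent.H49.Ent.cond F.p A True) σ wa wb vp D a s t
        (fun ω => al (Fam.pt F ω)) kap (n * d) qa qb N ≤
        ε * (n * d : ℕ) * ((wb + 1 - wa : ℕ) * (qb - qa : ℕ)))

/-- Rationals between. -/
theorem rat_btw {x y : ℝ} (h : x < y) : ∃ q : ℚ, x < q ∧ (q : ℝ) < y := exists_rat_btwn h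

theorem uh_cls (hW : WF2Stmt) (hA2 : ACT2Stmt) : UhStmt := by
  intro x₁ ϖ δ ε₁ γ α n d₀ hx₁ hϖ hδ hε₁ hγ hα hn v M cw hv hM hcw
  have hn0 : (1 : ℝ) ≤ n := by exact_mod_cast hn
  have hnp : (0 : ℝ) < n := by linarith only [hn0]
  obtain ⟨κ₀, hκ₀⟩ : ∃ κ₀, κ₀ = min (1 / (4 * n * (1 + x₁))) (γ * cw / (8 * n * (1 + 1 / v))) :=
    ⟨_, rfl⟩
  have hκ₀0 : 0 < κ₀ := by rw [hκ₀]; exact lt_min (by positivity) (by positivity)
  refine ⟨κ₀, hκ₀0, fun κ hκ hκκ => ?_⟩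
  have hκ1 : 4 * n * (1 + x₁) * κ ≤ 1 := by
    have h1 : κ ≤ 1 / (4 * n * (1 + x₁)) := hκκ.trans (by rw [hκ₀]; exact min_le_left _ _)
    rw [le_div_iff₀ (by positivity)] at h1
    linarith only [h1]
  have hκ2 : 8 * n * (1 + 1 / v) * κ ≤ γ * cw := by
    have h1 : κ ≤ γ * cw / (8 * n * (1 + 1 / v)) := hκκ.trans (by rw [hκ₀]; exact min_le_right _ _)
    rw [le_div_iff₀ (by positivity)] at h1
    linarith only [h1]
  obtain ⟨v', hv'⟩ : ∃ v' : ℝ, v' = if 0 < v then v else 1 := ⟨_, rfl⟩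
  have hv'0 : 0 < v' := by
    rw [hv']
    split_ifs with h
    · exact h
    · exact one_pos
  obtain ⟨e₂, he₂⟩ : ∃ e₂, e₂ = min (x₁ * n * κ / 16) (v' * γ * cw / 16) := ⟨_, rfl⟩
  have he₂0 : 0 < e₂ := by rw [he₂]; exact lt_min (by positivity) (by positivity)
  have he₂1 : e₂ ≤ x₁ * n * κ / 16 := by rw [he₂]; exact min_le_left _ _
  have he₂2 : 0 < v → e₂ ≤ v * γ * cw / 16 := by
    intro h
    have h1 : v' = v := by rw [hv', if_pos h]
    rw [← h1, he₂]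
    exact min_le_right _ _
  refine ⟨e₂, he₂0, fun S a₁ R i₀ rt act w₀ v₀ q₀ a₀ hSt hrt hrt0 hact hactm hw0 hw1 hv1 hq0
    hq1 hslr hsla => ?_⟩
  -- the size of the zone
  obtain ⟨cη, hcη⟩ : ∃ cη, cη = min (min (δ * n * κ / 4) (α * κ / 16)) (1 / 4) := ⟨_, rfl⟩
  have hcη0 : 0 < cη := by
    rw [hcη]
    exact lt_min (lt_min (by positivity) (by positivity)) (by norm_num)
  have hcη1 : cη ≤ δ * n * κ / 4 := by
    rw [hcη]
    exact (min_le_left _ _).trans (min_le_left _ _)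
  have hcη2 : cη ≤ α * κ / 16 := by
    rw [hcη]
    exact (min_le_left _ _).trans (min_le_right _ _)
  have hcη3 : cη ≤ 1 / 4 := by rw [hcη]; exact min_le_right _ _
  obtain ⟨ca, hca⟩ : ∃ ca, ca = 3 * α / 4 := ⟨_, rfl⟩
  have hca0 : 0 < ca := by rw [hca]; positivity
  obtain ⟨e₃, he₃⟩ : ∃ e₃, e₃ = min (ca * cη / 16) (cη / 16) / (2 * (M + 2)) := ⟨_, rfl⟩
  have he₃0 : 0 < e₃ := by
    rw [he₃]
    exact div_pos (lt_min (by positivity) (by positivity)) (by positivity)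
  have he₃m : 2 * (M + 2) * e₃ = min (ca * cη / 16) (cη / 16) := by
    rw [he₃]
    field_simp
  have he₃1 : 2 * (M + 2) * e₃ ≤ ca * cη / 16 := by rw [he₃m]; exact min_le_left _ _
  have he₃2 : 2 * (M + 2) * e₃ ≤ cη / 16 := by rw [he₃m]; exact min_le_right _ _
  obtain ⟨δ₁, hδ₁, hs1⟩ := hslr (e₂ / 2) (by positivity)
  obtain ⟨δ₂, hδ₂, hs2⟩ := hsla e₃ he₃0
  obtain ⟨L₀, hL₀⟩ : ∃ L₀, L₀ = min (min (min (δ₁ / 4) (δ₂ / (2 * (M + 2)))) (min (w₀ / 4)
    ((1 - w₀) / 4))) (min (min (q₀ / (2 * (M + 2))) ((1 - q₀) / (2 * (M + 2))))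
      ((1 - v₀) / (4 * (v + 2) * (1 + e₂)))) := ⟨_, rfl⟩
  have hL₀0 : 0 < L₀ := by
    rw [hL₀]
    have h1 : 0 < 1 - w₀ := by linarith only [hw1]
    have h2 : 0 < 1 - q₀ := by linarith only [hq1]
    have h3 : 0 < 1 - v₀ := by linarith only [hv1]
    exact lt_min (lt_min (lt_min (by positivity) (by positivity)) (lt_min (by positivity)
      (by positivity))) (lt_min (lt_min (by positivity) (by positivity)) (by positivity))
  refine ⟨L₀, hL₀0, fun L B C hL hLL => ?_⟩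
  rw [hL₀] at hLL
  have hMp : 0 < 2 * (M + 2) := by positivity
  obtain ⟨l12, l34⟩ := le_min_iff.1 hLL
  obtain ⟨l1, l2⟩ := le_min_iff.1 l12
  obtain ⟨l3, l4⟩ := le_min_iff.1 l34
  have f1 : 4 * L ≤ δ₁ := by
    have := (le_min_iff.1 l1).1
    linarith only [this]
  have f2 : 2 * (M + 2) * L ≤ δ₂ := by
    have := (le_min_iff.1 l1).2
    rw [le_div_iff₀ hMp] at this
    linarith only [this]
  have f3 : 4 * L ≤ w₀ := by
    have := (le_min_iff.1 l2).1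
    linarith only [this]
  have f4 : 4 * L ≤ 1 - w₀ := by
    have := (le_min_iff.1 l2).2
    linarith only [this]
  have f5 : 2 * (M + 2) * L ≤ q₀ := by
    have := (le_min_iff.1 l3).1
    rw [le_div_iff₀ hMp] at this
    linarith only [this]
  have f6 : 2 * (M + 2) * L ≤ 1 - q₀ := by
    have := (le_min_iff.1 l3).2
    rw [le_div_iff₀ hMp] at this
    linarith only [this]
  have f7 : 4 * (v + 2) * (1 + e₂) * L ≤ 1 - v₀ := by
    rw [le_div_iff₀ (by positivity)] at l4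
    linarith only [l4]
  have hML : 0 < M * L := by positivity
  -- the numbers
  obtain ⟨h, hh⟩ : ∃ h, h = x₁ * n * κ * L / (16 * (v + 2)) := ⟨_, rfl⟩
  have hh0 : 0 < h := by rw [hh]; positivity
  have hhv : 16 * ((v + 2) * h) = x₁ * n * κ * L := by
    rw [hh]
    field_simp
  have hnk : 4 * (n * κ) + 4 * (x₁ * n * κ) ≤ 1 := by
    have e : 4 * n * (1 + x₁) * κ = 4 * (n * κ) + 4 * (x₁ * n * κ) := by ring
    linarith only [hκ1]
  have hnκ0 : 0 < n * κ := by positivity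
  have hxnκ0 : 0 < x₁ * n * κ := by positivity
  have hhL : h ≤ L := by
    have h1 : (v + 2) * h ≤ L / 64 := by
      have h2 : x₁ * n * κ * L ≤ 1 / 4 * L := mul_le_mul_of_nonneg_right (by linarith only [hκ1, hnκ0]) hL.le
      linarith only [hhv, h2]
    have h3 : 2 * h ≤ (v + 2) * h := mul_le_mul_of_nonneg_right (by linarith only [hv]) hh0.le
    linarith only [hh0, h1, h3]
  obtain ⟨η, hη⟩ : ∃ η, η = cη * L := ⟨_, rfl⟩
  have hη0 : 0 < η := by rw [hη]; positivity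
  have hηL : η ≤ L / 4 := by
    rw [hη]
    have := mul_le_mul_of_nonneg_right hcη3 hL.le
    linarith only [this]
  obtain ⟨w₁, hw₁, hw₁'⟩ := rat_btw (show w₀ - 2 * L < w₀ - L by linarith only [hL])
  obtain ⟨w₂, hw₂, hw₂'⟩ := rat_btw (show w₀ + 2 * L < w₀ + 3 * L by linarith only [hL])
  have hwg : ∀ wg : ℚ, w₁ ≤ wg → wg ≤ w₂ → |(wg : ℝ) - w₀| ≤ 3 * L := by
    intro wg g1 g2
    have g1' : (w₁ : ℝ) ≤ wg := by exact_mod_cast g1
    have g2' : (wg : ℝ) ≤ w₂ := by exact_mod_cast g2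
    rw [abs_le]
    constructor <;> linarith
  have hrtg : ∀ wg : ℚ, w₁ ≤ wg → wg ≤ w₂ → rt wg ≤ v₀ + v * (wg - w₀) + 3 / 2 * e₂ * L := by
    intro wg g1 g2
    have g3 := hwg wg g1 g2
    have g4 := abs_le.1 (hs1 wg (lt_of_le_of_lt g3 (by linarith only [hδ₁, f1])))
    have g5 : e₂ / 2 * |(wg : ℝ) - w₀| ≤ e₂ / 2 * (3 * L) :=
      mul_le_mul_of_nonneg_left g3 (by positivity)
    linarith only [g4, g5, g4.2]
  have hw₁0 : (0 : ℚ) ≤ w₁ := by
    have : (0 : ℝ) ≤ w₁ := by linarith only [hw0, f3, hw₁]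
    exact_mod_cast this
  have hw₁₂ : w₁ < w₂ := by
    have : (w₁ : ℝ) < w₂ := by linarith only [hη0, hηL, hw₁', hw₂]
    exact_mod_cast this
  have hw₂1 : w₂ ≤ 1 := by
    have : (w₂ : ℝ) ≤ 1 := by linarith only [f4, hη0, hηL, hw₂']
    exact_mod_cast this
  -- the claims
  have cP : Clp S (fun J F A => 0 < Pe F.p A) := Clp.of one_pos 0 fun J _ F A hS =>
    lt_of_lt_of_le (Real.exp_pos _) (hSt 1 J F A hS).2.2.2
  have cT := (time_cls hSt (η := δ * n * κ * L / 2) (by positivity)).ev hϖ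
  have cH := (h62 S a₁ R i₀ rt hSt hrt w₁ w₂ h ε₁ hw₁0 hw₁₂ hw₂1 hh0 hε₁ (by
    intro wg g1 g2
    refine ⟨hrt0 wg (hw₁0.trans g1) (g2.trans hw₂1), ?_⟩
    have g3 := hrtg wg g1 g2
    have g4 := (abs_le.1 (hwg wg g1 g2)).2
    have g5 : v * ((wg : ℝ) - w₀) ≤ v * (3 * L) := mul_le_mul_of_nonneg_left g4 hv
    have g6 : 4 * (v + 2) * (1 + e₂) * L = 4 * v * L + 8 * L + 4 * v * e₂ * L + 8 * e₂ * L := by
      ring
    have g7 : 0 ≤ v * e₂ * L := by positivity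
    have g8 : 0 ≤ e₂ * L := by positivity
    have g9 : 0 ≤ v * L := by positivity
    linarith only [hv1, f7, hhL, hη0, hηL, g3, g5, g7, g8]) B C).ev hϖ
  have hActG : ∀ x y e : ℝ, q₀ - M * L ≤ x → y ≤ q₀ + (M + 2) * L → 2 * (M + 2) * e₃ * L ≤ e →
      ActG act x y ca e := by
    intro x y e hx hy he q q' h1 h2 h3
    have h1' : x ≤ q := h1
    have h2' : (q : ℝ) ≤ q' := by exact_mod_cast h2
    have b1 : |(q : ℝ) - q₀| ≤ (M + 2) * L := by
      rw [abs_le]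
      constructor <;> linarith
    have b2 : |(q' : ℝ) - q₀| ≤ (M + 2) * L := by
      rw [abs_le]
      constructor <;> linarith
    have hML2 : (M + 2) * L < δ₂ := by
      have : 0 < (M + 2) * L := by positivity
      linarith only [hδ₂, f2]
    have c1 := abs_le.1 (hs2 q (lt_of_le_of_lt b1 hML2))
    have c2 := abs_le.1 (hs2 q' (lt_of_le_of_lt b2 hML2))
    have d1 := mul_le_mul_of_nonneg_left b1 he₃0.le
    have d2 := mul_le_mul_of_nonneg_left b2 he₃0.le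
    have d3 : 0 ≤ α * ((q' : ℝ) - q) := mul_nonneg hα.le (by linarith only [h2'])
    rw [hca]
    linarith only [he, c1, c2, d1, d2, d3, c1.1, c1.2, c2.1, c2.2]
  have cW := (hW S a₁ R i₀ act hSt hact (q₀ - M * L) (q₀ + (M + 1) * L) ca η (by linarith only [hq0, hL, f5])
    (by linarith only [hL, hML]) (by linarith only [hL, f6, hML, hηL]) hca0 hη0 (hActG _ _ _ le_rfl (by linarith only [hL, hηL]) (by
      rw [hη]
      have := mul_le_mul_of_nonneg_right he₃1 hL.le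
      linarith only [this])) (B + 1) C).ev hϖ
  have cA := (hA2 S a₁ R i₀ act hSt hact hactm (q₀ - M * L) (q₀ + (M + 1) * L) ca η (by linarith only [hq0, hL, f5])
    (by linarith only [hL, hML]) (by linarith only [hq1, hL, f6]) hca0 hη0 (hActG _ _ _ le_rfl (by linarith only [hL]) (by
      rw [hη]
      have := mul_le_mul_of_nonneg_right he₃2 hL.le
      linarith only [this])) (B + 1) C).ev hϖ
  -- large resolutions
  obtain ⟨l15, hl15⟩ : ∃ l15, l15 = 2 * ((3 : ℕ) * Real.log 15) := ⟨_, rfl⟩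
  have hl15' : 0 ≤ l15 := by
    rw [hl15]
    have := Real.log_nonneg (show (1 : ℝ) ≤ 15 by norm_num)
    positivity
  obtain ⟨u, hu⟩ : ∃ u, u = Real.log 2 := ⟨_, rfl⟩
  have hu0 : 0 < u := by rw [hu]; exact Real.log_pos (by norm_num)
  have hu1 : u ≤ 1 := by
    rw [hu]
    have := Real.log_le_sub_one_of_pos (show (0 : ℝ) < 2 by norm_num)
    linarith only [this]
  obtain ⟨J₀, hJ₀⟩ := exists_nat_ge ((d₀ : ℝ) * 2 / (κ * L) + 4 / (γ * cw * L) + l15 / (η * u) + 1)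
  refine Clp.mono (J₂ := J₀) (cP.and ((cT.and cH).and (cW.and cA))) ?_
  rintro J hJ F A ⟨hA0, ⟨gT, gH⟩, gW, gA⟩ σ wl wa wb vp kap Hu HN al nu k b a s t hU hσ qa qb d D
    hN
  have hJ0 : (J₀ : ℝ) ≤ J := by exact_mod_cast hJ
  have hJ1 : (d₀ : ℝ) * 2 / (κ * L) + 4 / (γ * cw * L) + l15 / (η * u) + 1 ≤ J := hJ₀.trans hJ0
  have j1 : 0 ≤ (d₀ : ℝ) * 2 / (κ * L) := by positivity
  have j2 : 0 ≤ 4 / (γ * cw * L) := by positivity
  have j0 : 0 ≤ l15 / (η * u) := by positivity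
  have hJp : (0 : ℝ) < J := by linarith only [hκ1, he₂0, he₂1, hnκ0, hJ₀, hJ0, j1, j2, j0]
  have j3 : (d₀ : ℝ) * 2 ≤ κ * L * J := by
    have : (d₀ : ℝ) * 2 / (κ * L) ≤ J := by linarith only [hκ1, he₂0, he₂1, hnκ0, hJ₀, hJ0, j2, j0]
    rw [div_le_iff₀ (by positivity)] at this
    linarith only [this]
  have j4 : 4 ≤ γ * cw * L * J := by
    have : 4 / (γ * cw * L) ≤ J := by linarith only [hκ1, he₂0, he₂1, hnκ0, hJ₀, hJ0, j1, j0]
    rw [div_le_iff₀ (by positivity)] at this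
    linarith only [this]
  have j5 : l15 ≤ η * J * u := by
    have : l15 / (η * u) ≤ J := by linarith only [hκ1, he₂0, he₂1, hnκ0, hJ₀, hJ0, j1, j2]
    rw [div_le_iff₀ (by positivity)] at this
    linarith only [this]
  have hLJ : 0 < L * J := by positivity
  have hd1 := hN.d1
  have hd2 := hN.d2
  have hdd : d₀ ≤ d := by
    have : (d₀ : ℝ) ≤ d := by linarith only [j3, hd1]
    exact_mod_cast this
  -- the block
  have hXr : ((n * d : ℕ) : ℝ) = n * d := by push_cast; ring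
  have hX1 : n * κ * (L * J) / 2 ≤ ((n * d : ℕ) : ℝ) := by
    rw [hXr]
    have := mul_le_mul_of_nonneg_left hd1 hnp.le
    linarith only [this]
  have hX2 : ((n * d : ℕ) : ℝ) ≤ n * κ * (L * J) := by
    rw [hXr]
    have := mul_le_mul_of_nonneg_left hd2 hnp.le
    linarith only [this]
  have hX3 : ((n * d : ℕ) : ℝ) ≤ L * J / 4 := by
    refine hX2.trans ?_
    have := mul_le_mul_of_nonneg_right (show n * κ ≤ 1 / 4 by linarith only [hκ1, he₂0, he₂1]) hLJ.le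
    linarith only [this]
  have hxX1 : x₁ * n * κ * (L * J) / 2 ≤ x₁ * (n * d : ℕ) := by
    have := mul_le_mul_of_nonneg_left hX1 hx₁.le
    linarith only [this]
  have hxX2 : x₁ * (n * d : ℕ) ≤ L * J / 4 := by
    have h1 := mul_le_mul_of_nonneg_left hX2 hx₁.le
    have h2 := mul_le_mul_of_nonneg_right (show x₁ * n * κ ≤ 1 / 4 by linarith only [hκ1, hnκ0]) hLJ.le
    linarith only [h1, h2]
  have hX00 : (0 : ℝ) ≤ (n * d : ℕ) := Nat.cast_nonneg _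
  -- windows
  have hwab : wa ≤ wb := by
    have : (wa : ℝ) ≤ wb := by
      have := hN.ww
      have h1 : 0 ≤ cw * L * J := by positivity
      linarith only [this, h1]
    exact_mod_cast this
  have hvm : ∀ w, wa ≤ w → w ≤ wb → (vp w : ℝ) ≤ vp wb := fun w g1 g2 => by
    exact_mod_cast hU.mono w wb g1 g2 le_rfl
  have hDv : (vp wb : ℝ) + x₁ * (n * d : ℕ) ≤ D := hN.D1
  have hDv' : vp wb ≤ D := by
    have h1 : 0 ≤ x₁ * (n * d : ℕ) := by positivity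
    have : (vp wb : ℝ) ≤ D := by linarith only [hDv, h1]
    exact_mod_cast this
  have hwX : wb + n * d ≤ J := by
    have h1 : (wb : ℝ) + (n * d : ℕ) ≤ J := by
      have g1 := hN.wb1
      have g2 : (w₀ + L) * (J : ℝ) + L * J / 4 ≤ J := by
        have : (w₀ + L + L / 4) * (J : ℝ) ≤ 1 * J :=
          mul_le_mul_of_nonneg_right (by linarith only [hw1, f4]) hJp.le
        linarith only [this]
      linarith only [hX3, g1, g2]
    exact_mod_cast h1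
  -- events
  have hev : ∀ E : F.Ω → Prop, ϖ ≤ Pe (Pool.Agent.H49.Ent.cond F.p A True) E →
      Pool.Agent.H49.Ent.cond (Pool.Agent.H49.Ent.cond F.p A True) E True =
        Pool.Agent.H49.Ent.cond F.p (fun ω => A ω ∧ E ω) True ∧
      Sub (fun ω => A ω ∧ E ω) A ∧ ϖ * Pe F.p A ≤ Pe F.p (fun ω => A ω ∧ E ω) := by
    intro E hE
    refine ⟨cond_and' F.p hA0.ne', fun ω hω => hω.1, ?_⟩
    rw [Pe_cond, le_div_iff₀ hA0] at hE
    exact hE
  have hroom := hN.room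
  have hroom' : ∀ w q X' : ℕ, wa ≤ w → w ≤ wb → qa ≤ q → q + X' ≤ qb + n * d → X' ≤ n * d →
      2 * (η * (J : ℝ)) ≤ δ * (n * d : ℕ) ∧ (q₀ - M * L) * (J : ℝ) ≤ q ∧
      (q : ℝ) + X' ≤ (q₀ + (M + 1) * L) * J ∧ (vp wb : ℝ) + q + η * J ≤ Hu ∧
      (kap : ℝ) + q + η * J ≤ HN ∧ (wb : ℝ) + vp wb + q + η * J ≤ J ∧
      (wb : ℝ) + kap + q + η * J ≤ J ∧ w + q + X' ≤ J := by
    intro w q X' g1 g2 g3 g4 g6
    have g3' : (qa : ℝ) ≤ q := by exact_mod_cast g3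
    have g4' : (q : ℝ) + X' ≤ qb + (n * d : ℕ) := by exact_mod_cast g4
    have g2' : (w : ℝ) ≤ wb := by exact_mod_cast g2
    have hX'0 : (0 : ℝ) ≤ X' := Nat.cast_nonneg _
    have hv0' : (0 : ℝ) ≤ vp wb := Nat.cast_nonneg _
    have hηJ : η * (J : ℝ) ≤ L * J / 4 := by
      have := mul_le_mul_of_nonneg_right hηL hJp.le
      linarith only [this]
    have r1 := hroom.u
    have r2 := hroom.n
    have r3 := hroom.uJ
    have r4 := hroom.nJ
    refine ⟨?_, hN.qa1.trans g3', ?_, by linarith only [hLJ, hX3, g4', hηJ, r1], by linarith only [hLJ, hX3, g4', hηJ, r2], by linarith only [hLJ, hX3, g4', hηJ, r3], by linarith only [hLJ, hX3, g4', hηJ, r4], ?_⟩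
    · have h1 : η * (J : ℝ) = cη * (L * J) := by rw [hη]; ring
      have h2 := mul_le_mul_of_nonneg_right hcη1 hLJ.le
      have h3 := mul_le_mul_of_nonneg_left hX1 hδ.le
      linarith only [h1, h2, h3]
    · have := hN.qb1
      have e4 : (q₀ + (M + 1) * L) * (J : ℝ) = (q₀ + M * L) * J + L * J := by ring
      linarith only [hLJ, hX3, g4', this]
    · have : (w : ℝ) + q + X' ≤ J := by linarith only [hLJ, hX3, g4', g2', r3]
      exact_mod_cast this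
  exact by
   have hinj := hU.bij.1
   have hlw := hU.lw
   have hwbJ := hU.wJ
   refine ⟨hA0, hDv', hdd, fun hv0 => ?_, fun K Th hTh => ?_⟩
   · -- the shape
     obtain ⟨tt, htt⟩ : ∃ tt : ℕ, tt = ⌈(((n * d : ℕ) : ℝ) + 2 * e₂ * (L * J)) / v⌉₊ + n * d :=
       ⟨_, rfl⟩
     have htt1 : (((n * d : ℕ) : ℝ) + 2 * e₂ * (L * J)) / v ≤ tt := by
       rw [htt]
       push_cast
       have := Nat.le_ceil ((((n * d : ℕ) : ℝ) + 2 * e₂ * (L * J)) / v)
       push_cast at this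
       have h1 : (0 : ℝ) ≤ (n : ℝ) * d := by positivity
       linarith only [hXr, this]
     have htt2 : (tt : ℝ) ≤ (((n * d : ℕ) : ℝ) + 2 * e₂ * (L * J)) / v + 1 + (n * d : ℕ) := by
       rw [htt]
       have := (Nat.ceil_lt_add_one (show 0 ≤ (((n * d : ℕ) : ℝ) + 2 * e₂ * (L * J)) / v by
         positivity)).le
       push_cast at this ⊢
       linarith only [this]
     have httγ : (tt : ℝ) ≤ γ * (wb + 1 - wa : ℕ) := by
       have h1 : (((n * d : ℕ) : ℝ) + 2 * e₂ * (L * J)) / v =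
           (1 / v) * (n * d : ℕ) + 2 * (e₂ / v) * (L * J) := by
         field_simp
       have h2 : e₂ / v ≤ γ * cw / 16 := by
         rw [div_le_iff₀ hv0]
         linarith only [he₂2, hv0, he₂2 hv0]
       have h3 : (1 / v) * ((n * d : ℕ) : ℝ) + (n * d : ℕ) ≤ γ * cw / 8 * (L * J) := by
         have g1 : (1 / v) * ((n * d : ℕ) : ℝ) + (n * d : ℕ) = (1 + 1 / v) * ((n * d : ℕ) : ℝ) := by
           ring
         have g2 : (1 + 1 / v) * ((n * d : ℕ) : ℝ) ≤ (1 + 1 / v) * (n * κ * (L * J)) :=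
           mul_le_mul_of_nonneg_left hX2 (by positivity)
         have g3 : 8 * n * (1 + 1 / v) * κ * (L * J) ≤ γ * cw * (L * J) :=
           mul_le_mul_of_nonneg_right hκ2 hLJ.le
         rw [g1]
         linarith only [g2, g3]
       have h4 : 2 * (e₂ / v) * (L * J) ≤ 2 * (γ * cw / 16) * (L * J) :=
         mul_le_mul_of_nonneg_right (by linarith only [h2]) hLJ.le
       have h5 : cw * L * J ≤ (wb + 1 - wa : ℕ) := by
         have g1 := hN.ww
         have g2 : ((wb + 1 - wa : ℕ) : ℝ) = (wb : ℝ) + 1 - wa := by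
           rw [Nat.cast_sub (by omega)]
           push_cast
           ring
         rw [g2]
         linarith only [hκ1, he₂0, he₂1, hnκ0, g1]
       have h6 : γ * (cw * L * J) ≤ γ * (wb + 1 - wa : ℕ) := mul_le_mul_of_nonneg_left h5 hγ.le
       linarith only [hκ1, he₂0, he₂1, hnκ0, j4, htt2, h1, h3, h4, h6]
     exact by
      have hvtt : ∀ w w', wa ≤ w → w + tt ≤ w' → w' ≤ wb → vp w + n * d ≤ vp w' := by
        intro w w' g1 g2 g3
        have m1 := abs_le.1 (hN.lin w g1 (by omega))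
        have m2 := abs_le.1 (hN.lin w' (by omega) g3)
        have m3 : (w : ℝ) + tt ≤ w' := by exact_mod_cast g2
        have m4 : ((n * d : ℕ) : ℝ) + 2 * e₂ * (L * J) ≤ v * tt := by
          rw [div_le_iff₀ hv0] at htt1
          linarith only [htt1]
        have m5 : v * ((w : ℝ) + tt) ≤ v * w' := mul_le_mul_of_nonneg_left m3 hv
        have : ((vp w + n * d : ℕ) : ℝ) ≤ vp w' := by
          rw [Nat.cast_add]
          linarith only [m1, m2, m4, m5, m1.1, m1.2, m2.1, m2.2]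
        exact_mod_cast this
      exact by
       exact ⟨tt, hwab, hN.qq, by rw [htt]; omega, hwX, hvtt, httγ, hN.nd, hN.D2, hN.rise⟩
   -- the side label
   have hTw : ∀ w, wa ≤ w → w ≤ wb → Det F.p (slam F w) Th := by
     intro w g1 g2 ω ω' hω hω' e
     refine hTh.slp ω ω' hω hω' ?_
     rw [slam_coarse F (w := wl) (w' := w) (by omega) (by omega) ω,
       slam_coarse F (w := wl) (w' := w) (by omega) (by omega) ω', e]
   obtain ⟨t', ht1, ht2⟩ := exists_code t Th (δ := 1 / 2 ^ (HN + kap)) (by positivity)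
   have hpow : ∀ {x y : ℕ}, x ≤ y → (1 : ℝ) / 2 ^ y ≤ 1 / 2 ^ x := by
     intro x y hxy
     exact div_le_div_of_nonneg_left (by norm_num) (by positivity)
       (pow_le_pow_right₀ (by norm_num) hxy)
   have hU' := hU.code hTh (t' := t') (fun ω => (ht1 ω).trans (hpow (by omega))) ht2
   exact by
    have htc : ∀ (w q : ℕ) (ω : F.Ω), |t' ω - t ω| ≤ 2 ^ cv (vp w) kap q 0 / 2 ^ cv (vp w) kap q 2 := by
      intro w q ω
      refine (ht1 ω).trans ((hpow (show kap ≤ HN + kap by omega)).trans (le_of_eq ?_))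
      change (1 : ℝ) / 2 ^ kap = 2 ^ q / 2 ^ (kap + q)
      rw [pow_add]
      field_simp
    have fT : ∀ E : F.Ω → Prop, ϖ ≤ Pe (Pool.Agent.H49.Ent.cond F.p A True) E →
        ((J : ℝ) - wa) * Real.log 2 - δ * (n * d : ℕ) ≤
        CH (Pool.Agent.H49.Ent.cond (Pool.Agent.H49.Ent.cond F.p A True) E True) F.T
          (slam (F.cnd Th) wa) := by
      intro E hE
      obtain ⟨e1, e2, e3⟩ := hev E hE
      have hA'0 : 0 < Pe F.p (fun ω => A ω ∧ E ω) := lt_of_lt_of_le (by positivity) e3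
      have hl := isLaw_cond F.isLaw hA'0
      exact by
       rw [e1]
       have h1 := tmw_of_tm hl (show wa ≤ J by omega) (by
         have := gT _ e2 e3
         exact this)
       have h2 : CH (Pool.Agent.H49.Ent.cond F.p (fun ω => A ω ∧ E ω) True) F.T (slam F wa) ≤
           CH (Pool.Agent.H49.Ent.cond F.p (fun ω => A ω ∧ E ω) True) F.T (slam (F.cnd Th) wa) := by
         refine CH_mono_cond hl.nonneg ?_
         intro ω ω' hω hω' e
         have p1 := ((cond_pos_iff F.isLaw.nonneg _ True ω).1 hω).1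
         have p2 := ((cond_pos_iff F.isLaw.nonneg _ True ω').1 hω').1
         have f1 := hTw wa le_rfl hwab ω ω' p1 p2 e
         have f2 := Prod.ext_iff.mp e
         have f3 := Prod.ext_iff.mp f2.2
         exact Prod.ext f2.1 (Prod.ext (Prod.ext f1 f3.1) f3.2)
       refine le_trans ?_ (h1.trans h2)
       have h3 := mul_le_mul_of_nonneg_left hX1 hδ.le
       linarith only [h3]
    exact by
     have fH : ∀ w q, wa ≤ w → w ≤ wb → qa ≤ q → q < qb → ∀ E : F.Ω → Prop,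
         ϖ ≤ Pe (Pool.Agent.H49.Ent.cond F.p A True) E →
         Pool.KAF.Pr (dbl (Pool.Agent.H49.Ent.cond (Pool.Agent.H49.Ent.cond F.p A True) E True)
           ((F.cnd Th).blb w (cv (vp w) kap (q + n * d)) (frm σ (a w) s t)))
           {v | |sl (vp w) D (a w) (fun ω => al (Fam.pt F ω)) v.1 -
             sl (vp w) D (a w) (fun ω => al (Fam.pt F ω)) v.2| <
             (2 : ℝ) ^ (-(x₁ * (n * d : ℕ)))} ≤ ε₁ := by
       intro w q g1 g2 g3 g4 E hE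
       obtain ⟨e1, e2, e3⟩ := hev E hE
       rw [e1]
       have hwJ1 := hN.wa1
       have hwJ2 := hN.wb1
       have g1' : (wa : ℝ) ≤ w := by exact_mod_cast g1
       have g2' : (w : ℝ) ≤ wb := by exact_mod_cast g2
       have hq0' : (0 : ℝ) ≤ qb := Nat.cast_nonneg _
       refine gH _ e2 e3 σ wl wa wb vp kap Hu HN al nu k b a s t (hU.sub e2) hσ w D _
         ((F.cnd Th).blb w (cv (vp w) kap (q + n * d)) (frm σ (a w) s t)) (x₁ * (n * d : ℕ))
         g1 g2 ?_ ?_ ?_ ?_ ?_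
       · intro ω ω' hω hω' e
         refine (blb_cnd Th).2 ⟨hTw w g1 g2 ω ω' hω hω' e, ?_⟩
         have hM : Det F.p (slam F w) (frm σ (a w) s t) := by
           intro ω ω' hω hω' e
           have e1 := hU.det g1 g2 ω ω' hω hω' e
           have e2 := Prod.ext_iff.mp e1
           have e3 := Prod.ext_iff.mp e2.2
           unfold frm
           have f1 : a w ω = a w ω' := e2.1
           have f2 : s ω = s ω' := e3.1
           have f3 : t ω = t ω' := e3.2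
           rw [f1, f2, f3]
         exact lbr_slam (c := cv (vp w) kap (q + n * d)) hM 0 ω ω' hω hω' e
       · intro ω ω' _ _ _ _ e
         have e4 := ((blb_cnd Th).1 e).2
         have e5 : frm σ (a w) s t ω = frm σ (a w) s t ω' := (Box.mlb_ext e4).2.1
         exact Box.tfr_eq hinj e5
       · have : (w₁ : ℝ) * J ≤ (w₀ - L) * J := mul_le_mul_of_nonneg_right (by linarith only [hw₁']) hJp.le
         linarith only [hwJ1, g1', this]
       · have h1 : ((w₀ + L) + h) * (J : ℝ) ≤ w₂ * J :=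
           mul_le_mul_of_nonneg_right (by linarith only [hhL, hw₂]) hJp.le
         linarith only [hwJ2, g2', h1]
       · intro wg k1 k2 k3 k4
         have m1 := abs_le.1 (hN.lin w g1 g2)
         have m2 := mul_le_mul_of_nonneg_right (hrtg wg k3 k4) hJp.le
         have m3 : v * (wg * (J : ℝ)) ≤ v * (w + h * J) := mul_le_mul_of_nonneg_left k2 hv
         have m4 : e₂ * L * J ≤ x₁ * n * κ * (L * J) / 16 := by
           have := mul_le_mul_of_nonneg_right he₂1 hLJ.le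
           linarith only [this]
         have m5 : 16 * ((v + 2) * (h * J)) = x₁ * n * κ * (L * J) := by
           have : 16 * ((v + 2) * (h * J)) = 16 * ((v + 2) * h) * J := by ring
           rw [this, hhv]
           ring
         have m6 : rt wg * J + 2 * h * J ≤ vp w + x₁ * (n * d : ℕ) := by
           have e4 : (v₀ + v * ((wg : ℝ) - w₀) + 3 / 2 * e₂ * L) * J =
             v₀ * J + v * (wg * J) - v * (w₀ * J) + 3 / 2 * (e₂ * L * J) := by ring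
           rw [e4] at m2
           have hh1 : 0 ≤ x₁ * n * κ * (L * J) := by positivity
           linarith only [hxX1, m1, m2, m3, m4, m5, m1.1]
         exact by
          have m7 := hvm w g1 g2
          have m8 := hN.hh
          have m9 := hroom.u
          have m10 := hroom.n
          refine ⟨m6, by linarith only [hxX1, hDv, m1, m2, m3, m4, m5, m7], by linarith only [hLJ, hxX1, hxX2, m1, m2, m3, m4, m5, m7, m8], by linarith only [hLJ, hxX1, hxX2, m1, m2, m3, m4, m5, m7, m9], by linarith only [hLJ, hxX1, hxX2, m1, m2, m3, m4, m5, m7, m8, m10]⟩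
     exact by
      have fW : ∀ w q X', wa ≤ w → w ≤ wb → qa ≤ q → q + X' ≤ qb + n * d → 0 < X' → X' ≤ n * d →
          d ∣ X' → ∀ E : F.Ω → Prop, ϖ ≤ Pe (Pool.Agent.H49.Ent.cond F.p A True) E →
          X' * Real.log 2 - δ * (n * d : ℕ) ≤
          CH (Pool.Agent.H49.Ent.cond (Pool.Agent.H49.Ent.cond F.p A True) E True)
            (Uni.dg X' (fun ω => F.mx w (cv (vp w) kap q) (frm σ (a w) s t) ω 0))
            (fun ω => ((F.cnd Th).blb w (cv (vp w) kap q) (frm σ (a w) s t) ω, F.T ω)) := by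
        intro w q X' g1 g2 g3 g4 g5 g6 g7 E hE
        obtain ⟨e1, e2, e3⟩ := hev E hE
        have hA'0 : 0 < Pe F.p (fun ω => A ω ∧ E ω) := lt_of_lt_of_le (by positivity) e3
        have hl := isLaw_cond F.isLaw hA'0
        rw [e1]
        obtain ⟨hη1, hr1, hr2, r1, r2, r3, r4, hwq⟩ := hroom' w q X' g1 g2 g3 g4 g6
        have k1 := gW _ e2 e3 σ wl wa wb vp kap Hu HN al nu k b a s t' (hU'.sub e2) hσ w q X'
          g1 g2 hr1 hr2 ⟨r1, r2, r3, r4⟩ hwq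
        have k2 := CH_row_code (Th := Th) hl hinj (show w ≤ J by omega) (htc w q) ht2 (a := a w)
          (s := s) X'
        exact by
         refine le_trans ?_ k2
         refine le_trans ?_ (sub_le_sub_right k1 _)
         rw [← hl15]
         exact by
          have h1 : η * J * u ≤ η * J * 1 := mul_le_mul_of_nonneg_left hu1 (by positivity)
          linarith only [j5, hη1, h1]
      exact by
       have fA : ∀ w q X', wa ≤ w → w ≤ wb → qa ≤ q → q + X' ≤ qb + n * d → 0 < X' → X' ≤ n * d →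
           d ∣ X' → ∀ E : F.Ω → Prop, ϖ ≤ Pe (Pool.Agent.H49.Ent.cond F.p A True) E →
           α / 2 * X' * Real.log 2 ≤
           CH (Pool.Agent.H49.Ent.cond (Pool.Agent.H49.Ent.cond F.p A True) E True)
             (Uni.dg X' (fun ω => F.md (cv (vp w) kap q) (frm σ (a w) s t) ω 0))
             ((F.cnd Th).blb w (cv (vp w) kap q) (frm σ (a w) s t)) := by
         intro w q X' g1 g2 g3 g4 g5 g6 g7 E hE
         obtain ⟨e1, e2, e3⟩ := hev E hE
         have hA'0 : 0 < Pe F.p (fun ω => A ω ∧ E ω) := lt_of_lt_of_le (by positivity) e3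
         have hl := isLaw_cond F.isLaw hA'0
         rw [e1]
         obtain ⟨hη1, hr1, hr2, r1, r2, r3, r4, hwq⟩ := hroom' w q X' g1 g2 g3 g4 g6
         have r1' : (vp wb : ℝ) + q + 0 ≤ Hu := by
           have : 0 ≤ η * (J : ℝ) := by positivity
           linarith only [r1, this]
         have r2' : (kap : ℝ) + q + 0 ≤ HN := by
           have : 0 ≤ η * (J : ℝ) := by positivity
           linarith only [r2, this]
         have r3' : (wb : ℝ) + vp wb + q + 0 ≤ J := by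
           have : 0 ≤ η * (J : ℝ) := by positivity
           exact by
            linarith only [r3, this]
         have r4' : (wb : ℝ) + kap + q + 0 ≤ J := by
           have : 0 ≤ η * (J : ℝ) := by positivity
           exact by
            linarith only [r4, this]
         have k1 := gA _ e2 e3 σ wl wa wb vp kap Hu HN al nu k b a s t' (hU'.sub e2) hσ w q X'
           g1 g2 hr1 hr2 ⟨r1', r2', r3', r4'⟩
         have k2 := CH_vel_code (Th := Th) hl hinj (show w ≤ J by omega) (htc w q) ht2 (a := a w)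
           (s := s) X'
         refine le_trans ?_ k2
         refine le_trans ?_ (sub_le_sub_right k1 _)
         rw [← hl15, ← hu]
         have hdX : (d : ℝ) ≤ X' := by exact_mod_cast Nat.le_of_dvd g5 g7
         have h1 : η * (J : ℝ) = cη * (L * J) := by rw [hη]; ring
         have h2 := mul_le_mul_of_nonneg_right hcη2 hLJ.le
         have h3 : α * (κ * L * J / 2) ≤ α * X' := mul_le_mul_of_nonneg_left (hd1.trans hdX) hα.le
         have h4 : 2 * (η * J) ≤ α / 4 * X' := by rw [h1]; linarith only [h2, h3]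
         exact by
          have h5 : 2 * (η * J) * u ≤ α / 4 * X' * u := mul_le_mul_of_nonneg_right h4 hu0.le
          have h6 : (ca * X' - η * J) * u = α / 2 * X' * u + α / 4 * X' * u - η * J * u := by
            rw [hca]; ring
          rw [h6]
          linarith only [j5, h5]
       exact by
        exact ⟨fT, fH, fW, fA⟩

end Pool.UST
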