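import Pool.Agent.H2.UST.Cls
import Pool.Agent.H65.S6.Wf2
import Pool.Agent.H36.S6.Act2

/-!
# The local U-step in a class: the conclusions for `v > 0`
-/

set_option autoImplicit false

namespace Pool.UST

open Finset Real
open Pool.Agent.H49.Ent Pool.Agent.H32.Dense Pool.STK Pool.KA Pool.KSAT Pool.K2S Pool.PB
  Pool.S6U Pool.S6C

/-- **(UH)** -/
theorem uh_thm : UhStmt := uh_cls wf2_thm act2_thm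

/-- **(UE)** in a class, `v > 0`. -/
theorem ue_thm : UeStmt {v | 0 < v} := by
  intro ε ρ α hε hρ hα
  obtain ⟨x₁, ϖ, δ, ε₁, γ, n, d₀, hx₁, hϖ, hϖ1, hδ, hε₁, hγ, hγ1, hn, hd₀, hue⟩ :=
    ue_out ε (α / 2) ρ hε (by positivity) hρ
  refine ⟨n, γ, x₁, hn, hγ, hγ1, hx₁, fun v hv M cw hM hcw => ?_⟩
  have hv : 0 < v := hv
  obtain ⟨κ₀, hκ₀, h1⟩ := uh_thm x₁ ϖ δ ε₁ γ α n d₀ hx₁ hϖ hδ hε₁ hγ hα hn v M cw hv.le hM hcw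
  refine ⟨κ₀, hκ₀, fun κ hκ hκκ => ?_⟩
  obtain ⟨e₂, he₂, h2⟩ := h1 κ hκ hκκ
  refine ⟨e₂, he₂, fun S a₁ R i₀ rt act w₀ v₀ q₀ a₀ b1 b2 b3 b4 b5 b6 b7 b8 b9 b10 b11 b12 => ?_⟩
  obtain ⟨L₀, hL₀, h3⟩ := h2 S a₁ R i₀ rt act w₀ v₀ q₀ a₀ b1 b2 b3 b4 b5 b6 b7 b8 b9 b10 b11 b12
  refine ⟨L₀, hL₀, fun L B C hL hLL => Clp.mono (J₂ := 0) (h3 L B C hL hLL) ?_⟩
  intro J _ F A hc σ wl wa wb vp kap Hu HN al nu k b a s t hU hσ qa qb d D hN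
  obtain ⟨hA0, hD, hd, hs, hT⟩ := hc σ wl wa wb vp kap Hu HN al nu k b a s t hU hσ qa qb d D hN
  obtain ⟨tt, hs⟩ := hs hv
  have hR := hU.rc hA0 hD
  have hl := isLaw_cond F.isLaw hA0
  refine ⟨?_, fun K Th hTh => ?_⟩
  · exact hue F _ σ wa wb vp D a s t _ kap d tt qa qb hR hd hs
      (Uh_unit hl.nonneg (hT Unit (fun _ => ()) (SLb.unit F A wl)))
  · exact hue (F.cnd Th) _ σ wa wb vp D a s t _ kap d tt qa qb (Rc_cnd hR Th) hd hs (hT K Th hTh)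

/-- **(US)** in a class, `v > 0`. -/
theorem us_thm : UsStmt {v | 0 < v} := by
  intro ε α hε hα
  obtain ⟨x₁, ϖ, δ, ε₁, γ, n, d₀, hx₁, hϖ, hϖ1, hδ, hε₁, hγ, hγ1, hn, hd₀, hue⟩ :=
    ue_sum ε (α / 2) hε (by positivity)
  refine ⟨n, γ, x₁, hn, hγ, hγ1, hx₁, fun v hv M cw hM hcw => ?_⟩
  have hv : 0 < v := hv
  obtain ⟨κ₀, hκ₀, h1⟩ := uh_thm x₁ ϖ δ ε₁ γ α n d₀ hx₁ hϖ hδ hε₁ hγ hα hn v M cw hv.le hM hcw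
  refine ⟨κ₀, hκ₀, fun κ hκ hκκ => ?_⟩
  obtain ⟨e₂, he₂, h2⟩ := h1 κ hκ hκκ
  refine ⟨e₂, he₂, fun S a₁ R i₀ rt act w₀ v₀ q₀ a₀ b1 b2 b3 b4 b5 b6 b7 b8 b9 b10 b11 b12 => ?_⟩
  obtain ⟨L₀, hL₀, h3⟩ := h2 S a₁ R i₀ rt act w₀ v₀ q₀ a₀ b1 b2 b3 b4 b5 b6 b7 b8 b9 b10 b11 b12
  refine ⟨L₀, hL₀, fun L B C hL hLL => Clp.mono (J₂ := 0) (h3 L B C hL hLL) ?_⟩
  intro J _ F A hc σ wl wa wb vp kap Hu HN al nu k b a s t hU hσ qa qb d D hN N hNN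
  obtain ⟨hA0, hD, hd, hs, hT⟩ := hc σ wl wa wb vp kap Hu HN al nu k b a s t hU hσ qa qb d D hN
  obtain ⟨tt, hs⟩ := hs hv
  have hR := hU.rc hA0 hD
  have hl := isLaw_cond F.isLaw hA0
  refine ⟨?_, fun K Th hTh => ?_⟩
  · exact hue F _ σ wa wb vp D a s t _ kap d tt qa qb N hR hd hs
      (Uh_unit hl.nonneg (hT Unit (fun _ => ()) (SLb.unit F A wl))) hNN
  · exact hue (F.cnd Th) _ σ wa wb vp D a s t _ kap d tt qa qb N (Rc_cnd hR Th) hd hs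
      (hT K Th hTh) hNN

end Pool.UST

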