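import Pool.Agent.H82.KSP.ENTJ
import Pool.Agent.H97.OC.OCDT

/-!
# Mutual information and full rows on large events
-/

set_option autoImplicit false

namespace Pool.UST

open Finset Real
open Pool.Agent.H49.Ent Pool.Agent.H32.Dense Pool.STK Pool.KA Pool.K2S

variable {Ω S T U V : Type} [Fintype Ω] {p : Ω → ℝ}

/-- The loss of entropy of `X` by `Y`, given `Z`. -/
noncomputable def dl (p : Ω → ℝ) (X : Ω → S) (Y : Ω → T) (Z : Ω → U) : ℝ :=
  CH p X Z - CH p X (fun ω => (Y ω, Z ω))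

theorem dl_nonneg (hp : ∀ ω, 0 ≤ p ω) (X : Ω → S) (Y : Ω → T) (Z : Ω → U) : 0 ≤ dl p X Y Z := by
  have := CH_mono_cond hp (X := X) (W' := fun ω => (Y ω, Z ω)) (W := Z)
    (fun ω ω' _ _ h => (Prod.ext_iff.mp h).2)
  unfold dl
  linarith

theorem dl_symm (hp : ∀ ω, 0 ≤ p ω) (X : Ω → S) (Y : Ω → T) (Z : Ω → U) :
    dl p X Y Z = dl p Y X Z := by
  have h1 := CH_chain hp X Y Z
  have h2 := CH_chain hp Y X Z
  have h3 : CH p (fun ω => (X ω, Y ω)) Z = CH p (fun ω => (Y ω, X ω)) Z :=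
    CH_congr hp (fun _ _ _ _ h => by
        have := Prod.ext_iff.mp (Prod.ext_iff.mp h).1
        exact Prod.ext this.2 this.1)
      (fun _ _ _ _ h => by
        have := Prod.ext_iff.mp (Prod.ext_iff.mp h).1
        exact Prod.ext this.2 this.1) (fun _ _ _ _ h => h) (fun _ _ _ _ h => h)
  unfold dl
  linarith

theorem MI_eq_dl (hp : ∀ ω, 0 ≤ p ω) (X : Ω → S) (Y : Ω → T) (Z : Ω → U) :
    Pool.KVA.MI p X Y Z = dl p X Y Z := by
  have h1 := CH_chain hp X Y Z
  unfold Pool.KVA.MI dl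
  linarith

/-- Smaller variables lose less. -/
theorem dl_mono (hp : ∀ ω, 0 ≤ p ω) {X : Ω → S} {X' : Ω → V} {Y : Ω → T} {Z : Ω → U}
    (h : Det p (fun ω => (X ω, Z ω)) X') : dl p X' Y Z ≤ dl p X Y Z := by
  rw [dl_symm hp X' Y Z, dl_symm hp X Y Z]
  unfold dl
  have := CH_mono_cond hp (X := Y) (W' := fun ω => (X ω, Z ω)) (W := fun ω => (X' ω, Z ω))
    (fun ω ω' a b e => Prod.ext (h ω ω' a b e) (Prod.ext_iff.mp e).2)
  linarith

theorem dl_mono' (hp : ∀ ω, 0 ≤ p ω) {X : Ω → S} {Y : Ω → T} {Y' : Ω → V} {Z : Ω → U}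
    (h : Det p (fun ω => (Y ω, Z ω)) Y') : dl p X Y' Z ≤ dl p X Y Z := by
  rw [dl_symm hp X Y' Z, dl_symm hp X Y Z]
  exact dl_mono hp h

/-- The chain rule. -/
theorem dl_chain (hp : ∀ ω, 0 ≤ p ω) (X : Ω → S) (Y : Ω → T) (Y' : Ω → V) (Z : Ω → U) :
    dl p X (fun ω => (Y ω, Y' ω)) Z = dl p X Y' Z + dl p X Y (fun ω => (Y' ω, Z ω)) := by
  unfold dl
  have h1 : CH p X (fun ω => ((Y ω, Y' ω), Z ω)) = CH p X (fun ω => (Y ω, (Y' ω, Z ω))) :=
    CH_congr hp (fun _ _ _ _ h => (Prod.ext_iff.mp h).1) (fun _ _ _ _ h => (Prod.ext_iff.mp h).1)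
      (fun _ _ _ _ h => by
        have h1 := Prod.ext_iff.mp h
        have h2 := Prod.ext_iff.mp h1.1
        exact Prod.ext h2.1 (Prod.ext h2.2 h1.2))
      (fun _ _ _ _ h => by
        have h1 := Prod.ext_iff.mp h
        have h2 := Prod.ext_iff.mp h1.2
        exact Prod.ext (Prod.ext h1.1 h2.1) h2.2)
  rw [h1]
  ring

/-- The chain rule in the first variable. -/
theorem dl_chain' (hp : ∀ ω, 0 ≤ p ω) (X : Ω → S) (X' : Ω → V) (Y : Ω → T) (Z : Ω → U) :
    dl p (fun ω => (X ω, X' ω)) Y Z = dl p X' Y Z + dl p X Y (fun ω => (X' ω, Z ω)) := by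
  rw [dl_symm hp _ Y Z, dl_chain hp Y X X' Z, dl_symm hp Y X' Z, dl_symm hp Y X]

/-- A variable with few values more in the condition. -/
theorem CH_ev_drop (hp : IsLaw p) (X : Ω → S) (Z : Ω → U) (A : Ω → Prop) :
    CH p X Z - Real.log 2 ≤ CH p X (fun ω => (Z ω, A ω)) := by
  classical
  have h0 := hp.nonneg
  have h1 := CH_le_add h0 X A Z
  have h2 : CH p A Z ≤ Real.log 2 := by
    have h3 := CH_le_card h0 hp.sum_one A Z (fun _ => ({True, False} : Finset Prop))
      (fun v _ => by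
        by_cases h : A v
        · simp [h]
        · simp [h])
    refine h3.trans ?_
    rw [Ex_const hp.sum_one]
    have h4 : (({True, False} : Finset Prop).card : ℝ) ≤ 2 := by
      have := Finset.card_le_two (a := True) (b := False)
      exact_mod_cast this
    refine Real.log_le_log ?_ h4
    have : 0 < ({True, False} : Finset Prop).card := Finset.card_pos.2 ⟨True, by simp⟩
    exact_mod_cast this
  have h3 : CH p X (fun v => (A v, Z v)) = CH p X (fun v => (Z v, A v)) := by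
    refine CH_congr h0 (fun _ _ _ _ h => (Prod.ext_iff.mp h).1)
      (fun _ _ _ _ h => (Prod.ext_iff.mp h).1) ?_ ?_ <;>
    · intro v v' _ _ h
      have := Prod.ext_iff.mp h
      exact Prod.ext this.2 this.1
  linarith

theorem law_true (A : Ω → Prop) : law p A True = Pe p A := rfl

/-- **Mutual information on an event.** -/
theorem dl_event (hp : IsLaw p) (A : Ω → Prop) (X : Ω → S) (Y : Ω → T) (Z : Ω → U) :
    Pe p A * dl (Pool.Agent.H49.Ent.cond p A True) X Y Z ≤ dl p X Y Z + Real.log 2 := by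
  classical
  have h0 := hp.nonneg
  have h1 : CH p X (fun v => (Z v, A v)) ≤ CH p X Z :=
    CH_mono_cond h0 (fun _ _ _ _ h => (Prod.ext_iff.mp h).1)
  have h2 := CH_ev_drop hp X (fun ω => (Y ω, Z ω)) A
  rw [CH_split h0 X Z A] at h1
  rw [CH_split h0 X (fun ω => (Y ω, Z ω)) A] at h2
  have h3 : ∀ j : Prop, 0 ≤ law p A j * dl (Pool.Agent.H49.Ent.cond p A j) X Y Z := fun j =>
    mul_nonneg (law_nonneg h0 _ _) (dl_nonneg (cond_nonneg h0 _ _) _ _ _)
  have h4 : ∑ j ∈ univ.image A, law p A j * dl (Pool.Agent.H49.Ent.cond p A j) X Y Z ≤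
      dl p X Y Z + Real.log 2 := by
    have e : ∑ j ∈ univ.image A, law p A j * dl (Pool.Agent.H49.Ent.cond p A j) X Y Z =
        ∑ j ∈ univ.image A, law p A j * CH (Pool.Agent.H49.Ent.cond p A j) X Z -
        ∑ j ∈ univ.image A, law p A j * CH (Pool.Agent.H49.Ent.cond p A j) X
          (fun ω => (Y ω, Z ω)) := by
      rw [← Finset.sum_sub_distrib]
      refine Finset.sum_congr rfl fun j _ => ?_
      unfold dl
      ring
    rw [e]
    unfold dl
    linarith
  refine le_trans ?_ h4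
  rw [← law_true]
  by_cases hm : True ∈ univ.image A
  · exact Finset.single_le_sum (f := fun j => law p A j *
      dl (Pool.Agent.H49.Ent.cond p A j) X Y Z) (fun j _ => h3 j) hm
  · rw [law_eq_zero_of_notMem p A hm, zero_mul]
    exact Finset.sum_nonneg fun j _ => h3 j

/-- The law conditioned on an event. -/
theorem isLaw_ev (hp : IsLaw p) {A : Ω → Prop} (hA : 0 < Pe p A) :
    IsLaw (Pool.Agent.H49.Ent.cond p A True) :=
  ⟨cond_nonneg hp.nonneg A True, sum_cond p A hA.ne'⟩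

/-- **Full rows on an event.** `cap` bounds the entropy under every law on the positive points. -/
theorem full_event (hp : IsLaw p) (A : Ω → Prop) (X : Ω → S) (Z : Ω → U) {cap δ : ℝ}
    (hcap : ∀ q : Ω → ℝ, IsLaw q → (∀ ω, 0 < q ω → 0 < p ω) → CH q X Z ≤ cap)
    (h : cap - δ ≤ CH p X Z) :
    Pe p A * cap - δ - Real.log 2 ≤ Pe p A * CH (Pool.Agent.H49.Ent.cond p A True) X Z := by
  classical
  have h1 := Pool.KS3.CH_ev_ge hp A X Z cap (by
    intro hne
    refine hcap _ ⟨cond_nonneg hp.nonneg A False, sum_cond p A hne⟩ fun ω hω => ?_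
    exact ((cond_pos_iff hp.nonneg A False ω).1 hω).1)
  rw [law_true] at h1
  linarith

end Pool.UST
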