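import Pool.Agent.H75.S6C.Ufr
import Pool.Agent.H2.UST.Cls

/-!
# The levels of the slope labels on a fine mesh of windows
-/

set_option autoImplicit false

namespace Pool.UST

open Finset Real
open Pool.Agent.H49.Ent Pool.Agent.H32.Dense Pool.STK Pool.KA Pool.KSAT Pool.K2S Pool.PB
  Pool.S6C

/-- The floor of a number which is not very negative. -/
theorem floor_abs {z m : ℝ} (hm : 0 ≤ m) (h : -m ≤ z) : |(⌊z⌋₊ : ℝ) - z| ≤ 1 + m := by
  rcases le_total 0 z with h0 | h0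
  · have h1 := Nat.floor_le h0
    have h2 := Nat.lt_floor_add_one z
    rw [abs_le]
    constructor <;> linarith
  · rw [Nat.floor_of_nonpos h0]
    push_cast
    rw [abs_le]
    constructor <;> linarith

/-- **The levels are linear**: there is a fine rational mesh around `w₀` such that the levels
`rot (u i) - e` of the slope labels are linear up to `e₂ L J`. -/
theorem vp_lin {rt : ℚ → ℝ} {w₀ v₀ v : ℝ} (hrt : ∀ w : ℚ, 0 ≤ w → w ≤ 1 → 0 ≤ rt w)
    (hw0 : 0 < w₀) (hw1 : w₀ < 1) (hv : 0 ≤ v) (hs : Pool.Sel51.Slp rt w₀ v₀ v) {e₂ : ℝ}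
    (he₂ : 0 < e₂) : ∃ L₁ : ℝ, 0 < L₁ ∧ ∀ L : ℝ, 0 < L → L ≤ L₁ → ∃ (N : ℕ) (u : ℕ → ℚ),
      0 ≤ u 0 ∧ (∀ i < N, u i ≤ u (i + 1)) ∧ u N ≤ 1 ∧ w₀ - 2 * L < u 0 ∧ (u 0 : ℝ) < w₀ - L ∧
      w₀ + L < u N ∧ (u N : ℝ) < w₀ + 2 * L ∧
      ∀ e : ℝ, 0 < e → e ≤ e₂ * L / 8 → ∃ J₀ : ℕ, ∀ J ≥ J₀, ∀ w : ℕ, (w₀ - L) * J ≤ w →
        (w : ℝ) ≤ (w₀ + L) * J → ⌊(u 0 : ℝ) * J⌋₊ ≤ w ∧ w ≤ ⌊(u N : ℝ) * J⌋₊ ∧
        |((⌊(rt (u (mix u N J w)) - e) * J⌋₊ : ℕ) : ℝ) - (v₀ * J + v * (w - w₀ * J))| ≤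
          e₂ * L * J := by
  obtain ⟨δ₁, hδ₁, hs1⟩ := hs (e₂ / 16) (by positivity)
  obtain ⟨L₁, hL₁⟩ : ∃ L₁, L₁ = min (δ₁ / 4) (min (w₀ / 4) ((1 - w₀) / 4)) := ⟨_, rfl⟩
  refine ⟨L₁, by
    rw [hL₁]
    exact lt_min (by positivity) (lt_min (by positivity) (by linarith only [hw1])), fun L hL hLL => ?_⟩
  have l1 : L ≤ δ₁ / 4 := hLL.trans (by rw [hL₁]; exact min_le_left _ _)
  have l2 : L ≤ w₀ / 4 := hLL.trans (by rw [hL₁]; exact (min_le_right _ _).trans (min_le_left _ _))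
  have l3 : L ≤ (1 - w₀) / 4 :=
    hLL.trans (by rw [hL₁]; exact (min_le_right _ _).trans (min_le_right _ _))
  obtain ⟨x, hx1, hx2⟩ := rat_btw (show w₀ - 2 * L < w₀ - L by linarith only [hL])
  obtain ⟨y, hy1, hy2⟩ := rat_btw (show w₀ + L < w₀ + 2 * L by linarith)
  obtain ⟨N, hN⟩ := exists_nat_gt (16 * (v + 1) / e₂)
  have hN0 : (0 : ℝ) < N := lt_of_le_of_lt (by positivity) hN
  have hN0q : (0 : ℚ) < N := by exact_mod_cast hN0
  have hxy : x ≤ y := by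
    have : (x : ℝ) ≤ y := by linarith only [hx1, hx2, hy1]
    exact_mod_cast this
  obtain ⟨u, hu⟩ : ∃ u : ℕ → ℚ, u = fun i : ℕ => x + (i : ℚ) * ((y - x) / N) := ⟨_, rfl⟩
  have hu0 : u 0 = x := by rw [hu]; simp
  have huN : u N = y := by
    rw [hu]
    simp only
    field_simp
    ring
  have hum : ∀ i, u i ≤ u (i + 1) := by
    intro i
    rw [hu]
    simp only
    have h1 : (0 : ℚ) ≤ (y - x) / N := div_nonneg (by linarith only [hxy]) hN0q.le
    push_cast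
    nlinarith only [h1]
  have hstep : ∀ i, ((u (i + 1) : ℚ) : ℝ) - u i ≤ e₂ * L / (4 * (v + 1)) := by
    intro i
    rw [hu]
    push_cast
    have e1 : (x : ℝ) + ((i : ℝ) + 1) * (((y : ℝ) - x) / N) - (x + i * (((y : ℝ) - x) / N)) =
        ((y : ℝ) - x) / N := by ring
    rw [e1, div_le_div_iff₀ hN0 (by positivity)]
    rw [div_lt_iff₀ he₂] at hN
    have h1 : ((y : ℝ) - x) * (4 * (v + 1)) ≤ 4 * L * (4 * (v + 1)) :=
      mul_le_mul_of_nonneg_right (by linarith only [hx1, hy2]) (by positivity)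
    have h2 : 16 * (v + 1) * L ≤ N * e₂ * L := mul_le_mul_of_nonneg_right hN.le hL.le
    linarith only [h1, h2]
  refine ⟨N, u, ?_, fun i _ => hum i, ?_, ?_, ?_, ?_, ?_, ?_⟩
  · rw [hu0]
    have : (0 : ℝ) ≤ x := by linarith only [l2, hx1, hx2]
    exact_mod_cast this
  · rw [huN]
    have : (y : ℝ) ≤ 1 := by linarith only [l3, hx1, hx2, hy2]
    exact_mod_cast this
  · rw [hu0]; exact hx1
  · rw [hu0]; exact hx2
  · rw [huN]; exact hy1
  · rw [huN]; exact hy2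
  intro e he hee
  obtain ⟨J₀, hJ₀⟩ := exists_nat_gt (16 * (v + 1) / (e₂ * L) + 2 / ((w₀ - L) - x) +
    2 / (y - (w₀ + L)) + 1)
  refine ⟨J₀, fun J hJ w hw1' hw2' => ?_⟩
  have hd1 : 0 < (w₀ - L) - (x : ℝ) := by linarith only [hx2]
  have hd2 : 0 < (y : ℝ) - (w₀ + L) := by linarith only [hy1]
  have hJr : 16 * (v + 1) / (e₂ * L) + 2 / ((w₀ - L) - x) + 2 / (y - (w₀ + L)) + 1 < J :=
    hJ₀.trans_le (by exact_mod_cast hJ)
  have p1 : 0 < 16 * (v + 1) / (e₂ * L) := by positivity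
  have p2 : 0 < 2 / ((w₀ - L) - (x : ℝ)) := by positivity
  have p3 : 0 < 2 / ((y : ℝ) - (w₀ + L)) := by positivity
  have hJp : (0 : ℝ) < J := by linarith only [l2, l3, hx1, hx2, hJr, p1, p2, p3]
  have j1 : 16 * (v + 1) ≤ e₂ * L * J := by
    have : 16 * (v + 1) / (e₂ * L) ≤ J := by linarith only [l2, l3, hx1, hx2, hJr, p2, p3]
    rw [div_le_iff₀ (by positivity)] at this
    linarith only [this]
  have j2 : 2 ≤ ((w₀ - L) - (x : ℝ)) * J := by
    have : 2 / ((w₀ - L) - (x : ℝ)) ≤ J := by linarith only [l2, l3, hx1, hx2, hJr, p1, p3]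
    rw [div_le_iff₀ hd1] at this
    linarith only [this]
  have j3 : 2 ≤ ((y : ℝ) - (w₀ + L)) * J := by
    have : 2 / ((y : ℝ) - (w₀ + L)) ≤ J := by linarith only [l2, l3, hx1, hx2, hJr, p1, p2]
    rw [div_le_iff₀ hd2] at this
    linarith only [this]
  have hx0 : (0 : ℝ) ≤ x := by linarith only [l2, hx1, hx2]
  have hfl0 : ⌊(u 0 : ℝ) * J⌋₊ ≤ w := by
    rw [hu0]
    have h1 : (⌊(x : ℝ) * J⌋₊ : ℝ) ≤ x * J := Nat.floor_le (by positivity)
    have : (⌊(x : ℝ) * J⌋₊ : ℝ) ≤ w := by linarith only [l2, l3, hx1, hx2, hw1', j2, h1]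
    exact_mod_cast this
  have hflN : w + 1 ≤ ⌊(u N : ℝ) * J⌋₊ := by
    rw [huN]
    refine Nat.le_floor ?_
    push_cast
    linarith only [l2, l3, hx1, hx2, hw2', j3]
  refine ⟨hfl0, by omega, ?_⟩
  obtain ⟨i, hi⟩ : ∃ i, i = mix u N J w := ⟨_, rfl⟩
  rw [← hi]
  have hiN : i ≤ N := by rw [hi]; exact mix_le u N J w
  have hi1 : ⌊(u i : ℝ) * J⌋₊ ≤ w := by rw [hi]; exact mix_spec u N J w hfl0
  have hiN' : i < N := by
    rcases Nat.lt_or_ge i N with h | h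
    · exact h
    · have : i = N := by omega
      rw [this] at hi1
      omega
  have hi2 : w < ⌊(u (i + 1) : ℝ) * J⌋₊ := by
    by_contra hcon
    push Not at hcon
    have := mix_max u N J w (i + 1) (by omega) hcon
    omega
  have hux : ∀ j, j ≤ N → (x : ℝ) ≤ u j ∧ (u j : ℝ) ≤ y := by
    intro j hj
    have h1 := mono_chain (u := u) (N := N) (fun i _ => hum i) (Nat.zero_le j) hj
    have h2 := mono_chain (u := u) (N := N) (fun i _ => hum i) hj le_rfl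
    rw [hu0] at h1
    rw [huN] at h2
    exact ⟨by exact_mod_cast h1, by exact_mod_cast h2⟩
  obtain ⟨a1, a2⟩ := hux i hiN
  have hui0 : (0 : ℚ) ≤ u i := by
    have : (0 : ℝ) ≤ u i := by linarith only [l2, hx1, hx2, a1]
    exact_mod_cast this
  have hui1 : u i ≤ 1 := by
    have : (u i : ℝ) ≤ 1 := by linarith only [l3, hx1, hx2, hy2, a2]
    exact_mod_cast this
  have b1 : (u i : ℝ) * J < w + 1 := by
    have := Nat.lt_floor_add_one ((u i : ℝ) * J)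
    have h2 : (⌊(u i : ℝ) * J⌋₊ : ℝ) ≤ w := by exact_mod_cast hi1
    linarith only [this, h2]
  have b2 : (w : ℝ) ≤ u (i + 1) * J := by
    have h1 : 0 ≤ (u (i + 1) : ℝ) * J := by
      have := (hux (i + 1) (by omega)).1
      exact mul_nonneg (by linarith only [l2, hx1, hx2, this]) hJp.le
    have h2 := Nat.floor_le h1
    have h3 : (w : ℝ) < ⌊(u (i + 1) : ℝ) * J⌋₊ := by exact_mod_cast hi2
    linarith only [h2, h3]
  have b3 : (w : ℝ) - u i * J ≤ e₂ * L / (4 * (v + 1)) * J := by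
    have h1 : ((u (i + 1) : ℝ) - u i) * J ≤ e₂ * L / (4 * (v + 1)) * J :=
      mul_le_mul_of_nonneg_right (hstep i) hJp.le
    linarith only [b2, h1]
  have b4 : v * (e₂ * L / (4 * (v + 1)) * J) ≤ e₂ * L * J / 4 := by
    have h1 : v * (e₂ * L / (4 * (v + 1)) * J) = v / (v + 1) * (e₂ * L * J / 4) := by
      field_simp
    rw [h1]
    have h2 : v / (v + 1) ≤ 1 := by
      rw [div_le_one (by positivity)]
      linarith only [l2, l3, hx1, hx2]
    have h3 : 0 ≤ e₂ * L * J / 4 := by positivity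
    nlinarith only [h2, hv, l2, l3, hx1, hx2, j1]
  have b5 : v * ((w : ℝ) - u i * J) ≤ e₂ * L * J / 4 := (mul_le_mul_of_nonneg_left b3 hv).trans b4
  have b6 : -(e₂ * L * J / 16) ≤ v * ((w : ℝ) - u i * J) := by
    have h1 : v * (-1) ≤ v * ((w : ℝ) - u i * J) := mul_le_mul_of_nonneg_left (by linarith only [b1]) hv
    linarith only [l2, l3, hx1, hx2, j1, h1]
  -- the slope
  have c0 : |(u i : ℝ) - w₀| ≤ 2 * L := by
    rw [abs_le]
    constructor <;> linarith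
  have c1 := abs_le.1 (hs1 (u i) (lt_of_le_of_lt c0 (by linarith only [l1, hx1, hx2])))
  have c2 : e₂ / 16 * |(u i : ℝ) - w₀| ≤ e₂ / 16 * (2 * L) :=
    mul_le_mul_of_nonneg_left c0 (by positivity)
  have c3 : rt (u i) - v₀ - v * ((u i : ℝ) - w₀) ≤ e₂ * L / 8 := by linarith only [c1, c2, c1.2]
  have c4 : -(e₂ * L / 8) ≤ rt (u i) - v₀ - v * ((u i : ℝ) - w₀) := by linarith only [c1, c2, c1.1]
  have c5 := mul_le_mul_of_nonneg_right c3 hJp.le
  have c6 := mul_le_mul_of_nonneg_right c4 hJp.le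
  have hrt0 := hrt (u i) hui0 hui1
  have c7 : 0 ≤ rt (u i) * J := mul_nonneg hrt0 hJp.le
  have c8 : e * J ≤ e₂ * L / 8 * J := mul_le_mul_of_nonneg_right hee hJp.le
  have c9 : 0 ≤ e * J := by positivity
  have fl := floor_abs (z := (rt (u i) - e) * J) (m := e * J) c9 (by
    have : (rt (u i) - e) * J = rt (u i) * J - e * J := by ring
    rw [this]
    linarith only [c7])
  obtain ⟨fz, hfz⟩ : ∃ fz : ℝ, fz = ((⌊(rt (u i) - e) * J⌋₊ : ℕ) : ℝ) := ⟨_, rfl⟩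
  rw [← hfz] at fl ⊢
  rw [abs_le] at fl ⊢
  have e1 : (rt (u i) - e) * J = rt (u i) * J - e * J := by ring
  have e2 : (rt (u i) - v₀ - v * ((u i : ℝ) - w₀)) * J =
      rt (u i) * J - v₀ * J - v * (u i * J) + v * (w₀ * J) := by ring
  have e3 : v * ((w : ℝ) - w₀ * J) = v * ((w : ℝ) - u i * J) + v * (u i * J) - v * (w₀ * J) := by
    ring
  rw [e2] at c5 c6
  rw [e1] at fl
  rw [e3]
  have e4 : e₂ * L / 8 * J = e₂ * L * J / 8 := by ring
  have e5 : -(e₂ * L / 8) * J = -(e₂ * L * J / 8) := by ring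
  rw [e4] at c5 c8
  rw [e5] at c6
  constructor <;> linarith [fl.1, fl.2]

end Pool.UST
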