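import Pool.Agent.H2.UST.Row2
import Pool.Agent.H2.UST.Lin

/-!
# Row A: the frames in a zone of windows

`row_frames`: the frames of the U-step in the zone `|w - w₀ J| ≤ L J`, from helper77's `PkL`, `NSt`,
`OwnS` with a plank of the windows `wv`, outside an event of exponentially small proportion, with
linear levels.
-/

set_option autoImplicit false

namespace Pool.UST

open Finset Real
open Pool.Agent.H49.Ent Pool.Agent.H32.Dense Pool.STK Pool.KA Pool.KSAT Pool.K2S Pool.PB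
  Pool.S6C Pool.KS6 Pool.S6V

/-- The data of the frames of row A on the part `G` of `A`. -/
structure RowF {J : ℕ} (F : Fam 3 J) (A G : F.Ω → Prop) (ς : Fin 3 → Fin 3) (wl wa wb : ℕ)
    (vp : ℕ → ℕ) (kap Hu HN : ℕ) (al' nu kk b : (Fin 3 → ℤ) × (ℕ × F.ζ) → ℝ) (a : ℕ → F.Ω → ℝ)
    (s t : F.Ω → ℝ) {Λ : Type} (κ κ' : F.Ω → Λ) (pl : Λ → Pln) (al : F.Ω → ℝ) (C ε : ℝ) :
    Prop where
  sub : Sub G A
  prob : Pe F.p (fun ω => A ω ∧ ¬ G ω) ≤ ε * Pe F.p A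
  fr : UFr F G ς wl wa wb vp kap Hu HN al' nu kk b a s t (C + 4) C
  al : ∀ ω, A ω → al ω = al' (Fam.pt F ω)
  lb : ∀ ω, A ω → κ ω = κ' ω
  side : SLb F A wl κ'
  s_eq : ∀ ω, s ω = -(pl (κ' ω)).s
  t_eq : ∀ ω, t ω = -(pl (κ' ω)).c

/-- **The frames of row A** in a zone of windows. -/
theorem row_frames {S : PCl 3} {a₁ R h₁ : ℝ} {i₀ : Fin 3} {c s₂ : ℝ} {r : ℝ → ℝ} {D : Set ℝ}
    {σ : ℝ → Row} (hC : Cs S a₁ R h₁ i₀ c s₂ r D σ) (hpi : 0 < (σ 1).pi) {w₀ v₀ v : ℝ}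
    (hw0 : 0 < w₀) (hw1 : w₀ < 1) (hv : 0 ≤ v) (hs : Pool.Sel51.Slp (σ 1).rot w₀ v₀ v) {e₂ : ℝ}
    (he₂ : 0 < e₂) : ∃ L₁ : ℝ, 0 < L₁ ∧ ∀ L : ℝ, 0 < L → L ≤ L₁ → ∃ k₀ : ℝ, 0 < k₀ ∧
      ∀ k : ℝ, 0 < k → k ≤ k₀ → ∀ wv : ℚ, 0 ≤ wv → (wv : ℝ) ≤ w₀ - 2 * L → ∀ C : ℝ, 1 ≤ C →
      ∃ τ > 0, Clp S (fun J F A => ∀ ς : Fin 3 → Fin 3, Function.Injective ς → ς 0 = i₀ →
        ∀ (Λ : Type) (κ : F.Ω → Λ) (pl : Λ → Pln) (al : F.Ω → ℝ) (lam P kap HN : ℕ),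
        PkL F A ς ⌊(wv : ℝ) * J⌋₊ lam P C κ pl → NSt F A ς kap HN C κ pl →
        OwnS F A ς ⌊((σ 1).pi - k) * J⌋₊ C al →
        ∃ (G : F.Ω → Prop) (wa wb : ℕ) (vp : ℕ → ℕ)
          (al' nu kk b : (Fin 3 → ℤ) × (ℕ × F.ζ) → ℝ) (a : ℕ → F.Ω → ℝ) (s t : F.Ω → ℝ)
          (κ' : F.Ω → Λ),
          RowF F A G ς ⌊(wv : ℝ) * J⌋₊ wa wb vp kap ⌊((σ 1).pi - k) * J⌋₊ HN al' nu kk b a s t
            κ κ' pl al C (Real.exp (-(τ * J))) ∧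
          ∀ w : ℕ, (w₀ - L) * J ≤ w → (w : ℝ) ≤ (w₀ + L) * J → wa ≤ w ∧ w ≤ wb ∧
            |(vp w : ℝ) - (v₀ * J + v * (w - w₀ * J))| ≤ e₂ * L * J) := by
  have hR1 := hC.row 1 one_pos le_rfl hC.D1
  have hrt : ∀ w : ℚ, 0 ≤ w → w ≤ 1 → 0 ≤ (σ 1).rot w := fun w h0 h1 =>
    num_nonneg hC.ne (hR1.rot w h0 h1)
  obtain ⟨L₁, hL₁, hlin⟩ := vp_lin hrt hw0 hw1 hv hs he₂
  refine ⟨L₁, hL₁, fun L hL hLL => ?_⟩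
  obtain ⟨N, u, hu0, hum, hu1, hx1, hx2, hy1, hy2, hlin'⟩ := hlin L hL hLL
  obtain ⟨e, he⟩ : ∃ e, e = min (e₂ * L / 8) (σ 1).pi := ⟨_, rfl⟩
  have he0 : 0 < e := by rw [he]; exact lt_min (by positivity) hpi
  have he1 : e ≤ e₂ * L / 8 := by rw [he]; exact min_le_left _ _
  have he2 : e ≤ (σ 1).pi := by rw [he]; exact min_le_right _ _
  obtain ⟨J₀, hJ₀⟩ := hlin' e he0 he1
  refine ⟨e / 4, by positivity, fun k hk hkk wv hwv hwv' C hC1 => ?_⟩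
  obtain ⟨τ, hτ, hcl⟩ := ufr_of hC he0 he2 N u hu0 hum hu1 (C + 4) C
  refine ⟨τ, hτ, Clp.mono (J₂ := J₀) hcl ?_⟩
  intro J hJ F A hA ς hς hς0 Λ κ pl al lam P kap HN h1 h2 h3
  have hJ0 : (0 : ℝ) ≤ J := Nat.cast_nonneg J
  obtain ⟨al', nu, kk, b, κ', s, t, g1, g2, g3, g4, g5, g6⟩ := uf0_row hς hC1 h1 h2 h3
  obtain ⟨G, vp, a, f1, f2, f3, f4⟩ := hA ς ⌊(wv : ℝ) * J⌋₊ kap ⌊((σ 1).pi - k) * J⌋₊ HN al' nu kk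
    b s t g1 hς0 (Nat.floor_le_floor (mul_le_mul_of_nonneg_right (by linarith) hJ0)) (by
      have k1 := Nat.lt_floor_add_one (((σ 1).pi - k) * (J : ℝ))
      have k2 : ((σ 1).pi - e / 4) * (J : ℝ) ≤ ((σ 1).pi - k) * J :=
        mul_le_mul_of_nonneg_right (by linarith) hJ0
      linarith)
  refine ⟨G, _, _, vp, al', nu, kk, b, a, s, t, κ', ⟨f1, f2, f3, g2, g3, g4, g5, g6⟩, ?_⟩
  intro w hw hw'
  obtain ⟨q1, q2, q3⟩ := hJ₀ J hJ w hw hw'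
  refine ⟨q1, q2, ?_⟩
  rw [f4 w]
  exact q3

end Pool.UST

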