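import Pool.Agent.H2.UST.Frames
import Pool.Agent.H42.S6C.Row

/-!
# Row A: the levels of the frames are below the natural levels
-/

set_option autoImplicit false

namespace Pool.UST

open Finset Real
open Pool.Agent.H49.Ent Pool.Agent.H32.Dense Pool.STK Pool.KA Pool.KSAT Pool.K2S Pool.PB
  Pool.S6C Pool.KS6 Pool.S6V

/-- The floors of two different rationals are different for large `J`. -/
theorem floor_le_rat {x y : ℚ} (hx : 0 ≤ x) : ∃ J₀ : ℕ, ∀ J ≥ J₀,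
    ⌊(y : ℝ) * J⌋₊ ≤ ⌊(x : ℝ) * J⌋₊ → y ≤ x := by
  rcases le_or_gt y x with h | h
  · exact ⟨0, fun _ _ _ => h⟩
  have hxr : (0 : ℝ) ≤ x := by exact_mod_cast hx
  have hr : (0 : ℝ) < (y : ℝ) - x := by
    have : (x : ℝ) < y := by exact_mod_cast h
    linarith
  obtain ⟨J₀, hJ₀⟩ := exists_nat_ge (1 / ((y : ℝ) - x))
  refine ⟨J₀, fun J hJ h1 => ?_⟩
  exfalso
  have h2 : 1 / ((y : ℝ) - x) ≤ J := hJ₀.trans (by exact_mod_cast hJ)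
  rw [div_le_iff₀ hr] at h2
  have h3 : (⌊(x : ℝ) * J⌋₊ : ℝ) ≤ x * J := Nat.floor_le (mul_nonneg hxr (Nat.cast_nonneg J))
  have h4 : ⌊(x : ℝ) * J⌋₊ + 1 ≤ ⌊(y : ℝ) * J⌋₊ := by
    refine Nat.le_floor ?_
    push_cast
    linarith
  omega

theorem floor_le_rats (N : ℕ) (u : ℕ → ℚ) (X : Finset ℚ) (hX : ∀ x ∈ X, 0 ≤ x) :
    ∃ J₀ : ℕ, ∀ J ≥ J₀, ∀ i ≤ N, ∀ x ∈ X, ⌊(u i : ℝ) * J⌋₊ ≤ ⌊(x : ℝ) * J⌋₊ → u i ≤ x := by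
  classical
  have h : ∀ z : ℕ × ℚ, ∃ J₀ : ℕ, ∀ J ≥ J₀, z.2 ∈ X →
      ⌊(u z.1 : ℝ) * J⌋₊ ≤ ⌊(z.2 : ℝ) * J⌋₊ → u z.1 ≤ z.2 := by
    intro z
    by_cases hz : z.2 ∈ X
    · obtain ⟨J₀, hJ₀⟩ := floor_le_rat (x := z.2) (y := u z.1) (hX _ hz)
      exact ⟨J₀, fun J hJ _ => hJ₀ J hJ⟩
    · exact ⟨0, fun _ _ h => absurd h hz⟩
  choose f hf using h
  refine ⟨(Finset.range (N + 1) ×ˢ X).sup f, fun J hJ i hi x hx => ?_⟩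
  refine hf (i, x) J (le_trans (Finset.le_sup (f := f) ?_) hJ) hx
  rw [Finset.mem_product]
  exact ⟨Finset.mem_range.2 (by omega), hx⟩

/-- **The frames of row A** in a zone of windows, with levels below the natural levels at the
windows of `X`. -/
theorem row_frames2 {S : PCl 3} {a₁ R h₁ : ℝ} {i₀ : Fin 3} {c s₂ : ℝ} {r : ℝ → ℝ} {D : Set ℝ}
    {σ : ℝ → Row} (hC : Cs S a₁ R h₁ i₀ c s₂ r D σ) (hpi : 0 < (σ 1).pi) {w₀ v₀ v : ℝ}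
    (hw0 : 0 < w₀) (hw1 : w₀ < 1) (hv : 0 ≤ v) (hs : Pool.Sel51.Slp (σ 1).rot w₀ v₀ v) {e₂ : ℝ}
    (he₂ : 0 < e₂) : ∃ L₁ : ℝ, 0 < L₁ ∧ ∀ L : ℝ, 0 < L → L ≤ L₁ → ∃ k₀ : ℝ, 0 < k₀ ∧
      ∀ k : ℝ, 0 < k → k ≤ k₀ → ∀ wv : ℚ, 0 ≤ wv → (wv : ℝ) ≤ w₀ - 2 * L →
      ∀ X : Finset ℚ, (∀ x ∈ X, 0 ≤ x ∧ x ≤ 1) → ∀ C : ℝ, 1 ≤ C →
      ∃ τ > 0, Clp S (fun J F A => ∀ ς : Fin 3 → Fin 3, Function.Injective ς → ς 0 = i₀ →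
        ∀ (Λ : Type) (κ : F.Ω → Λ) (pl : Λ → Pln) (al : F.Ω → ℝ) (lam P kap HN : ℕ),
        PkL F A ς ⌊(wv : ℝ) * J⌋₊ lam P C κ pl → NSt F A ς kap HN C κ pl →
        OwnS F A ς ⌊((σ 1).pi - k) * J⌋₊ C al →
        ∃ (G : F.Ω → Prop) (wa wb : ℕ) (vp : ℕ → ℕ)
          (al' nu kk b : (Fin 3 → ℤ) × (ℕ × F.ζ) → ℝ) (a : ℕ → F.Ω → ℝ) (s t : F.Ω → ℝ)
          (κ' : F.Ω → Λ),
          RowF F A G ς ⌊(wv : ℝ) * J⌋₊ wa wb vp kap ⌊((σ 1).pi - k) * J⌋₊ HN al' nu kk b a s t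
            κ κ' pl al C (Real.exp (-(τ * J))) ∧
          (∀ w : ℕ, (w₀ - L) * J ≤ w → (w : ℝ) ≤ (w₀ + L) * J → wa ≤ w ∧ w ≤ wb ∧
            |(vp w : ℝ) - (v₀ * J + v * (w - w₀ * J))| ≤ e₂ * L * J) ∧
          ∀ x ∈ X, wa ≤ ⌊(x : ℝ) * J⌋₊ →
            vp ⌊(x : ℝ) * J⌋₊ ≤ ⌊((σ 1).rot x - k) * J⌋₊) := by
  have hR1 := hC.row 1 one_pos le_rfl hC.D1
  have hrt : ∀ w : ℚ, 0 ≤ w → w ≤ 1 → 0 ≤ (σ 1).rot w := fun w h0 h1 =>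
    num_nonneg hC.ne (hR1.rot w h0 h1)
  obtain ⟨L₁, hL₁, hlin⟩ := vp_lin hrt hw0 hw1 hv hs he₂
  refine ⟨L₁, hL₁, fun L hL hLL => ?_⟩
  obtain ⟨N, u, hu0, hum, hu1, hx1, hx2, hy1, hy2, hlin'⟩ := hlin L hL hLL
  obtain ⟨e, he⟩ : ∃ e, e = min (e₂ * L / 8) (σ 1).pi := ⟨_, rfl⟩
  have he0 : 0 < e := by rw [he]; exact lt_min (by positivity) hpi
  have he1 : e ≤ e₂ * L / 8 := by rw [he]; exact min_le_left _ _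
  have he2 : e ≤ (σ 1).pi := by rw [he]; exact min_le_right _ _
  obtain ⟨J₀, hJ₀⟩ := hlin' e he0 he1
  refine ⟨e / 4, by positivity, fun k hk hkk wv hwv hwv' X hX C hC1 => ?_⟩
  obtain ⟨J₁, hJ₁⟩ := floor_le_rats N u X (fun x hx => (hX x hx).1)
  obtain ⟨τ, hτ, hcl⟩ := ufr_of hC he0 he2 N u hu0 hum hu1 (C + 4) C
  refine ⟨τ, hτ, Clp.mono (J₂ := max J₀ J₁) hcl ?_⟩
  intro J hJ F A hA ς hς hς0 Λ κ pl al lam P kap HN h1 h2 h3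
  have hJ0 : (0 : ℝ) ≤ J := Nat.cast_nonneg J
  obtain ⟨al', nu, kk, b, κ', s, t, g1, g2, g3, g4, g5, g6⟩ := uf0_row hς hC1 h1 h2 h3
  obtain ⟨G, vp, a, f1, f2, f3, f4⟩ := hA ς ⌊(wv : ℝ) * J⌋₊ kap ⌊((σ 1).pi - k) * J⌋₊ HN al' nu kk
    b s t g1 hς0 (Nat.floor_le_floor (mul_le_mul_of_nonneg_right (by linarith) hJ0)) (by
      have k1 := Nat.lt_floor_add_one (((σ 1).pi - k) * (J : ℝ))
      have k2 : ((σ 1).pi - e / 4) * (J : ℝ) ≤ ((σ 1).pi - k) * J :=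
        mul_le_mul_of_nonneg_right (by linarith) hJ0
      linarith)
  refine ⟨G, _, _, vp, al', nu, kk, b, a, s, t, κ', ⟨f1, f2, f3, g2, g3, g4, g5, g6⟩, ?_, ?_⟩
  · intro w hw hw'
    obtain ⟨q1, q2, q3⟩ := hJ₀ J ((le_max_left _ _).trans hJ) w hw hw'
    refine ⟨q1, q2, ?_⟩
    rw [f4 w]
    exact q3
  · intro x hx hxa
    rw [f4]
    have k1 := mix_spec u N J ⌊(x : ℝ) * J⌋₊ hxa
    have k2 := mix_le u N J ⌊(x : ℝ) * J⌋₊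
    have k3 := hJ₁ J ((le_max_right _ _).trans hJ) _ k2 x hx k1
    have k4 : 0 ≤ u (mix u N J ⌊(x : ℝ) * J⌋₊) :=
      hu0.trans (mono_chain (u := u) (N := N) (fun i hi => hum i hi) (Nat.zero_le _) k2)
    have k5 := hR1.rot_mono hC.ne k4 k3 (hX x hx).2
    refine Nat.floor_le_floor (mul_le_mul_of_nonneg_right ?_ hJ0)
    linarith

end Pool.UST
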