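import Pool.Agent.H2.UST.Stm
import Pool.Agent.H80.S6C.Num

/-!
# (H6) in a class: the slopes of two samples of a context are not close
-/

set_option autoImplicit false

namespace Pool.UST

open Finset Real
open Pool.Agent.H49.Ent Pool.Agent.H32.Dense Pool.STK Pool.KA Pool.KSAT Pool.K2S Pool.PB
  Pool.S6U Pool.S6C

/-- The law of two copies depends only on the values on the support. -/
theorem dbl_congr {Ω V V' : Type} [Fintype Ω] {q : Ω → ℝ} (hq : ∀ ω, 0 ≤ q ω) {f : Ω → V}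
    {g : Ω → V'} (h : ∀ ω ω', 0 < q ω → 0 < q ω' → (f ω = f ω' ↔ g ω = g ω')) :
    dbl q f = dbl q g := by
  classical
  have hl : ∀ ω, 0 < q ω → law q f (f ω) = law q g (g ω) := by
    intro ω hω
    unfold law
    refine Finset.sum_congr rfl fun v _ => ?_
    by_cases hv : q v = 0
    · rw [hv]
      split_ifs <;> rfl
    · have hv' : 0 < q v := lt_of_le_of_ne (hq v) (Ne.symm hv)
      by_cases e : f v = f ω
      · rw [if_pos e, if_pos ((h v ω hv' hω).1 e)]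
      · rw [if_neg e, if_neg fun e' => e ((h v ω hv' hω).2 e')]
  funext x
  unfold dbl glue
  by_cases h1 : q x.1 = 0
  · rw [h1]
    simp
  by_cases h2 : q x.2 = 0
  · rw [h2]
    simp
  have p1 : 0 < q x.1 := lt_of_le_of_ne (hq _) (Ne.symm h1)
  have p2 : 0 < q x.2 := lt_of_le_of_ne (hq _) (Ne.symm h2)
  by_cases e : f x.1 = f x.2
  · rw [if_pos e, if_pos ((h _ _ p1 p2).1 e), hl _ p1]
  · rw [if_neg e, if_neg fun e' => e ((h _ _ p1 p2).2 e')]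

/-- A function of `u` on the support is a function of `u` everywhere, up to a change outside the
support. -/
theorem exists_fn_supp {Ω U V : Type} {q : Ω → ℝ} {u : Ω → U} {f : Ω → V}
    (h : ∀ ω ω', 0 < q ω → 0 < q ω' → u ω = u ω' → f ω = f ω') (ω₀ : Ω) :
    ∃ φ : U → V, ∀ ω, 0 < q ω → f ω = φ (u ω) := by
  classical
  refine ⟨fun x => if hx : ∃ ω, 0 < q ω ∧ u ω = x then f hx.choose else f ω₀, fun ω hω => ?_⟩
  have hx : ∃ ω', 0 < q ω' ∧ u ω' = u ω := ⟨ω, hω, rfl⟩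
  simp only [dif_pos hx]
  exact h ω hx.choose hω hx.choose_spec.1 hx.choose_spec.2.symm

section one

variable {J : ℕ} {F : Fam 3 J} {A : F.Ω → Prop} {σ : Fin 3 → Fin 3} {wl wa wb : ℕ}
    {vp : ℕ → ℕ} {kap Hu HN : ℕ} {al nu k b : (Fin 3 → ℤ) × (ℕ × F.ζ) → ℝ} {a : ℕ → F.Ω → ℝ}
    {s t : F.Ω → ℝ} {B C : ℝ}

/-- **(H6)** in a context, one family. -/
theorem UFr.h6 (h : UFr F A σ wl wa wb vp kap Hu HN al nu k b a s t B C) {κ r y : ℝ} {wg w D : ℕ}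
    (hA : 0 < Pe F.p A) (hs : Stb F.p κ A (RotU (σ 0) r r (Fam.pt F) (slam F wg) F.d))
    (hn : ¬ RotU (σ 0) r r (Fam.pt F) (slam F wg) F.d A) (hw1 : wa ≤ w) (hw2 : w ≤ wb)
    (hwg : w ≤ wg) (hgJ : wg ≤ J) (h1 : B / 2 ^ Hu ≤ r) (h2 : B / 2 ^ HN + B * (B / 2 ^ Hu) ≤ r)
    (h3 : B * (y / 2 ^ vp w + 2 / 2 ^ D) + 2 * (C / 2 ^ kap) ≤ r) (hr : 0 ≤ r)
    (hy : 0 ≤ y) {V : Type} {wn : F.Ω → V} (hwn : Det F.p (slam F w) wn)
    (hfr : ∀ ω ω', A ω → A ω' → 0 < F.p ω → 0 < F.p ω' → wn ω = wn ω' →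
      a w ω = a w ω' ∧ s ω = s ω' ∧ t ω = t ω') :
    Pool.KAF.Pr (dbl (Pool.Agent.H49.Ent.cond F.p A True) wn)
      {v | |sl (vp w) D (a w) (fun ω => al (Fam.pt F ω)) v.1 -
        sl (vp w) D (a w) (fun ω => al (Fam.pt F ω)) v.2| < y} ≤ Real.exp (-κ) := by
  classical
  have hp := F.isLaw
  have hl := isLaw_cond hp hA
  have h0 := hl.nonneg
  obtain ⟨q, hq⟩ : ∃ q, q = Pool.Agent.H49.Ent.cond F.p A True := ⟨_, rfl⟩
  rw [← hq] at hl h0 ⊢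
  have hqA : ∀ ω, 0 < q ω → A ω ∧ 0 < F.p ω := by
    intro ω hω
    rw [hq] at hω
    have := (cond_pos_iff hp.nonneg A True ω).1 hω
    exact ⟨by simpa using this.2, this.1⟩
  obtain ⟨ρ, hρ⟩ : ∃ ρ, ρ = y / 2 ^ vp w + 2 / 2 ^ D := ⟨_, rfl⟩
  have hρ0 : 0 ≤ ρ := by rw [hρ]; positivity
  rw [← hρ] at h3
  have hB := h.B1
  have hC := h.C1
  have hρr : ρ ≤ r := by
    have e1 : ρ ≤ B * ρ := by nlinarith only [hρ0, hB]
    have e2 : 0 ≤ 2 * (C / 2 ^ kap) := by positivity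
    linarith only [h3, e1, e2]
  -- the label is a function of the window `wg`
  have hdet : Det F.p (slam F wg) wn := by
    intro ω ω' hω hω' e
    have e2 : slam F w ω = slam F w ω' := by
      rw [slam_coarse F hwg hgJ ω, slam_coarse F hwg hgJ ω', e]
    exact hwn ω ω' hω hω' e2
  obtain ⟨ω₀, hω₀⟩ : ∃ ω₀ : F.Ω, True := by
    by_contra hcon
    push Not at hcon
    have : Pe F.p A = 0 := by
      rw [Pe_eq]
      refine Finset.sum_eq_zero fun ω _ => ?_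
      exact ((hcon ω).elim)
    linarith only [hA, this]
  obtain ⟨φ, hφ⟩ := exists_fn_supp (q := F.p) hdet ω₀
  -- the label on the support
  have hcpy : dbl q wn = cpy q (fun ω => φ (slam F wg ω)) := by
    rw [show cpy q (fun ω => φ (slam F wg ω)) = dbl q (fun ω => φ (slam F wg ω)) from rfl]
    refine dbl_congr h0 fun ω ω' hω hω' => ?_
    rw [hφ ω (hqA ω hω).2, hφ ω' (hqA ω' hω').2]
  have key := h.cpy_lt hA hs hn h1 h2 h3 hρr hr (wn := fun ω => φ (slam F wg ω)) (φ := φ)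
    (fun _ => rfl) (by
      intro ω ω' hAω hAω' hω hω' e
      have e1 : wn ω = wn ω' := by
        rw [hφ ω hω, hφ ω' hω']
        exact e
      exact (hfr ω ω' hAω hAω' hω hω' e1).2)
  refine le_trans ?_ key.le
  rw [hcpy, ← hq]
  unfold Pool.KAF.Pr
  have hnn : ∀ v, 0 ≤ cpy q (fun ω => φ (slam F wg ω)) v := by
    intro v
    unfold cpy
    split_ifs
    · exact div_nonneg (mul_nonneg (h0 _) (h0 _)) (law_nonneg h0 _ _)
    · exact le_rfl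
  change Pe _ _ ≤ _
  rw [Pe_eq, Pe_eq]
  refine Finset.sum_le_sum fun v _ => ?_
  by_cases hv : cpy q (fun ω => φ (slam F wg ω)) v = 0
  · rw [hv]
    simp
  by_cases hcl : v ∈ {v : F.Ω × F.Ω | |sl (vp w) D (a w) (fun ω => al (Fam.pt F ω)) v.1 -
        sl (vp w) D (a w) (fun ω => al (Fam.pt F ω)) v.2| < y}
  swap
  · rw [if_neg hcl]
    split_ifs
    · exact hnn v
    · exact le_rfl
  rw [if_pos hcl, if_pos]
  have hcl' : |sl (vp w) D (a w) (fun ω => al (Fam.pt F ω)) v.1 -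
        sl (vp w) D (a w) (fun ω => al (Fam.pt F ω)) v.2| < y := hcl
  have hvv : φ (slam F wg v.1) = φ (slam F wg v.2) ∧ 0 < q v.1 ∧ 0 < q v.2 := by
    unfold cpy at hv
    by_cases hw : φ (slam F wg v.1) = φ (slam F wg v.2)
    · rw [if_pos hw] at hv
      refine ⟨hw, lt_of_le_of_ne (h0 _) fun e => hv ?_, lt_of_le_of_ne (h0 _) fun e => hv ?_⟩
      · rw [← e]
        simp
      · rw [← e]
        simp
    · rw [if_neg hw] at hv
      exact absurd rfl hv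
  obtain ⟨hw, hp1, hp2⟩ := hvv
  have e1 : wn v.1 = wn v.2 := by
    rw [hφ v.1 (hqA _ hp1).2, hφ v.2 (hqA _ hp2).2]
    exact hw
  have e3 : a w v.1 = a w v.2 :=
    (hfr _ _ (hqA _ hp1).1 (hqA _ hp2).1 (hqA _ hp1).2 (hqA _ hp2).2 e1).1
  have n1 := dg_near D (fun ω => al (Fam.pt F ω)) v.1
  have n2 := dg_near D (fun ω => al (Fam.pt F ω)) v.2
  obtain ⟨g1, hg1⟩ : ∃ g : ℝ, g = (Uni.dg D (fun ω => al (Fam.pt F ω)) v.1 : ℝ) / 2 ^ D := ⟨_, rfl⟩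
  obtain ⟨g2, hg2⟩ : ∃ g : ℝ, g = (Uni.dg D (fun ω => al (Fam.pt F ω)) v.2 : ℝ) / 2 ^ D := ⟨_, rfl⟩
  unfold sl at hcl'
  rw [← hg1, ← hg2, e3] at hcl'
  rw [← hg1] at n1
  rw [← hg2] at n2
  have e4 : (2 : ℝ) ^ vp w * (g1 - a w v.2) - 2 ^ vp w * (g2 - a w v.2) =
      2 ^ vp w * (g1 - g2) := by ring
  rw [e4, abs_mul, abs_of_pos (by positivity : (0 : ℝ) < 2 ^ vp w)] at hcl'
  have e5 : |g1 - g2| ≤ y / 2 ^ vp w := by
    rw [le_div_iff₀ (by positivity)]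
    linarith only [hcl']
  have e6 : (2 : ℝ) / 2 ^ D = 1 / 2 ^ D + 1 / 2 ^ D := by ring
  rw [hρ, e6]
  rw [abs_le] at n1 n2 e5 ⊢
  constructor <;> linarith only [n1, n2, e5, n1.1, n1.2, n2.1, n2.2, e5.1, e5.2]

end one

/-- Powers of two: a constant is small against `2 ^ (h J)`. -/
theorem big_pow {K h : ℝ} (hh : 0 < h) : ∃ J₀ : ℕ, ∀ J ≥ J₀, K ≤ (2 : ℝ) ^ (h * (J : ℝ)) := by
  obtain ⟨J₀, hJ₀⟩ := exists_nat_ge (K / (h * Real.log 2))
  refine ⟨J₀, fun J hJ => ?_⟩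
  have hl2 : 0 < Real.log 2 := Real.log_pos (by norm_num)
  have h1 : K / (h * Real.log 2) ≤ J := hJ₀.trans (by exact_mod_cast hJ)
  rw [div_le_iff₀ (by positivity)] at h1
  have h2 : (2 : ℝ) ^ (h * (J : ℝ)) = Real.exp (h * J * Real.log 2) := by
    rw [Real.rpow_def_of_pos (by norm_num)]
    congr 1
    ring
  rw [h2]
  have h3 := Real.add_one_le_exp (h * J * Real.log 2)
  nlinarith only [h1, h3]

/-- A constant divided by a large power of two. -/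
theorem div_pow_le {K g : ℝ} {n J : ℕ} {s h : ℝ} (hs : 0 ≤ s * (J : ℝ))
    (hJ : K / g ≤ (2 : ℝ) ^ (h * (J : ℝ)))
    (hg : 0 < g) (hn : s * J + h * J ≤ n) : K / 2 ^ n ≤ g / 2 ^ ⌊s * J⌋₊ := by
  have h1 : (⌊s * (J : ℝ)⌋₊ : ℝ) ≤ s * J := Nat.floor_le hs
  have h2 : (2 : ℝ) ^ (h * (J : ℝ)) * 2 ^ ⌊s * (J : ℝ)⌋₊ ≤ 2 ^ n := by
    rw [← Real.rpow_natCast 2 n, ← Real.rpow_natCast 2 ⌊s * (J : ℝ)⌋₊,
      ← Real.rpow_add (by norm_num)]
    exact Real.rpow_le_rpow_of_exponent_le (by norm_num) (by linarith only [hn, h1])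
  rw [div_le_div_iff₀ (by positivity) (by positivity)]
  rw [div_le_iff₀ hg] at hJ
  calc K * 2 ^ ⌊s * (J : ℝ)⌋₊ ≤ (2 : ℝ) ^ (h * (J : ℝ)) * g * 2 ^ ⌊s * (J : ℝ)⌋₊ :=
        mul_le_mul_of_nonneg_right hJ (by positivity)
    _ = g * ((2 : ℝ) ^ (h * (J : ℝ)) * 2 ^ ⌊s * (J : ℝ)⌋₊) := by ring
    _ ≤ g * 2 ^ n := mul_le_mul_of_nonneg_left h2 hg.le

/-- The same with a real exponent. -/
theorem div_rpow_le {K g z : ℝ} {J : ℕ} {s h : ℝ} (hs : 0 ≤ s * (J : ℝ))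
    (hJ : K / g ≤ (2 : ℝ) ^ (h * (J : ℝ)))
    (hg : 0 < g) (hn : s * J + h * J ≤ z) : K * 2 ^ (-z) ≤ g / 2 ^ ⌊s * J⌋₊ := by
  have h1 : (⌊s * (J : ℝ)⌋₊ : ℝ) ≤ s * J := Nat.floor_le hs
  have h2 : (2 : ℝ) ^ (h * (J : ℝ)) * 2 ^ ⌊s * (J : ℝ)⌋₊ ≤ 2 ^ z := by
    rw [← Real.rpow_natCast 2 ⌊s * (J : ℝ)⌋₊, ← Real.rpow_add (by norm_num)]
    exact Real.rpow_le_rpow_of_exponent_le (by norm_num) (by linarith only [hn, h1])
  rw [Real.rpow_neg (by norm_num), ← div_eq_mul_inv, div_le_div_iff₀ (by positivity) (by positivity)]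
  rw [div_le_iff₀ hg] at hJ
  calc K * 2 ^ ⌊s * (J : ℝ)⌋₊ ≤ (2 : ℝ) ^ (h * (J : ℝ)) * g * 2 ^ ⌊s * (J : ℝ)⌋₊ :=
        mul_le_mul_of_nonneg_right hJ (by positivity)
    _ = g * ((2 : ℝ) ^ (h * (J : ℝ)) * 2 ^ ⌊s * (J : ℝ)⌋₊) := by ring
    _ ≤ g * 2 ^ z := mul_le_mul_of_nonneg_left h2 hg.le

/-- **(H6)** at one rational window `wg` and the contexts of the windows just before it. -/
theorem h62_one {S : PCl 3} {a₁ R : ℝ} {i₀ : Fin 3} {rt : ℝ}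
    (hSt : ∀ (τ : ℝ) (J : ℕ) (F : Fam 3 J) (A : F.Ω → Prop), S.St τ J F A → Fam.Stt F a₁ R τ A)
    {wg : ℚ} (hw1 : wg ≤ 1) (hrt : PNum S (capS 1 (qRot i₀ 1 wg)) rt)
    {h ε : ℝ} (hh : 0 < h) (hε : 0 < ε) (hr0 : 0 ≤ rt) (hr1 : rt + h ≤ 1) (B C : ℝ) :
    Clp S (fun J F A => ∀ (σ : Fin 3 → Fin 3) (wl wa wb : ℕ) (vp : ℕ → ℕ) (kap Hu HN : ℕ)
      (al nu k b : (Fin 3 → ℤ) × (ℕ × F.ζ) → ℝ) (a : ℕ → F.Ω → ℝ) (s t : F.Ω → ℝ),
      UFr F A σ wl wa wb vp kap Hu HN al nu k b a s t B C → σ 0 = i₀ →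
      ∀ (w D : ℕ) (V : Type) (wn : F.Ω → V) (x : ℝ), wa ≤ w → w ≤ wb →
        Det F.p (slam F w) wn →
        (∀ ω ω', A ω → A ω' → 0 < F.p ω → 0 < F.p ω' → wn ω = wn ω' →
          a w ω = a w ω' ∧ s ω = s ω' ∧ t ω = t ω') → (w : ℝ) ≤ wg * J →
        rt * J + 2 * h * J ≤ vp w + x → rt * J + 2 * h * J ≤ D →
        rt * J + 2 * h * J ≤ kap → rt * J + 2 * h * J ≤ Hu → rt * J + 2 * h * J ≤ HN →
      Pool.KAF.Pr (dbl (Pool.Agent.H49.Ent.cond F.p A True) wn)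
        {v | |sl (vp w) D (a w) (fun ω => al (Fam.pt F ω)) v.1 -
          sl (vp w) D (a w) (fun ω => al (Fam.pt F ω)) v.2| < (2 : ℝ) ^ (-x)} ≤ ε) := by
  -- the stable list
  have h1 : Clp S (fun J F A => ¬ qRot i₀ 1 wg (rt + h) J F A →
      ∀ (σ : Fin 3 → Fin 3) (wl wa wb : ℕ) (vp : ℕ → ℕ) (kap Hu HN : ℕ)
      (al nu k b : (Fin 3 → ℤ) × (ℕ × F.ζ) → ℝ) (a : ℕ → F.Ω → ℝ) (s t : F.Ω → ℝ),
      UFr F A σ wl wa wb vp kap Hu HN al nu k b a s t B C → σ 0 = i₀ →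
      ∀ (w D : ℕ) (V : Type) (wn : F.Ω → V) (x : ℝ), wa ≤ w → w ≤ wb →
        Det F.p (slam F w) wn →
        (∀ ω ω', A ω → A ω' → 0 < F.p ω → 0 < F.p ω' → wn ω = wn ω' →
          a w ω = a w ω' ∧ s ω = s ω' ∧ t ω = t ω') → (w : ℝ) ≤ wg * J →
        rt * J + 2 * h * J ≤ vp w + x → rt * J + 2 * h * J ≤ D →
        rt * J + 2 * h * J ≤ kap → rt * J + 2 * h * J ≤ Hu → rt * J + 2 * h * J ≤ HN →
      Pool.KAF.Pr (dbl (Pool.Agent.H49.Ent.cond F.p A True) wn)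
        {v | |sl (vp w) D (a w) (fun ω => al (Fam.pt F ω)) v.1 -
          sl (vp w) D (a w) (fun ω => al (Fam.pt F ω)) v.2| < (2 : ℝ) ^ (-x)} ≤ ε) := by
    refine Clp.one ⟨1, fun J F _ => qRot i₀ 1 wg (rt + h) J F,
      fun J F _ => qRot.hered i₀ 1 wg (rt + h) J F⟩ fun κ hκ => ?_
    obtain ⟨J₁, hJ₁⟩ := big_pow (K := max ((B + B * B + 3 * B + 3 * C) * 8) 1) hh
    obtain ⟨J₂, hJ₂⟩ := exists_nat_ge (-Real.log ε / κ)
    refine ⟨1, one_pos, max J₁ J₂, fun J hJ F A hS hSb hnR σ wl wa wb vp kap Hu HN al nu k b a s t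
      hU hσ w D V wn x hwa hwb hwn hfr hwg e1 e2 e3 e4 e5 => ?_⟩
    have hJ1 := hJ₁ J ((le_max_left _ _).trans hJ)
    have hBp := hU.B1
    have hCp := hU.C1
    obtain ⟨K, hK⟩ : ∃ K, K = (B + B * B + 3 * B + 3 * C) * 8 := ⟨_, rfl⟩
    have hK1 : K ≤ (2 : ℝ) ^ (h * (J : ℝ)) := by
      rw [hK]
      exact (le_max_left _ _).trans hJ1
    have hBB : 0 ≤ B * B := by positivity
    have k1 : B / (1 / 2) ≤ (2 : ℝ) ^ (h * (J : ℝ)) := by
      have e : B / (1 / 2) = 2 * B := by ring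
      rw [e]
      linarith only [hBp, hCp, hK, hK1, hBB]
    have k2 : B * B / (1 / 2) ≤ (2 : ℝ) ^ (h * (J : ℝ)) := by
      have e : B * B / (1 / 2) = 2 * (B * B) := by ring
      rw [e]
      linarith only [hBp, hCp, hK, hK1, hBB]
    have k3 : B / (1 / 4) ≤ (2 : ℝ) ^ (h * (J : ℝ)) := by
      have e : B / (1 / 4) = 4 * B := by ring
      rw [e]
      linarith only [hBp, hCp, hK, hK1, hBB]
    have k4 : 2 * B / (1 / 4) ≤ (2 : ℝ) ^ (h * (J : ℝ)) := by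
      have e : 2 * B / (1 / 4) = 8 * B := by ring
      rw [e]
      linarith only [hBp, hCp, hK, hK1, hBB]
    have k5 : 2 * C / (1 / 2) ≤ (2 : ℝ) ^ (h * (J : ℝ)) := by
      have e : 2 * C / (1 / 2) = 4 * C := by ring
      rw [e]
      linarith only [hBp, hCp, hK, hK1, hBB]
    have hJ0 : (0 : ℝ) ≤ J := Nat.cast_nonneg J
    have hs0 : 0 ≤ (rt + h) * (J : ℝ) := by positivity
    have hA0 : 0 < Pe F.p A := lt_of_lt_of_le (Real.exp_pos _) (hSt 1 J F A hS).2.2.2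
    have hs := hSb 0
    change Stb F.p (κ * J) A (qRot i₀ 1 wg (rt + h) J F) at hs
    have hpt : Pool.KS6.ptq F ⌊(1 : ℝ) * J⌋₊ = Fam.pt F := by
      funext ω
      simp only [one_mul, Nat.floor_natCast]
      rfl
    have hQ : qRot i₀ 1 wg (rt + h) J F = RotU (σ 0) (1 / 2 ^ ⌊(rt + h) * J⌋₊)
        (1 / 2 ^ ⌊(rt + h) * J⌋₊) (Fam.pt F) (slam F ⌊(wg : ℝ) * J⌋₊) F.d := by
      funext A'
      unfold qRot
      rw [hpt, hσ]
    rw [hQ] at hs hnR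
    have hwg' : w ≤ ⌊(wg : ℝ) * J⌋₊ := Nat.le_floor hwg
    have hgJ : ⌊(wg : ℝ) * J⌋₊ ≤ J := by
      have h2 : (wg : ℝ) * J ≤ J := by
        have : (wg : ℝ) ≤ 1 := by exact_mod_cast hw1
        nlinarith only [this]
      calc ⌊(wg : ℝ) * J⌋₊ ≤ ⌊(J : ℝ)⌋₊ := Nat.floor_le_floor h2
        _ = J := Nat.floor_natCast J
    have hεκ : Real.exp (-(κ * J)) ≤ ε := by
      have h2 : -Real.log ε / κ ≤ J := hJ₂.trans (by exact_mod_cast (le_max_right _ _).trans hJ)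
      rw [div_le_iff₀ hκ] at h2
      calc Real.exp (-(κ * J)) ≤ Real.exp (Real.log ε) := Real.exp_le_exp.2 (by linarith only [h2])
        _ = ε := Real.exp_log hε
    refine (hU.h6 hA0 hs hnR hwa hwb hwg' hgJ ?_ ?_ ?_ (by positivity) (by positivity) hwn
      hfr).trans hεκ
    · have g2 := div_pow_le (K := B) (g := 1 / 2) (n := Hu) hs0 k1 (by norm_num) (by linarith only [e4])
      refine g2.trans (div_le_div_of_nonneg_right (by norm_num) (by positivity))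
    · have g2 := div_pow_le (K := B) (g := 1 / 2) (n := HN) hs0 k1 (by norm_num) (by linarith only [e5])
      have g3 := div_pow_le (K := B * B) (g := 1 / 2) (n := Hu) hs0 k2 (by norm_num)
        (by linarith only [e4])
      have e6 : B * (B / 2 ^ Hu) = B * B / 2 ^ Hu := by ring
      have e7 : (1 : ℝ) / 2 ^ ⌊(rt + h) * J⌋₊ = 1 / 2 / 2 ^ ⌊(rt + h) * J⌋₊ +
        1 / 2 / 2 ^ ⌊(rt + h) * J⌋₊ := by ring
      rw [e6, e7]
      exact add_le_add g2 g3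
    · have g2 := div_rpow_le (K := B) (g := 1 / 4) (z := vp w + x) hs0 k3 (by norm_num)
        (by linarith only [e1])
      have g3 := div_pow_le (K := 2 * B) (g := 1 / 4) (n := D) hs0 k4 (by norm_num)
        (by linarith only [e2])
      have g4 := div_pow_le (K := 2 * C) (g := 1 / 2) (n := kap) hs0 k5 (by norm_num)
        (by linarith only [e3])
      have e6 : B * ((2 : ℝ) ^ (-x) / 2 ^ vp w + 2 / 2 ^ D) + 2 * (C / 2 ^ kap) =
          B * 2 ^ (-((vp w : ℝ) + x)) + 2 * B / 2 ^ D + 2 * C / 2 ^ kap := by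
        have : (2 : ℝ) ^ (-((vp w : ℝ) + x)) = 2 ^ (-x) / 2 ^ vp w := by
          rw [neg_add, Real.rpow_add (by norm_num), Real.rpow_neg (by norm_num) (vp w : ℝ),
            Real.rpow_natCast]
          field_simp
        rw [this]
        ring
      have e7 : (1 : ℝ) / 2 ^ ⌊(rt + h) * J⌋₊ = 1 / 4 / 2 ^ ⌊(rt + h) * J⌋₊ +
        1 / 4 / 2 ^ ⌊(rt + h) * J⌋₊ + 1 / 2 / 2 ^ ⌊(rt + h) * J⌋₊ := by ring
      rw [e6, e7]
      exact add_le_add (add_le_add g2 g3) g4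
  refine Clp.mono (J₂ := 0) (h1.and (hrt.2 h hh)) ?_
  rintro J - F A ⟨c1, c2⟩
  refine c1 fun hq => c2 ?_
  exact Or.inr ⟨hr1, hq⟩

/-- **(H62)** -/
theorem h62 : H62Stmt := by
  intro S a₁ R i₀ rt hSt hrt w₁ w₂ h ε hw₁ h12 hw₂ hh hε hr B C
  -- the mesh
  obtain ⟨N, hN⟩ := exists_nat_gt (((w₂ - w₁ : ℚ) : ℝ) / (h / 2))
  have hd0 : (0 : ℝ) < ((w₂ - w₁ : ℚ) : ℝ) := by exact_mod_cast sub_pos.2 h12
  have hN0 : (0 : ℝ) < N := lt_of_le_of_lt (by positivity) hN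
  have hNq : (0 : ℚ) < N := by exact_mod_cast hN0
  obtain ⟨m, hm⟩ : ∃ m : ℕ → ℚ, m = fun i : ℕ => w₁ + (i : ℚ) * ((w₂ - w₁) / N) := ⟨_, rfl⟩
  have hmr : ∀ i : ℕ, i ≤ N → w₁ ≤ m i ∧ m i ≤ w₂ := by
    intro i hi
    have hi' : (i : ℚ) ≤ N := by exact_mod_cast hi
    have hd : (0 : ℚ) < w₂ - w₁ := sub_pos.2 h12
    rw [hm]
    constructor
    · have : (0 : ℚ) ≤ i * ((w₂ - w₁) / N) := by positivity
      simp only
      linarith only [this]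
    · have : (i : ℚ) * ((w₂ - w₁) / N) ≤ N * ((w₂ - w₁) / N) :=
        mul_le_mul_of_nonneg_right hi' (by positivity)
      have e : (N : ℚ) * ((w₂ - w₁) / N) = w₂ - w₁ := by field_simp
      simp only
      linarith only [this, e]
  have key := Clp.all (S := S) (N + 1) (Φ := fun i J F A =>
      ∀ (σ : Fin 3 → Fin 3) (wl wa wb : ℕ) (vp : ℕ → ℕ) (kap Hu HN : ℕ)
      (al nu k b : (Fin 3 → ℤ) × (ℕ × F.ζ) → ℝ) (a : ℕ → F.Ω → ℝ) (s t : F.Ω → ℝ),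
      UFr F A σ wl wa wb vp kap Hu HN al nu k b a s t B C → σ 0 = i₀ →
      ∀ (w D : ℕ) (V : Type) (wn : F.Ω → V) (x : ℝ), wa ≤ w → w ≤ wb →
        Det F.p (slam F w) wn →
        (∀ ω ω', A ω → A ω' → 0 < F.p ω → 0 < F.p ω' → wn ω = wn ω' →
          a w ω = a w ω' ∧ s ω = s ω' ∧ t ω = t ω') → (w : ℝ) ≤ m i * J →
        rt (m i) * J + 2 * h * J ≤ vp w + x → rt (m i) * J + 2 * h * J ≤ D →
        rt (m i) * J + 2 * h * J ≤ kap → rt (m i) * J + 2 * h * J ≤ Hu →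
        rt (m i) * J + 2 * h * J ≤ HN →
      Pool.KAF.Pr (dbl (Pool.Agent.H49.Ent.cond F.p A True) wn)
        {v | |sl (vp w) D (a w) (fun ω => al (Fam.pt F ω)) v.1 -
          sl (vp w) D (a w) (fun ω => al (Fam.pt F ω)) v.2| < (2 : ℝ) ^ (-x)} ≤ ε) (by
    intro i hi
    obtain ⟨c1, c2⟩ := hmr i (by omega)
    obtain ⟨c3, c4⟩ := hr (m i) c1 c2
    exact h62_one hSt (c2.trans hw₂) (hrt (m i) (hw₁.trans c1) (c2.trans hw₂))
      hh hε c3 c4 B C)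
  refine Clp.mono (J₂ := 1) key ?_
  intro J hJ F A hc σ wl wa wb vp kap Hu HN al nu k b a s t hU hσ w D V wn x hwa hwb hwn hfr hw1
    hw2 hlev
  have hJ0 : (0 : ℝ) < J := by exact_mod_cast hJ
  -- the mesh point
  obtain ⟨sp, hsp⟩ : ∃ sp : ℝ, sp = ((w₂ - w₁ : ℚ) : ℝ) / N := ⟨_, rfl⟩
  have hsp0 : 0 < sp := by rw [hsp]; positivity
  have hsph : sp ≤ h / 2 := by
    rw [hsp, div_le_iff₀ hN0]
    rw [div_lt_iff₀ (by positivity)] at hN
    linarith only [hN]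
  obtain ⟨i, hi⟩ : ∃ i : ℕ, i = ⌈((w : ℝ) / J - w₁) / sp⌉₊ := ⟨_, rfl⟩
  have hx0 : 0 ≤ ((w : ℝ) / J - w₁) / sp := by
    refine div_nonneg ?_ hsp0.le
    have : (w₁ : ℝ) ≤ w / J := by
      rw [le_div_iff₀ hJ0]
      exact hw1
    linarith only [this]
  have hi1 : ((w : ℝ) / J - w₁) / sp ≤ i := by rw [hi]; exact Nat.le_ceil _
  have hi2 : (i : ℝ) < ((w : ℝ) / J - w₁) / sp + 1 := by rw [hi]; exact Nat.ceil_lt_add_one hx0
  rw [div_le_iff₀ hsp0] at hi1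
  have hi3 : (i : ℝ) * sp < (w : ℝ) / J - w₁ + sp := by
    have := mul_lt_mul_of_pos_right hi2 hsp0
    rw [add_mul, div_mul_cancel₀ _ hsp0.ne', one_mul] at this
    exact this
  have hmi : (m i : ℝ) = w₁ + i * sp := by
    rw [hm, hsp]
    push_cast
    ring
  have hwJ : (w : ℝ) = (w : ℝ) / J * J := by field_simp
  have g1 : (w : ℝ) ≤ m i * J := by
    rw [hmi]
    have h1 : (w : ℝ) / J ≤ w₁ + i * sp := by linarith only [hi1]
    calc (w : ℝ) = (w : ℝ) / J * J := hwJ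
      _ ≤ _ := mul_le_mul_of_nonneg_right h1 hJ0.le
  have g2 : m i * (J : ℝ) ≤ w + h * J := by
    rw [hmi]
    have h1 : (w₁ : ℝ) + i * sp ≤ (w : ℝ) / J + h := by linarith only [hsp0, hsph, hi3]
    calc ((w₁ : ℝ) + i * sp) * J ≤ ((w : ℝ) / J + h) * J := mul_le_mul_of_nonneg_right h1 hJ0.le
      _ = w + h * J := by rw [add_mul, ← hwJ]
  have hiN : i ≤ N := by
    by_contra hcon
    push Not at hcon
    have h3 : (N : ℝ) + 1 ≤ i := by exact_mod_cast hcon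
    have h4 : (N : ℝ) * sp = ((w₂ - w₁ : ℚ) : ℝ) := by rw [hsp]; field_simp
    have h5 : ((N : ℝ) + 1) * sp ≤ i * sp := mul_le_mul_of_nonneg_right h3 hsp0.le
    have h6 : (w : ℝ) / J + h ≤ w₂ := by
      have : (w : ℝ) / J + h ≤ (w₂ : ℝ) * J / J := by
        rw [le_div_iff₀ hJ0, add_mul, ← hwJ]
        exact hw2
      rwa [mul_div_cancel_right₀ _ hJ0.ne'] at this
    push_cast at h4
    linarith only [hsp0, hsph, hi3, h5, h6, h4]
  obtain ⟨c1, c2⟩ := hmr i hiN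
  obtain ⟨l1, l2, l3, l4, l5⟩ := hlev (m i) g1 g2 c1 c2
  exact hc i (by omega) σ wl wa wb vp kap Hu HN al nu k b a s t hU hσ w D V wn x hwa hwb hwn hfr
    g1 l1 l2 l3 l4 l5

end Pool.UST
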