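import Pool.Agent.H75.S6C.Ufr
import Pool.Agent.H75.S6C.Exh
import Pool.Agent.H36.S6.Epf
import Pool.Agent.H23.S6E.Vdf2

/-!
# The frames of the U-step from given own slopes and a given plank

`Uf0` are the frames of the U-step without the labels of the slopes: own slopes and offsets at the
exact points, a plank, the straightness in the direction of its normal. In a class the labels of the
slopes exist outside an event of exponentially small proportion (`ufr_of`).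
-/

set_option autoImplicit false

namespace Pool.UST

open Finset Real
open Pool.Agent.H49.Ent Pool.Agent.H32.Dense Pool.STK Pool.KA Pool.KSAT Pool.K2S Pool.PB
  Pool.S6C Pool.KS6

/-- **Two own slopes** at the same exact points are close outside a small event. -/
theorem slope_cmp {S : PCl 3} {a R h₁ : ℝ} {i₀ : Fin 3} {c s₂ : ℝ} {r : ℝ → ℝ} {D : Set ℝ}
    {σ : ℝ → Row} (hC : Cs S a R h₁ i₀ c s₂ r D σ) {x : ℝ} (hx : 0 < x) (hx1 : x ≤ 1 / 2)
    (hxh : x ≤ h₁) : ∃ τ > 0, ∃ J₁ : ℕ, ∀ J ≥ J₁, ∀ (F : Fam 3 J) (A : F.Ω → Prop),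
      S.St τ J F A → ∀ (j : Fin 3) (al nu al' nu' : (Fin 3 → ℤ) × (ℕ × F.ζ) → ℝ) (δ : ℝ),
      (∀ ω, A ω → |F.d ω j - al (Fam.pt F ω) * F.d ω i₀ - nu (Fam.pt F ω)| ≤ δ) →
      (∀ ω, A ω → |F.d ω j - al' (Fam.pt F ω) * F.d ω i₀ - nu' (Fam.pt F ω)| ≤ δ) →
      Pe F.p (fun ω => A ω ∧ 2 * δ * 2 ^ ⌊x * J⌋₊ < |al (Fam.pt F ω) - al' (Fam.pt F ω)|) ≤
        Real.exp (-(τ * J)) * Pe F.p A := by
  obtain ⟨τ, hτ, J₁, hnf⟩ := not_frz hC hx hx1 hxh
  refine ⟨τ / 2, by linarith only [hτ], J₁, fun J hJ F A hS j al nu al' nu' δ h1 h2 => ?_⟩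
  by_contra hcon
  push Not at hcon
  have hsub : Sub (fun ω => A ω ∧ 2 * δ * 2 ^ ⌊x * J⌋₊ <
      |al (Fam.pt F ω) - al' (Fam.pt F ω)|) A := fun ω hω => hω.1
  have hS' := S.res (τ' := τ / 2) (by linarith only [hτ]) hS hsub hcon.le
  rw [add_halves] at hS'
  refine hnf J hJ F _ hS' ⟨fun u => (nu' u.1 - nu u.1) / (al u.1 - al' u.1), fun ω hω => ?_⟩
  obtain ⟨hA, hlt⟩ := hω
  have k1 := h1 ω hA
  have k2 := h2 ω hA
  have hδ : 0 ≤ δ := (abs_nonneg _).trans k1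
  have hp : (0 : ℝ) < 2 ^ ⌊x * (J : ℝ)⌋₊ := by positivity
  have hpos : 0 < |al (Fam.pt F ω) - al' (Fam.pt F ω)| := lt_of_le_of_lt (by positivity) hlt
  have hne : al (Fam.pt F ω) - al' (Fam.pt F ω) ≠ 0 := abs_pos.1 hpos
  show |F.d ω i₀ - (nu' (Fam.pt F ω) - nu (Fam.pt F ω)) /
    (al (Fam.pt F ω) - al' (Fam.pt F ω))| ≤ 1 / 2 ^ (0 + ⌊x * (J : ℝ)⌋₊)
  rw [zero_add]
  have e1 : F.d ω i₀ - (nu' (Fam.pt F ω) - nu (Fam.pt F ω)) /
      (al (Fam.pt F ω) - al' (Fam.pt F ω)) =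
      ((F.d ω j - al' (Fam.pt F ω) * F.d ω i₀ - nu' (Fam.pt F ω)) -
        (F.d ω j - al (Fam.pt F ω) * F.d ω i₀ - nu (Fam.pt F ω))) /
        (al (Fam.pt F ω) - al' (Fam.pt F ω)) := by
    field_simp
    ring
  rw [e1, abs_div, div_le_div_iff₀ hpos hp, one_mul]
  have k3 : |(F.d ω j - al' (Fam.pt F ω) * F.d ω i₀ - nu' (Fam.pt F ω)) -
      (F.d ω j - al (Fam.pt F ω) * F.d ω i₀ - nu (Fam.pt F ω))| ≤ 2 * δ := by
    refine (abs_sub _ _).trans ?_
    linarith only [k1, k2]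
  exact (mul_le_mul_of_nonneg_right k3 hp.le).trans hlt.le

/-- The frames of the U-step without the labels of the slopes. -/
structure Uf0 {J : ℕ} (F : Fam 3 J) (A : F.Ω → Prop) (σ : Fin 3 → Fin 3) (wl : ℕ)
    (kap Hu HN : ℕ) (al nu k b : (Fin 3 → ℤ) × (ℕ × F.ζ) → ℝ) (s t : F.Ω → ℝ) (B C : ℝ) :
    Prop where
  bij : Function.Bijective σ
  B1 : 1 ≤ B
  C1 : 1 ≤ C
  on1 : ∀ ω, A ω → |F.d ω (σ 1) - al (Fam.pt F ω) * F.d ω (σ 0) - nu (Fam.pt F ω)| ≤ B / 2 ^ Hu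
  on2 : ∀ ω, A ω → |F.d ω (σ 2) - s ω * F.d ω (σ 1) - t ω * F.d ω (σ 0) - b (Fam.pt F ω) -
    k (Fam.pt F ω) * F.d ω (σ 0)| ≤ B / 2 ^ HN
  bal : ∀ ω, A ω → |al (Fam.pt F ω)| ≤ B
  bd : ∀ ω, A ω → |s ω| ≤ B ∧ |t ω| ≤ B
  kle : ∀ ω, A ω → |k (Fam.pt F ω)| ≤ C / 2 ^ kap
  slp : Det F.p (slam F wl) (fun ω => (s ω, t ω))
  pts : ∃ φ : (Fin 3 → ℤ) × (ℕ × F.ζ) → ℝ × ℝ, ∀ ω, A ω → (s ω, t ω) = φ (Fam.pt F ω)

/-- Finitely many exceptional events. -/
theorem Pe_union {Ω : Type} [Fintype Ω] {p : Ω → ℝ} (hp : IsLaw p) (A : Ω → Prop) (n : ℕ)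
    (E : ℕ → Ω → Prop) {ε : ℝ} (h : ∀ i < n, Pe p (fun ω => A ω ∧ E i ω) ≤ ε) :
    Pe p (fun ω => A ω ∧ ∃ i < n, E i ω) ≤ n * ε := by
  classical
  induction n with
  | zero =>
    have : Pe p (fun ω => A ω ∧ ∃ i < 0, E i ω) = 0 := by
      rw [Pe_eq]
      refine Finset.sum_eq_zero fun ω _ => if_neg ?_
      rintro ⟨-, i, hi, -⟩
      omega
    rw [this]
    simp
  | succ n ih =>
    have h1 := ih fun i hi => h i (by omega)
    have h2 := h n (by omega)
    have h3 : Pe p (fun ω => A ω ∧ ∃ i < n + 1, E i ω) ≤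
        Pe p (fun ω => A ω ∧ ∃ i < n, E i ω) + Pe p (fun ω => A ω ∧ E n ω) := by
      rw [Pe_eq, Pe_eq, Pe_eq, ← Finset.sum_add_distrib]
      refine Finset.sum_le_sum fun ω _ => ?_
      have h0 := hp.nonneg ω
      by_cases hE : A ω ∧ ∃ i < n + 1, E i ω
      · rw [if_pos hE]
        obtain ⟨hA, i, hi, hEi⟩ := hE
        rcases Nat.lt_or_ge i n with hlt | hge
        · rw [if_pos ⟨hA, i, hlt, hEi⟩]
          split_ifs <;> linarith
        · have : i = n := by omega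
          subst this
          rw [if_pos (⟨hA, hEi⟩ : A ω ∧ E i ω)]
          split_ifs <;> linarith
      · rw [if_neg hE]
        split_ifs <;> linarith
    push_cast
    linarith

/-- **The frames of the U-step**, from the frames without labels of the slopes. -/
theorem ufr_of {S : PCl 3} {a₁ R h₁ : ℝ} {i₀ : Fin 3} {c s₂ : ℝ} {r : ℝ → ℝ} {D : Set ℝ}
    {σ : ℝ → Row} (hC : Cs S a₁ R h₁ i₀ c s₂ r D σ) {e : ℝ} (he : 0 < e) (hep : e ≤ (σ 1).pi)
    (N : ℕ) (u : ℕ → ℚ) (hu0 : 0 ≤ u 0) (hu : ∀ i < N, u i ≤ u (i + 1)) (hu1 : u N ≤ 1)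
    (B C : ℝ) :
    ∃ τ > 0, Clp S (fun J F A => ∀ (sg : Fin 3 → Fin 3) (wl kap Hu HN : ℕ)
      (al nu k b : (Fin 3 → ℤ) × (ℕ × F.ζ) → ℝ) (s t : F.Ω → ℝ),
      Uf0 F A sg wl kap Hu HN al nu k b s t B C → sg 0 = i₀ → wl ≤ ⌊(u 0 : ℝ) * J⌋₊ →
      ((σ 1).pi - e / 4) * J ≤ Hu + 1 →
      ∃ (G : F.Ω → Prop) (vp : ℕ → ℕ) (a : ℕ → F.Ω → ℝ), Sub G A ∧
        Pe F.p (fun ω => A ω ∧ ¬ G ω) ≤ Real.exp (-(τ * J)) * Pe F.p A ∧
        UFr F G sg wl ⌊(u 0 : ℝ) * J⌋₊ ⌊(u N : ℝ) * J⌋₊ vp kap Hu HN al nu k b a s t B C ∧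
        ∀ w, vp w = ⌊((σ 1).rot (u (mix u N J w)) - e) * J⌋₊) := by
  classical
  have hR1 := hC.row 1 one_pos le_rfl hC.D1
  have hui0 : ∀ i ≤ N, 0 ≤ u i := fun i hi => hu0.trans (mono_chain hu (Nat.zero_le i) hi)
  have hui1 : ∀ i ≤ N, u i ≤ 1 := fun i hi => (mono_chain hu hi le_rfl).trans hu1
  have hrp : ∀ i ≤ N, (σ 1).rot (u i) ≤ (σ 1).pi := fun i hi => by
    refine num_mono hC.ne (hR1.rot (u i) (hui0 i hi) (hui1 i hi)) hR1.pi ?_
    rintro s J F A (h | ⟨h, e', n', ζ, h4, -⟩)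
    · exact Or.inl h
    · exact Or.inr ⟨h, e', n', h4⟩
  obtain ⟨x, hx⟩ : ∃ x, x = min (min (e / 8) (1 / 2)) (h₁ / 2) := ⟨_, rfl⟩
  have hx0 : 0 < x := by
    rw [hx]
    have := hC.h₁0
    exact lt_min (lt_min (by linarith only [he]) (by norm_num)) (by linarith)
  have hx1 : x ≤ e / 8 := by rw [hx]; exact (min_le_left _ _).trans (min_le_left _ _)
  have hx2 : x ≤ 1 / 2 := by rw [hx]; exact (min_le_left _ _).trans (min_le_right _ _)
  have hx3 : x ≤ h₁ / 2 := by rw [hx]; exact min_le_right _ _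
  obtain ⟨τ, hτ, J₁, hcmp⟩ := slope_cmp hC hx0 hx2 (by have := hC.h₁0; linarith only [hx0, hx3])
  refine ⟨τ / 2, by linarith only [hτ], ?_⟩
  obtain ⟨m, hm⟩ : ∃ m : ℕ, B ≤ 2 ^ m := pow_unbounded_of_one_lt B (by norm_num) |>.imp
    fun m hm => hm.le
  obtain ⟨J₂, hJ₂⟩ := Pool.S6K.exp_small (κ := τ / 2) (C := N + 2) (by linarith only [hτ]) (by
    have : (0 : ℝ) ≤ N := Nat.cast_nonneg N
    linarith only [hx0, hx2])
  obtain ⟨J₃, hJ₃⟩ := exists_nat_gt ((m + 20) * (16 / e) + (m + 20) * (16 / h₁) + 16)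
  have c3 := (Clp.of hτ 0 fun J _ F A h => h : Clp S (fun J F A => S.St τ J F A))
  have c4 : Clp S (fun J F A => ∀ i < N + 1, capS 1 (qRot i₀ 1 (u i)) ((σ 1).rot (u i) - e / 8)
      J F A) :=
    Clp.all (N + 1) fun i hi => (hR1.rot (u i) (hui0 i (by omega)) (hui1 i (by omega))).1 (e / 8)
      (by linarith only [hx0, hx1])
  exact by
   refine Clp.mono (J₂ := max (max J₁ J₂) J₃) (c3.and c4) ?_
   rintro J hJ F A ⟨d3, d4⟩ sg wl kap Hu HN al nu k b s t h0 hsg0 hwl hHu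
   have hJ1 : J₁ ≤ J := ((le_max_left _ _).trans (le_max_left _ _)).trans hJ
   have hJ2 : J₂ ≤ J := ((le_max_right _ _).trans (le_max_left _ _)).trans hJ
   have hJr : (m + 20) * (16 / e) + (m + 20) * (16 / h₁) + 16 < J :=
     hJ₃.trans_le (by exact_mod_cast (le_max_right _ _).trans hJ)
   have hh₁ := hC.h₁0
   have q1 : 0 < ((m : ℝ) + 20) * (16 / e) := by positivity
   have q2 : 0 < ((m : ℝ) + 20) * (16 / h₁) := by positivity
   have hJe : ((m : ℝ) + 20) * 16 < J * e := by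
     have : ((m : ℝ) + 20) * (16 / e) < J := by linarith only [hx0, hx2, hJr, q2]
     rw [← mul_div_assoc, div_lt_iff₀ he] at this
     exact this
   have hJh : ((m : ℝ) + 20) * 16 < J * h₁ := by
     have : ((m : ℝ) + 20) * (16 / h₁) < J := by linarith only [hx0, hx2, hJr, q1]
     rw [← mul_div_assoc, div_lt_iff₀ hh₁] at this
     exact this
   have hJ0 : (0 : ℝ) ≤ J := Nat.cast_nonneg J
   have hm0 : (0 : ℝ) ≤ m := Nat.cast_nonneg m
   have hB := h0.B1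
   obtain ⟨q, hq⟩ : ∃ q, q = ⌊x * (J : ℝ)⌋₊ := ⟨_, rfl⟩
   have hqx : (q : ℝ) ≤ x * J := by rw [hq]; exact Nat.floor_le (by positivity)
   have hxe : x * (J : ℝ) ≤ e / 8 * J := mul_le_mul_of_nonneg_right hx1 hJ0
   have hxh : x * (J : ℝ) ≤ h₁ / 2 * J := mul_le_mul_of_nonneg_right hx3 hJ0
   -- the base slopes
   obtain ⟨eb, nb, hfr⟩ := hC.lb _ _ _ _ d3
   obtain ⟨hb, hhb⟩ : ∃ hb, hb = ⌊h₁ * (J : ℝ)⌋₊ := ⟨_, rfl⟩
   have hhb1 : h₁ * (J : ℝ) < hb + 1 := by rw [hhb]; exact Nat.lt_floor_add_one _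
   -- powers
   have pw : ∀ {y z : ℕ}, y ≤ z → (1 : ℝ) / 2 ^ z ≤ 1 / 2 ^ y := fun h => inv_mono h
   exact by
    have pwB : ∀ {y z : ℕ}, y + m ≤ z → B / (2 : ℝ) ^ z ≤ 1 / 2 ^ y := by
      intro y z h
      rw [div_le_div_iff₀ (by positivity) (by positivity), one_mul]
      calc B * (2 : ℝ) ^ y ≤ 2 ^ m * 2 ^ y := mul_le_mul_of_nonneg_right hm (by positivity)
        _ = 2 ^ (y + m) := by rw [← pow_add]; congr 1; ring
        _ ≤ 2 ^ z := pow_le_pow_right₀ (by norm_num) h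
    -- the precisions
    obtain ⟨lv, hlv⟩ : ∃ lv : ℕ → ℕ, lv = fun i => ⌊((σ 1).rot (u i) - e) * J⌋₊ := ⟨_, rfl⟩
    obtain ⟨li, hli⟩ : ∃ li : ℕ → ℕ, li = fun i => ⌊((σ 1).rot (u i) - e / 8) * J⌋₊ := ⟨_, rfl⟩
    have m1 : e * J ≤ (σ 1).pi * J := mul_le_mul_of_nonneg_right hep hJ0
    have hHu0 : q + 6 + m ≤ Hu := by
      have : ((q + 6 + m : ℕ) : ℝ) < ((Hu + 1 : ℕ) : ℝ) := by
        push_cast
        nlinarith only [hx0, hx2, hHu, hJe, hqx, hxe, m1]
      have : q + 6 + m < Hu + 1 := by exact_mod_cast this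
      omega
    have hhb0 : q + 6 ≤ hb := by
      have : ((q + 6 : ℕ) : ℝ) < ((hb + 1 : ℕ) : ℝ) := by
        push_cast
        nlinarith only [hx0, hx2, hJh, hqx, hxh, hhb1]
      have : q + 6 < hb + 1 := by exact_mod_cast this
      omega
    have hlvH : ∀ i ≤ N, e < (σ 1).rot (u i) → lv i + q + 6 + m ≤ Hu ∧ lv i + q + 6 ≤ li i := by
      intro i hi hpos
      have f9 : (lv i : ℝ) ≤ ((σ 1).rot (u i) - e) * J := by
        rw [hlv]
        exact Nat.floor_le (mul_nonneg (by linarith only [hpos]) hJ0)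
      have f10 : ((σ 1).rot (u i) - e / 8) * J < li i + 1 := by
        rw [hli]
        exact Nat.lt_floor_add_one _
      have m7 : (σ 1).rot (u i) * J ≤ (σ 1).pi * J := mul_le_mul_of_nonneg_right (hrp i hi) hJ0
      constructor
      · have : ((lv i + q + 6 + m : ℕ) : ℝ) < ((Hu + 1 : ℕ) : ℝ) := by
          push_cast
          nlinarith only [hx0, hx2, hHu, hJe, hqx, hxe, f9, m7]
        have : lv i + q + 6 + m < Hu + 1 := by exact_mod_cast this
        omega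
      · have : ((lv i + q + 6 : ℕ) : ℝ) < ((li i + 1 : ℕ) : ℝ) := by
          push_cast
          nlinarith only [hx0, hx2, hJe, hqx, hxe, f9, f10]
        have : lv i + q + 6 < li i + 1 := by exact_mod_cast this
        omega
    -- the slopes of the windows
    exact by
     have key : ∀ i, i ≤ N → ∃ (ζ : ((Fin 3 → ℝ) × (Fin 3 → ℝ)) × F.ζ × ℕ → ℝ)
         (E : F.Ω → Prop), Pe F.p (fun ω => A ω ∧ E ω) ≤ Real.exp (-(τ * J)) * Pe F.p A ∧
         ∀ ω, A ω → ¬ E ω → e < (σ 1).rot (u i) →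
         |al (Fam.pt F ω) - ζ (slam F ⌊(u i : ℝ) * J⌋₊ ω)| ≤ 2 / 2 ^ lv i := by
       intro i hiN
       by_cases hpos : e < (σ 1).rot (u i)
       swap
       · refine ⟨fun _ => 0, fun _ => False, ?_, fun ω _ _ h => absurd h hpos⟩
         have : Pe F.p (fun ω => A ω ∧ False) = 0 := by
           rw [Pe_eq]
           exact Finset.sum_eq_zero fun ω _ => if_neg fun h => h.2
         rw [this]
         exact mul_nonneg (Real.exp_pos _).le (Pe_nonneg F.isLaw A)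
       rcases d4 i (by omega) with d | ⟨-, e', n', ζ, hL', hz⟩
       · exfalso
         linarith only [hx0, hx1, hpos, d]
       rw [ptq_one F] at hL' hz
       obtain ⟨g1, g2⟩ := hlvH i hiN hpos
       obtain ⟨δ, hδ⟩ : ∃ δ : ℝ, δ = 1 / 2 ^ (lv i + q + 6) := ⟨_, rfl⟩
       have hδ0 : 0 < δ := by rw [hδ]; positivity
       have k1 : ∀ ω, A ω → |F.d ω (sg 1) - al (Fam.pt F ω) * F.d ω i₀ - nu (Fam.pt F ω)| ≤ δ := by
         intro ω hω
         have := h0.on1 ω hω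
         rw [hsg0] at this
         rw [hδ]
         exact this.trans (pwB g1)
       have hli' : (1 : ℝ) / 2 ^ ⌊((σ 1).rot (u i) - e / 8) * J⌋₊ ≤ δ := by
         rw [hδ]
         refine pw ?_
         rw [hli] at g2
         exact g2
       have k2 : ∀ ω, A ω → |F.d ω (sg 1) - e' (Fam.pt F ω) (sg 1) * F.d ω i₀ -
           n' (Fam.pt F ω) (sg 1)| ≤ δ := fun ω hω => (hL' ω hω (sg 1)).trans hli'
       have k3 := hcmp J hJ1 F A d3 (sg 1) al nu (fun u => e' u (sg 1)) (fun u => n' u (sg 1)) δ k1 k2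
       refine ⟨fun v => ζ v (sg 1), fun ω => 2 * δ * 2 ^ ⌊x * J⌋₊ <
         |al (Fam.pt F ω) - e' (Fam.pt F ω) (sg 1)|, k3, fun ω hω hE _ => ?_⟩
       have k4 : |al (Fam.pt F ω) - e' (Fam.pt F ω) (sg 1)| ≤ 2 * δ * 2 ^ q := by
         rw [hq]
         exact not_lt.1 hE
       have k5 := (hz ω hω (sg 1)).trans hli'
       have k6 := abs_sub_le (al (Fam.pt F ω)) (e' (Fam.pt F ω) (sg 1))
         (ζ (slam F ⌊(u i : ℝ) * J⌋₊ ω) (sg 1))
       have e1 : δ * 2 ^ q * 64 = 1 / 2 ^ lv i := by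
         rw [hδ, pow_add, pow_add]
         field_simp
         norm_num
       have e2 : (2 : ℝ) / 2 ^ lv i = 2 * (1 / 2 ^ lv i) := by ring
       have e3 : δ ≤ δ * 2 ^ q := le_mul_of_one_le_right hδ0.le (one_le_pow₀ (by norm_num))
       have e4 : 0 < δ * 2 ^ q := by positivity
       rw [e2, ← e1]
       linarith only [hδ0, k4, k5, k6, e3]
     choose! ζ E hE1 hE2 using key
     -- the bound of the slopes
     exact by
      obtain ⟨δ, hδ⟩ : ∃ δ : ℝ, δ = 1 / 2 ^ (q + 6) := ⟨_, rfl⟩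
      have hδ0 : 0 < δ := by rw [hδ]; positivity
      have k1 : ∀ ω, A ω → |F.d ω (sg 1) - al (Fam.pt F ω) * F.d ω i₀ - nu (Fam.pt F ω)| ≤ δ := by
        intro ω hω
        have := h0.on1 ω hω
        rw [hsg0] at this
        rw [hδ]
        exact this.trans (pwB hHu0)
      have k2 : ∀ ω, A ω → |F.d ω (sg 1) - eb (Fam.pt F ω) (sg 1) * F.d ω i₀ -
          nb (Fam.pt F ω) (sg 1)| ≤ δ := by
        intro ω hω
        refine (hfr.line ω hω (sg 1)).trans ?_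
        rw [hδ]
        refine pw ?_
        rw [hhb] at hhb0
        exact hhb0
      have k3 := hcmp J hJ1 F A d3 (sg 1) al nu (fun u => eb u (sg 1)) (fun u => nb u (sg 1)) δ k1 k2
      have hal : ∀ ω, A ω → ¬ (2 * δ * 2 ^ ⌊x * (J : ℝ)⌋₊ <
          |al (Fam.pt F ω) - eb (Fam.pt F ω) (sg 1)|) → |al (Fam.pt F ω)| ≤ 2 := by
        intro ω hω hn
        have k4 := not_lt.1 hn
        rw [← hq] at k4
        have e1 : δ * 2 ^ q * 64 = 1 := by
          rw [hδ, pow_add]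
          field_simp
          norm_num
        have k5 := hfr.bound ω hω (sg 1)
        have k6 := abs_sub_abs_le_abs_sub (al (Fam.pt F ω)) (eb (Fam.pt F ω) (sg 1))
        linarith only [hx0, hx2, k4, e1, k5, k6]
      obtain ⟨EE, hEE⟩ : ∃ EE : ℕ → F.Ω → Prop, EE = fun i ω => if i < N + 1 then E i ω else
        2 * δ * 2 ^ ⌊x * (J : ℝ)⌋₊ < |al (Fam.pt F ω) - eb (Fam.pt F ω) (sg 1)| := ⟨_, rfl⟩
      exact by
       obtain ⟨G, hG⟩ : ∃ G : F.Ω → Prop, G = fun ω => A ω ∧ ¬ ∃ i < N + 2, EE i ω := ⟨_, rfl⟩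
       have hGA : Sub G A := by
         rw [hG]
         exact fun ω hω => hω.1
       have hGE : ∀ ω, G ω → ∀ i ≤ N, ¬ E i ω := by
         intro ω hω i hi hEi
         rw [hG] at hω
         refine hω.2 ⟨i, by omega, ?_⟩
         rw [hEE]
         simp only [if_pos (show i < N + 1 by omega)]
         exact hEi
       have hGb : ∀ ω, G ω → ¬ (2 * δ * 2 ^ ⌊x * (J : ℝ)⌋₊ <
           |al (Fam.pt F ω) - eb (Fam.pt F ω) (sg 1)|) := by
         intro ω hω hEi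
         rw [hG] at hω
         refine hω.2 ⟨N + 1, by omega, ?_⟩
         rw [hEE]
         simp only [if_neg (show ¬ (N + 1 < N + 1) by omega)]
         exact hEi
       have hPG : Pe F.p (fun ω => A ω ∧ ¬ G ω) ≤ Real.exp (-(τ / 2 * J)) * Pe F.p A := by
         have h1 := Pe_union F.isLaw A (N + 2) EE (ε := Real.exp (-(τ * J)) * Pe F.p A) (by
           intro i hi
           rw [hEE]
           by_cases h : i < N + 1
           · simp only [if_pos h]
             exact hE1 i (by omega)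
           · simp only [if_neg h]
             exact k3)
         have h2 : (fun ω => A ω ∧ ¬ G ω) = fun ω => A ω ∧ ∃ i < N + 2, EE i ω := by
           funext ω
           rw [hG]
           exact propext ⟨fun h => ⟨h.1, by by_contra hc; exact h.2 ⟨h.1, hc⟩⟩,
             fun h => ⟨h.1, fun h' => h'.2 h.2⟩⟩
         rw [h2]
         refine h1.trans ?_
         have h3 := hJ₂ J hJ2
         have h4 := Pe_nonneg F.isLaw A
         have h5 : Real.exp (-(τ * J)) = Real.exp (-(τ / 2 * J)) * Real.exp (-(τ / 2 * J)) := by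
           rw [← Real.exp_add]
           congr 1
           ring
         have h6 : ((N + 2 : ℕ) : ℝ) * Real.exp (-(τ / 2 * J)) ≤ 1 := by
           push_cast
           have h7 := mul_le_mul_of_nonneg_left h3 (show (0 : ℝ) ≤ (N : ℝ) + 2 by positivity)
           have h8 : ((N : ℝ) + 2) * (1 / ((N : ℝ) + 2)) = 1 := by
             field_simp
           linarith only [h7, h8]
         have h9 : 0 ≤ Real.exp (-(τ / 2 * J)) * Pe F.p A := mul_nonneg (Real.exp_pos _).le h4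
         calc ((N + 2 : ℕ) : ℝ) * (Real.exp (-(τ * J)) * Pe F.p A) =
             ((N + 2 : ℕ) : ℝ) * Real.exp (-(τ / 2 * J)) * (Real.exp (-(τ / 2 * J)) * Pe F.p A) := by
               rw [h5]
               ring
           _ ≤ 1 * (Real.exp (-(τ / 2 * J)) * Pe F.p A) := mul_le_mul_of_nonneg_right h6 h9
           _ = _ := one_mul _
       -- the labels
       exact by
        obtain ⟨vp, hvp⟩ : ∃ vp : ℕ → ℕ, vp = fun w => lv (mix u N J w) := ⟨_, rfl⟩
        obtain ⟨av, hav⟩ : ∃ av : ℕ → F.Ω → ℝ, av = fun w ω =>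
          if e < (σ 1).rot (u (mix u N J w)) then
          (⌊(2 : ℝ) ^ vp w * ζ (mix u N J w) (slam F ⌊(u (mix u N J w) : ℝ) * J⌋₊ ω)⌋ : ℝ) /
            2 ^ vp w else 0 := ⟨_, rfl⟩
        have huJ : ∀ i ≤ N, ⌊(u i : ℝ) * J⌋₊ ≤ J := fun i hiN =>
          floor_row_one (by exact_mod_cast hui1 i hiN) J
        refine ⟨G, vp, av, hGA, hPG, ?_, fun w => by rw [hvp, hlv]⟩
        refine ⟨h0.bij, h0.B1, h0.C1, hwl, huJ N le_rfl, ?_, fun ω hω => h0.on1 ω (hGA ω hω),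
          fun ω hω => h0.on2 ω (hGA ω hω), fun ω hω => h0.bal ω (hGA ω hω),
          fun ω hω => h0.bd ω (hGA ω hω), ?_, ?_, fun ω hω => h0.kle ω (hGA ω hω), ?_, h0.slp, ?_⟩
        · intro w w' h4 h5 h6
          rw [hvp, hlv]
          refine Nat.floor_le_floor (mul_le_mul_of_nonneg_right ?_ hJ0)
          have := rot_window hC.ne hR1 (hui0 _ (mix_le u N J w)) (mono_chain hu
            (mix_mono u N J h5) (mix_le u N J w')) (hui1 _ (mix_le u N J w'))
          linarith only [this]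
        · intro w h4 h5 ω hω
          have hi := mix_le u N J w
          have h8 : vp w = lv (mix u N J w) := by rw [hvp]
          by_cases hpos : e < (σ 1).rot (u (mix u N J w))
          · have h6 := hE2 (mix u N J w) hi ω (hGA ω hω) (hGE ω hω _ hi) hpos
            have h7 := floor_near (vp w) (ζ (mix u N J w) (slam F ⌊(u (mix u N J w) : ℝ) * J⌋₊ ω))
            rw [← h8] at h6
            have h9 := abs_sub_le (al (Fam.pt F ω))
              (ζ (mix u N J w) (slam F ⌊(u (mix u N J w) : ℝ) * J⌋₊ ω)) (av w ω)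
            have e1 : (3 : ℝ) / 2 ^ vp w = 2 / 2 ^ vp w + 1 / 2 ^ vp w := by ring
            rw [e1]
            have e2 : av w ω = (⌊(2 : ℝ) ^ vp w * ζ (mix u N J w)
                (slam F ⌊(u (mix u N J w) : ℝ) * J⌋₊ ω)⌋ : ℝ) / 2 ^ vp w := by
              rw [hav]
              simp only [if_pos hpos]
            rw [e2] at h9 ⊢
            exact h9.trans (add_le_add h6 h7)
          · have e2 : av w ω = 0 := by
              rw [hav]
              simp only [if_neg hpos]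
            have e3 : vp w = 0 := by
              rw [h8, hlv]
              exact Nat.floor_of_nonpos (mul_nonpos_of_nonpos_of_nonneg (by linarith only [hpos]) hJ0)
            rw [e2, e3, sub_zero, pow_zero, div_one]
            exact (hal ω (hGA ω hω) (hGb ω hω)).trans (by norm_num)
        · intro w h4 h5 ω
          by_cases hpos : e < (σ 1).rot (u (mix u N J w))
          · exact ⟨⌊(2 : ℝ) ^ vp w * ζ (mix u N J w) (slam F ⌊(u (mix u N J w) : ℝ) * J⌋₊ ω)⌋,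
              by rw [hav]; simp only [if_pos hpos]⟩
          · exact ⟨0, by rw [hav]; simp only [if_neg hpos]; simp⟩
        · intro w h4 h5 ω ω' p1 p2 hs
          have h6 : ⌊(u (mix u N J w) : ℝ) * J⌋₊ ≤ w := mix_spec u N J w h4
          have h7 : slam F ⌊(u (mix u N J w) : ℝ) * J⌋₊ ω = slam F ⌊(u (mix u N J w) : ℝ) * J⌋₊ ω' :=
            Pool.S6K.slam_mono h6 (h5.trans (huJ N le_rfl)) hs
          rw [hav]
          beta_reduce
          rw [h7]
        · obtain ⟨φ, hφ⟩ := h0.pts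
          exact ⟨φ, fun ω hω => hφ ω (hGA ω hω)⟩

end Pool.UST
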