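import Pool.Agent.H2.UST.H6
import Pool.Agent.H10.S6U.Out

/-!
# Side labels in the local U-step

A side label `Th`, which is a function of the window `wl` and of the exact point, is coded in the
coefficient `t` of the plank: `t'` is close to `t` and determines `t` and `Th`. The frames with `t'`
are frames of the U-step; the boxes of the two frames determine each other up to a bounded number
of values.
-/

set_option autoImplicit false

namespace Pool.UST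

open Finset Real
open Pool.Agent.H49.Ent Pool.Agent.H32.Dense Pool.STK Pool.KA Pool.KSAT Pool.K2S Pool.PB
  Pool.S6U Pool.S6C

/-- A side label: a function of the window and of the exact point. -/
structure SLb {J : ℕ} (F : Fam 3 J) (A : F.Ω → Prop) (wl : ℕ) {K : Type} (Th : F.Ω → K) :
    Prop where
  slp : Det F.p (slam F wl) Th
  pts : ∀ ω ω', A ω → A ω' → Fam.pt F ω = Fam.pt F ω' → Th ω = Th ω'

theorem SLb.sub {J : ℕ} {F : Fam 3 J} {A A' : F.Ω → Prop} {wl : ℕ} {K : Type} {Th : F.Ω → K}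
    (h : SLb F A wl Th) (hA : Sub A' A) : SLb F A' wl Th :=
  ⟨h.slp, fun ω ω' h1 h2 => h.pts ω ω' (hA ω h1) (hA ω' h2)⟩

/-- The trivial label. -/
theorem SLb.unit {J : ℕ} (F : Fam 3 J) (A : F.Ω → Prop) (wl : ℕ) : SLb F A wl (fun _ => ()) :=
  ⟨fun _ _ _ _ _ => rfl, fun _ _ _ _ _ => rfl⟩

/-- Finitely many reals have a gap. -/
theorem exists_gap {Ω : Type} [Fintype Ω] (t : Ω → ℝ) :
    ∃ g : ℝ, 0 < g ∧ ∀ ω ω', |t ω - t ω'| < g → t ω = t ω' := by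
  classical
  obtain ⟨S, hS⟩ : ∃ S : Finset (Ω × Ω), S = Finset.univ.filter (fun x => t x.1 ≠ t x.2) :=
    ⟨_, rfl⟩
  rcases S.eq_empty_or_nonempty with h | h
  · refine ⟨1, one_pos, fun ω ω' _ => ?_⟩
    by_contra hne
    have h1 : (ω, ω') ∈ S := by
      rw [hS]
      exact Finset.mem_filter.2 ⟨Finset.mem_univ _, hne⟩
    rw [h] at h1
    exact absurd h1 (Finset.notMem_empty _)
  · obtain ⟨x, hx, hmin⟩ := S.exists_min_image (fun x => |t x.1 - t x.2|) h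
    have hx' : t x.1 ≠ t x.2 := by
      rw [hS] at hx
      exact (Finset.mem_filter.1 hx).2
    refine ⟨|t x.1 - t x.2|, abs_pos.2 (sub_ne_zero.2 hx'), fun ω ω' hlt => ?_⟩
    by_contra hne
    have h1 : (ω, ω') ∈ S := by
      rw [hS]
      exact Finset.mem_filter.2 ⟨Finset.mem_univ _, hne⟩
    exact absurd hlt (not_lt.2 (hmin _ h1))

/-- A code of a label by small natural numbers. -/
theorem exists_cnum {Ω K : Type} [Fintype Ω] (Th : Ω → K) :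
    ∃ c : Ω → ℕ, (∀ ω, c ω ≤ Fintype.card Ω) ∧ ∀ ω ω', c ω = c ω' ↔ Th ω = Th ω' := by
  classical
  rcases isEmpty_or_nonempty Ω with h | ⟨⟨ω₀⟩⟩
  · exact ⟨fun _ => 0, fun ω => Nat.zero_le _, fun ω => (h.false ω).elim⟩
  obtain ⟨ρ, hρ⟩ : ∃ ρ : K → Ω, ∀ ω, Th (ρ (Th ω)) = Th ω := by
    refine ⟨fun x => if hx : ∃ ω, Th ω = x then hx.choose else ω₀, fun ω => ?_⟩
    have hx : ∃ ω', Th ω' = Th ω := ⟨ω, rfl⟩
    simp only [dif_pos hx]
    exact hx.choose_spec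
  refine ⟨fun ω => (Fintype.equivFin Ω (ρ (Th ω)) : ℕ), fun ω => (Fin.is_lt _).le,
    fun ω ω' => ⟨fun h => ?_, fun h => by simp only [h]⟩⟩
  have h1 : ρ (Th ω) = ρ (Th ω') := (Fintype.equivFin Ω).injective (Fin.ext h)
  rw [← hρ ω, ← hρ ω', h1]

/-- A label is coded in a small change of a real variable. -/
theorem exists_code {Ω K : Type} [Fintype Ω] (t : Ω → ℝ) (Th : Ω → K) {δ : ℝ} (hδ : 0 < δ) :
    ∃ t' : Ω → ℝ, (∀ ω, |t' ω - t ω| ≤ δ) ∧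
      ∀ ω ω', t' ω = t' ω' ↔ t ω = t ω' ∧ Th ω = Th ω' := by
  obtain ⟨g, hg, hgap⟩ := exists_gap t
  obtain ⟨c, hc1, hc2⟩ := exists_cnum Th
  obtain ⟨N, hN⟩ : ∃ N : ℝ, N = Fintype.card Ω := ⟨_, rfl⟩
  have hN0 : 0 ≤ N := by rw [hN]; exact Nat.cast_nonneg _
  obtain ⟨e, he⟩ : ∃ e, e = min δ (g / 2) / (N + 1) := ⟨_, rfl⟩
  have hm : 0 < min δ (g / 2) := lt_min hδ (by positivity)
  have he0 : 0 < e := by rw [he]; positivity
  have heN : e * N ≤ min δ (g / 2) := by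
    rw [he, div_mul_eq_mul_div, div_le_iff₀ (by positivity)]
    have := mul_le_mul_of_nonneg_left (show N ≤ N + 1 by linarith) hm.le
    exact this
  have hcr : ∀ ω, 0 ≤ e * (c ω : ℝ) ∧ e * (c ω : ℝ) ≤ min δ (g / 2) := by
    intro ω
    refine ⟨by positivity, le_trans (mul_le_mul_of_nonneg_left ?_ he0.le) heN⟩
    rw [hN]
    exact_mod_cast hc1 ω
  refine ⟨fun ω => t ω + e * c ω, fun ω => ?_, fun ω ω' => ⟨fun h => ?_, fun h => ?_⟩⟩
  · obtain ⟨h1, h2⟩ := hcr ω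
    rw [show t ω + e * (c ω : ℝ) - t ω = e * c ω by ring, abs_of_nonneg h1]
    exact h2.trans (min_le_left _ _)
  · obtain ⟨h1, h2⟩ := hcr ω
    obtain ⟨h3, h4⟩ := hcr ω'
    have h5 : min δ (g / 2) ≤ g / 2 := min_le_right _ _
    have h : t ω + e * (c ω : ℝ) = t ω' + e * (c ω' : ℝ) := h
    have h6 : t ω = t ω' := by
      refine hgap ω ω' ?_
      rw [abs_lt]
      constructor <;> linarith
    refine ⟨h6, (hc2 ω ω').1 ?_⟩
    have h7 : e * (c ω : ℝ) = e * (c ω' : ℝ) := by linarith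
    have h8 : (c ω : ℝ) = (c ω' : ℝ) := mul_left_cancel₀ he0.ne' h7
    exact_mod_cast h8
  · have h1 := (hc2 ω ω').2 h.2
    simp only [h.1, h1]

/-- Change of the condition. -/
theorem CH_cmp {Ω S T U : Type} [Fintype Ω] {p : Ω → ℝ} (h0 : ∀ ω, 0 ≤ p ω) (X : Ω → S)
    (Y : Ω → T) (Z : Ω → U) : CH p X Z ≤ CH p X Y + CH p Y Z := by
  have k1 := CH_le_add h0 X Y Z
  have k2 : CH p X (fun ω => (Y ω, Z ω)) ≤ CH p X Y :=
    CH_mono_cond h0 fun ω ω' _ _ e => (Prod.ext_iff.mp e).1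
  linarith

section side

variable {J : ℕ} {F : Fam 3 J} {A : F.Ω → Prop} {σ : Fin 3 → Fin 3} {wl wa wb : ℕ}
    {vp : ℕ → ℕ} {kap Hu HN : ℕ} {al nu k b : (Fin 3 → ℤ) × (ℕ × F.ζ) → ℝ} {a : ℕ → F.Ω → ℝ}
    {s t : F.Ω → ℝ} {B C : ℝ} {K : Type} {Th : F.Ω → K}

/-- The frames with the code. -/
theorem UFr.code (h : UFr F A σ wl wa wb vp kap Hu HN al nu k b a s t B C) (hT : SLb F A wl Th)
    {t' : F.Ω → ℝ} (h1 : ∀ ω, |t' ω - t ω| ≤ 1 / 2 ^ HN)
    (h2 : ∀ ω ω', t' ω = t' ω' ↔ t ω = t ω' ∧ Th ω = Th ω') :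
    UFr F A σ wl wa wb vp kap Hu HN al nu k b a s t' (B + 1) C := by
  have hB := h.B1
  have hone : (1 : ℝ) / 2 ^ HN ≤ 1 := div_le_self (by norm_num) (one_le_pow₀ (by norm_num))
  obtain ⟨φ, hφ⟩ := h.pts
  refine ⟨h.bij, by linarith, h.C1, h.lw, h.wJ, h.mono, fun ω hω => (h.on1 ω hω).trans
    (div_le_div_of_nonneg_right (by linarith) (by positivity)), fun ω hω => ?_,
    fun ω hω => (h.bal ω hω).trans (by linarith), fun ω hω => ?_, h.near, h.int, h.kle, h.slm,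
    fun ω ω' hω hω' e => ?_, ?_⟩
  · have e1 : F.d ω (σ 2) - s ω * F.d ω (σ 1) - t' ω * F.d ω (σ 0) - b (Fam.pt F ω) -
        k (Fam.pt F ω) * F.d ω (σ 0) = (F.d ω (σ 2) - s ω * F.d ω (σ 1) - t ω * F.d ω (σ 0) -
        b (Fam.pt F ω) - k (Fam.pt F ω) * F.d ω (σ 0)) - (t' ω - t ω) * F.d ω (σ 0) := by ring
    rw [e1]
    refine (abs_sub _ _).trans ?_
    have e2 : (B + 1) / (2 : ℝ) ^ HN = B / 2 ^ HN + 1 / 2 ^ HN := by ring
    rw [e2]
    refine add_le_add (h.on2 ω hω) ?_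
    rw [abs_mul]
    calc |t' ω - t ω| * |F.d ω (σ 0)| ≤ 1 / 2 ^ HN * 1 :=
          mul_le_mul (h1 ω) (F.dir ω _) (abs_nonneg _) (by positivity)
      _ = 1 / 2 ^ HN := mul_one _
  · obtain ⟨b1, b2⟩ := h.bd ω hω
    refine ⟨by linarith, ?_⟩
    have b3 := h1 ω
    have b4 : t' ω = t ω + (t' ω - t ω) := by ring
    rw [b4]
    refine (abs_add_le _ _).trans ?_
    linarith
  · have e1 := Prod.ext_iff.mp (h.slp ω ω' hω hω' e)
    have e2 : s ω = s ω' := e1.1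
    have e3 : t ω = t ω' := e1.2
    have e4 := (h2 ω ω').2 ⟨e3, hT.slp ω ω' hω hω' e⟩
    exact Prod.ext e2 e4
  · classical
    refine ⟨fun x => if hx : ∃ ω, A ω ∧ Fam.pt F ω = x then (s hx.choose, t' hx.choose)
      else (0, 0), fun ω hω => ?_⟩
    have hx : ∃ ω', A ω' ∧ Fam.pt F ω' = Fam.pt F ω := ⟨ω, hω, rfl⟩
    simp only [dif_pos hx]
    obtain ⟨g1, g2⟩ := hx.choose_spec
    have e1 := hφ _ g1
    rw [g2, ← hφ ω hω] at e1
    have e2 := Prod.ext_iff.mp e1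
    have e3 : s hx.choose = s ω := e2.1
    have e4 : t hx.choose = t ω := e2.2
    rw [e3, (h2 hx.choose ω).2 ⟨e4, hT.pts _ _ g1 hω g2⟩]

/-- The box with the side label from the box of the frame with the code. -/
theorem CH_blb_code {p : F.Ω → ℝ} (hp : IsLaw p) (hσ : Function.Injective σ) {w : ℕ} (hw : w ≤ J)
    {c : Fin 3 → ℕ} {a s t t' : F.Ω → ℝ} (h1 : ∀ ω, |t' ω - t ω| ≤ 2 ^ c 0 / 2 ^ c 2)
    (h2 : ∀ ω ω', t' ω = t' ω' ↔ t ω = t ω' ∧ Th ω = Th ω') {S : Type} (W : F.Ω → S)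
    (hW : Det p W (F.blb w c (frm σ a s t'))) :
    CH p ((F.cnd Th).blb w c (frm σ a s t)) W ≤ 2 * ((3 : ℕ) * Real.log 15) := by
  have hfr : ∀ ω ω', 0 < p ω → 0 < p ω' → W ω = W ω' → a ω = a ω' ∧ s ω = s ω' ∧
      t ω = t ω' ∧ Th ω = Th ω' := by
    intro ω ω' hω hω' e
    have e2 : frm σ a s t' ω = frm σ a s t' ω' := (Box.mlb_ext (hW ω ω' hω hω' e)).2.1
    obtain ⟨f1, f2, f3⟩ := Box.tfr_eq hσ e2
    exact ⟨f1, f2, ((h2 ω ω').1 f3).1, ((h2 ω ω').1 f3).2⟩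
  have k1 := Box.CH_blb (F := F) (p := p) (w := w) (w' := w) (c := c) (c' := c) (σ := σ) (a := a)
    (s := s) (t := t') (a' := a) (s' := s) (t' := t) (D := 1) hp hw hw le_rfl le_rfl le_rfl le_rfl
    (by rw [min_self]) (by rw [min_self]) (by rw [min_self])
    (fun ω _ => by
      rw [sub_self, abs_zero]
      constructor <;> positivity)
    (fun ω _ => by
      rw [sub_self, abs_zero]
      constructor <;> positivity)
    (fun ω _ => by
      have e : t ω - t' ω + (s ω - s ω) * a ω = -(t' ω - t ω) := by ring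
      rw [e, abs_neg, min_self, one_mul, one_mul]
      refine ⟨(h1 ω).trans (le_of_eq ?_), h1 ω⟩
      rw [pow_add, pow_add]
      field_simp)
    W (fun ω ω' hω hω' e => by
      have e1 := hW ω ω' hω hω' e
      obtain ⟨f1, f2, f3, f4⟩ := hfr ω ω' hω hω' e
      exact ⟨e1, (Box.mlb_ext e1).1, f1, f2, f3⟩)
  have k2 : CH p ((F.cnd Th).blb w c (frm σ a s t)) W ≤
      CH p (F.blb w c (fun o => tfr σ (a o) (s o) (t o))) W := by
    refine CH_mono_left hp.nonneg ?_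
    intro ω ω' hω hω' e
    have e1 := Prod.ext_iff.mp e
    exact (blb_cnd Th).2 ⟨(hfr ω ω' hω hω' e1.2).2.2.2, e1.1⟩
  refine k2.trans (k1.trans (le_of_eq ?_))
  norm_num

theorem md0_eq (c : Fin 3 → ℕ) (a s t' t : F.Ω → ℝ) (ω : F.Ω) :
    F.md c (frm σ a s t') ω 0 = F.md c (frm σ a s t) ω 0 := by
  have e2 : ∀ (t : F.Ω → ℝ) (x : Fin 3 → ℝ), mco (frm σ a s t ω) x 0 = x (σ 0) :=
    fun t x => Box.mco_tfr0 σ (a ω) (s ω) (t ω) x
  unfold Fam.md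
  rw [e2 t', e2 t]

theorem mx0_eq (w : ℕ) (c : Fin 3 → ℕ) (a s t' t : F.Ω → ℝ) (ω : F.Ω) :
    F.mx w c (frm σ a s t') ω 0 = F.mx w c (frm σ a s t) ω 0 := by
  have e2 : ∀ (t : F.Ω → ℝ) (x : Fin 3 → ℝ), mco (frm σ a s t ω) x 0 = x (σ 0) :=
    fun t x => Box.mco_tfr0 σ (a ω) (s ω) (t ω) x
  unfold Fam.mx Fam.mu
  rw [md0_eq c a s t' t, e2 t', e2 t]

/-- The rows and the velocities of the first coordinate in the two contexts. -/
theorem CH_row_code {p : F.Ω → ℝ} (hp : IsLaw p) (hσ : Function.Injective σ) {w : ℕ} (hw : w ≤ J)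
    {c : Fin 3 → ℕ} {a s t t' : F.Ω → ℝ} (h1 : ∀ ω, |t' ω - t ω| ≤ 2 ^ c 0 / 2 ^ c 2)
    (h2 : ∀ ω ω', t' ω = t' ω' ↔ t ω = t ω' ∧ Th ω = Th ω') (X : ℕ) :
    CH p (Uni.dg X (fun ω => F.mx w c (frm σ a s t') ω 0))
      (fun ω => (F.blb w c (frm σ a s t') ω, F.T ω)) - 2 * ((3 : ℕ) * Real.log 15) ≤
    CH p (Uni.dg X (fun ω => F.mx w c (frm σ a s t) ω 0))
      (fun ω => ((F.cnd Th).blb w c (frm σ a s t) ω, F.T ω)) := by
  have h0 := hp.nonneg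
  have k1 := CH_cmp h0 (Uni.dg X (fun ω => F.mx w c (frm σ a s t') ω 0))
    (fun ω => ((F.cnd Th).blb w c (frm σ a s t) ω, F.T ω))
    (fun ω => (F.blb w c (frm σ a s t') ω, F.T ω))
  have k2 : CH p (fun ω => ((F.cnd Th).blb w c (frm σ a s t) ω, F.T ω))
      (fun ω => (F.blb w c (frm σ a s t') ω, F.T ω)) ≤
      CH p ((F.cnd Th).blb w c (frm σ a s t)) (fun ω => (F.blb w c (frm σ a s t') ω, F.T ω)) := by
    refine CH_mono_left h0 ?_
    intro ω ω' _ _ e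
    have e1 := Prod.ext_iff.mp e
    exact Prod.ext e1.1 (Prod.ext_iff.mp e1.2).2
  have k3 := CH_blb_code (Th := Th) hp hσ hw h1 h2 (a := a) (s := s)
    (fun ω => (F.blb w c (frm σ a s t') ω, F.T ω)) (fun _ _ _ _ e => (Prod.ext_iff.mp e).1)
  have e1 : (fun ω => F.mx w c (frm σ a s t') ω 0) = (fun ω => F.mx w c (frm σ a s t) ω 0) :=
    funext fun ω => mx0_eq w c a s t' t ω
  rw [e1] at k1 ⊢
  linarith

theorem CH_vel_code {p : F.Ω → ℝ} (hp : IsLaw p) (hσ : Function.Injective σ) {w : ℕ} (hw : w ≤ J)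
    {c : Fin 3 → ℕ} {a s t t' : F.Ω → ℝ} (h1 : ∀ ω, |t' ω - t ω| ≤ 2 ^ c 0 / 2 ^ c 2)
    (h2 : ∀ ω ω', t' ω = t' ω' ↔ t ω = t ω' ∧ Th ω = Th ω') (X : ℕ) :
    CH p (Uni.dg X (fun ω => F.md c (frm σ a s t') ω 0)) (F.blb w c (frm σ a s t')) -
      2 * ((3 : ℕ) * Real.log 15) ≤
    CH p (Uni.dg X (fun ω => F.md c (frm σ a s t) ω 0))
      ((F.cnd Th).blb w c (frm σ a s t)) := by
  have h0 := hp.nonneg
  have k1 := CH_cmp h0 (Uni.dg X (fun ω => F.md c (frm σ a s t') ω 0))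
    ((F.cnd Th).blb w c (frm σ a s t)) (F.blb w c (frm σ a s t'))
  have k3 := CH_blb_code (Th := Th) hp hσ hw h1 h2 (a := a) (s := s)
    (F.blb w c (frm σ a s t')) (fun _ _ _ _ e => e)
  have e1 : (fun ω => F.md c (frm σ a s t') ω 0) = (fun ω => F.md c (frm σ a s t) ω 0) :=
    funext fun ω => md0_eq c a s t' t ω
  rw [e1] at k1 ⊢
  linarith

/-- The frames of helper10's theorem. -/
theorem UFr.rc (h : UFr F A σ wl wa wb vp kap Hu HN al nu k b a s t B C) (hA : 0 < Pe F.p A)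
    {D : ℕ} (hD : vp wb ≤ D) :
    Rc F (Pool.Agent.H49.Ent.cond F.p A True) σ wa wb vp D a s t (fun ω => al (Fam.pt F ω)) := by
  have hpos : ∀ ω, 0 < Pool.Agent.H49.Ent.cond F.p A True ω → A ω ∧ 0 < F.p ω := by
    intro ω hω
    have := (cond_pos_iff F.isLaw.nonneg A True ω).1 hω
    exact ⟨by simpa using this.2, this.1⟩
  refine ⟨isLaw_cond F.isLaw hA, h.bij.1, h.wJ, h.mono, fun w h1 h2 => ?_, fun w h1 h2 ω hω => ?_,
    fun w h1 h2 ω _ => h.int w h1 h2 ω, fun w h1 h2 ω ω' hω hω' e => ?_⟩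
  · exact (h.mono w wb h1 h2 le_rfl).trans hD
  · exact h.near w h1 h2 ω (hpos ω hω).1
  · exact h.det h1 h2 ω ω' (hpos ω hω).2 (hpos ω' hω').2 e

/-- A side label in the frames of helper10's theorem. -/
theorem Rc_cnd {p : F.Ω → ℝ} {D : ℕ} {al : F.Ω → ℝ} (h : Rc F p σ wa wb vp D a s t al)
    (Th : F.Ω → K) : Rc (F.cnd Th) p σ wa wb vp D a s t al := by
  refine ⟨h.law, h.inj, h.wJ, h.mono, h.vD, h.near, h.grid, fun w h1 h2 ω ω' hω hω' e => ?_⟩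
  refine h.det w h1 h2 ω ω' hω hω' ?_
  have e1 := Prod.ext_iff.mp e
  have e2 := Prod.ext_iff.mp e1.2
  exact Prod.ext e1.1 (Prod.ext (Prod.ext_iff.mp e2.1).2 e2.2)

end side

end Pool.UST
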