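import Pool.Agent.H2.UST.Row
import Pool.Agent.H2.UST.Side
import Pool.Agent.H77.S6C.UV2

/-!
# Row A: the frames from the hypotheses of `RDf`, the deficit on a large event, the levels

`uf0_row`: the frames without the labels of the slopes, from helper77's `PkL`, `NSt`, `OwnS`.
`vdf_split`, `vdf_split'`: the deficits given `A` and given a part `B` of `A` with a small
complement. `vp_lin`: on a fine mesh the levels `rot (u i) - e` are linear up to a small error.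
-/

set_option autoImplicit false

namespace Pool.UST

open Finset Real
open Pool.Agent.H49.Ent Pool.Agent.H32.Dense Pool.STK Pool.KA Pool.KSAT Pool.K2S Pool.PB
  Pool.S6C Pool.KS6 Pool.S6V

section row

variable {J : ℕ} {F : Fam 3 J} {A : F.Ω → Prop} {ς : Fin 3 → Fin 3}

/-- **The frames from the hypotheses of `RDf`.** -/
theorem uf0_row (hς : Function.Injective ς) {w lam P K H L : ℕ} {C : ℝ} (hC : 1 ≤ C) {Λ : Type}
    {κ : F.Ω → Λ} {pl : Λ → Pln} {al : F.Ω → ℝ} (h1 : PkL F A ς w lam P C κ pl)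
    (h2 : NSt F A ς K H C κ pl) (h3 : OwnS F A ς L C al) :
    ∃ (al' nu k b : (Fin 3 → ℤ) × (ℕ × F.ζ) → ℝ) (κ' : F.Ω → Λ) (s t : F.Ω → ℝ),
      Uf0 F A ς w K L H al' nu k b s t (C + 4) C ∧
      (∀ ω, A ω → al ω = al' (Fam.pt F ω)) ∧ (∀ ω, A ω → κ ω = κ' ω) ∧ SLb F A w κ' ∧
      (∀ ω, s ω = -(pl (κ' ω)).s) ∧ (∀ ω, t ω = -(pl (κ' ω)).c) := by
  obtain ⟨φ, hφ⟩ := h1.pt
  obtain ⟨ψ, hψ⟩ := h1.sl
  obtain ⟨b, k, hbk⟩ := h2
  obtain ⟨al', hal'⟩ := h3.pt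
  obtain ⟨nu, hnu⟩ := h3.on
  have hdet : Det F.p (slam F w) (fun ω => ψ (slam F w ω)) := fun ω ω' _ _ e => by
    simp only [e]
  refine ⟨al', nu, k, b, fun ω => ψ (slam F w ω), fun ω => -(pl (ψ (slam F w ω))).s,
    fun ω => -(pl (ψ (slam F w ω))).c, ?_, hal', hψ, ⟨hdet, ?_⟩, fun _ => rfl, fun _ => rfl⟩
  · refine ⟨Finite.injective_iff_bijective.1 hς, by linarith, hC, fun ω hω => ?_, fun ω hω => ?_,
      fun ω hω => ?_, fun ω hω => ?_, fun ω hω => (hbk ω hω).2, fun ω ω' hω hω' e => ?_, ?_⟩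
    · rw [← hal' ω hω]
      exact (hnu ω hω).trans (div_le_div_of_nonneg_right (by linarith) (by positivity))
    · have h4 := (hbk ω hω).1
      rw [hψ ω hω] at h4
      have e1 : F.d ω (ς 2) - -(pl (ψ (slam F w ω))).s * F.d ω (ς 1) -
          -(pl (ψ (slam F w ω))).c * F.d ω (ς 0) - b (Fam.pt F ω) -
          k (Fam.pt F ω) * F.d ω (ς 0) =
          fn (ς 0) (ς 1) (ς 2) (pl (ψ (slam F w ω))).c (pl (ψ (slam F w ω))).s (F.d ω) -
          b (Fam.pt F ω) - k (Fam.pt F ω) * F.d ω (ς 0) := by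
        unfold fn
        ring
      rw [e1]
      exact h4.trans (div_le_div_of_nonneg_right (by linarith) (by positivity))
    · rw [← hal' ω hω]
      exact (h3.bd ω hω).trans (by linarith)
    · have h4 := h1.inc ω hω
      rw [hψ ω hω] at h4
      rw [abs_neg, abs_neg]
      exact ⟨h4.s_le.trans (by linarith), h4.c_le.trans (by linarith)⟩
    · simp only [e]
    · refine ⟨fun u => (-(pl (φ u)).s, -(pl (φ u)).c), fun ω hω => ?_⟩
      rw [← hψ ω hω, hφ ω hω]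
  · intro ω ω' hω hω' e
    rw [← hψ ω hω, ← hψ ω' hω', hφ ω hω, hφ ω' hω', e]

/-! ### The deficit given a large part of an event -/

theorem Pe_mono_sub {Ω : Type} [Fintype Ω] {p : Ω → ℝ} (hp : ∀ ω, 0 ≤ p ω) {A B : Ω → Prop}
    (h : Sub B A) : Pe p B ≤ Pe p A := by
  classical
  rw [Pe_eq, Pe_eq]
  refine Finset.sum_le_sum fun ω _ => ?_
  by_cases hB : B ω
  · rw [if_pos hB, if_pos (h ω hB)]
  · rw [if_neg hB]
    split_ifs
    · exact hp ω
    · exact le_rfl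

variable {B : F.Ω → Prop} {a s t : F.Ω → ℝ} {τ : Type}

/-- **From the part to the event.** -/
theorem vdf_split (hς : Function.Bijective ς) (hs : Sub B A) (hB : 0 < Pe F.p B) {r U N : ℕ}
    {M ε : ℝ} (hM : 1 ≤ M) (hr : r ≤ N) (hU : U ≤ N)
    (hb : ∀ ω, B ω → |a ω| ≤ M ∧ |s ω| ≤ M ∧ |t ω| ≤ M) (hε0 : 0 ≤ ε)
    (hε : Pe F.p (fun ω => A ω ∧ ¬ B ω) ≤ ε * Pe F.p A) (Θ : F.Ω → τ) :
    F.vdf (Pool.Agent.H49.Ent.cond F.p A True) ς r U N a s t Θ ≤
      F.vdf (Pool.Agent.H49.Ent.cond F.p B True) ς r U N a s t Θ +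
        ε * (2 * N * Real.log 2 + Vd.K2 M) := by
  have hp := F.isLaw
  have hA : 0 < Pe F.p A := lt_of_lt_of_le hB (Pe_mono_sub hp.nonneg hs)
  have hlB := isLaw_cond hp hB
  obtain ⟨X, hX⟩ : ∃ X, X = F.X N := ⟨_, rfl⟩
  obtain ⟨Y, hY⟩ : ∃ Y, Y = fun ω => (F.sbx ς r U N a s t ω, Θ ω) := ⟨_, rfl⟩
  have k1 := CH_split_ge hp hs hA X Y
  have k2 := Pe_parts (p := F.p) hs
  have k3 : CH (Pool.Agent.H49.Ent.cond F.p B True) X Y ≤
      (((N : ℝ) - r) + ((N : ℝ) - U)) * Real.log 2 + Vd.K2 M := by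
    rw [hX, hY]
    refine Vd.CH_X_le hlB hς hM hr hU (fun ω hω => hb ω ?_) Θ
    have := ((cond_pos_iff hp.nonneg B True ω).1 hω).2
    simpa using this
  have hl2 : 0 < Real.log 2 := Real.log_pos (by norm_num)
  have k4 : (((N : ℝ) - r) + ((N : ℝ) - U)) * Real.log 2 ≤ 2 * N * Real.log 2 := by
    refine mul_le_mul_of_nonneg_right ?_ hl2.le
    have h1 : (0 : ℝ) ≤ r := Nat.cast_nonneg _
    have h2 : (0 : ℝ) ≤ U := Nat.cast_nonneg _
    linarith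
  have k5 := CH_nonneg hlB.nonneg X Y
  have k7 : 0 ≤ Pe F.p (fun ω => A ω ∧ ¬ B ω) *
      CH (Pool.Agent.H49.Ent.cond F.p (fun ω => A ω ∧ ¬ B ω) True) X Y := by
    refine mul_nonneg (Pe_nonneg hp _) (CH_nonneg ?_ X Y)
    exact cond_nonneg hp.nonneg _ _
  obtain ⟨h, hh⟩ : ∃ h, h = CH (Pool.Agent.H49.Ent.cond F.p B True) X Y := ⟨_, rfl⟩
  rw [← hh] at k1 k3 k5
  have k6 : (1 - ε) * h ≤ CH (Pool.Agent.H49.Ent.cond F.p A True) X Y := by
    have h1 : (1 - ε) * Pe F.p A ≤ Pe F.p B := by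
      linarith
    have h2 : (1 - ε) * Pe F.p A * h ≤ Pe F.p B * h := mul_le_mul_of_nonneg_right h1 k5
    have h3 : Pe F.p A * ((1 - ε) * h) ≤
        Pe F.p A * CH (Pool.Agent.H49.Ent.cond F.p A True) X Y := by
      have : Pe F.p A * ((1 - ε) * h) = (1 - ε) * Pe F.p A * h := by ring
      rw [this]
      linarith
    exact le_of_mul_le_mul_left h3 hA
  unfold Fam.vdf
  rw [← hX, ← hY, ← hh]
  have k8 : ε * h ≤ ε * (2 * N * Real.log 2 + Vd.K2 M) :=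
    mul_le_mul_of_nonneg_left (by linarith) hε0
  linarith

/-- **From the event to the part.** -/
theorem vdf_split' (hς : Function.Bijective ς) (hs : Sub B A) (hB : 0 < Pe F.p B) {r U N : ℕ}
    {M ε : ℝ} (hM : 1 ≤ M) (hr : r ≤ N) (hU : U ≤ N)
    (hb : ∀ ω, A ω → |a ω| ≤ M ∧ |s ω| ≤ M ∧ |t ω| ≤ M) (hε0 : 0 ≤ ε)
    (hε : Pe F.p (fun ω => A ω ∧ ¬ B ω) ≤ ε * Pe F.p A) (Θ : F.Ω → τ) :
    F.vdf (Pool.Agent.H49.Ent.cond F.p B True) ς r U N a s t Θ ≤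
      F.vdf (Pool.Agent.H49.Ent.cond F.p A True) ς r U N a s t Θ +
        (Vd.K2 M + Real.log 2) + ε * (2 * N * Real.log 2) := by
  have hp := F.isLaw
  have hA : 0 < Pe F.p A := lt_of_lt_of_le hB (Pe_mono_sub hp.nonneg hs)
  have hlA := isLaw_cond hp hA
  have hlB := isLaw_cond hp hB
  have hAω : ∀ ω, 0 < Pool.Agent.H49.Ent.cond F.p A True ω → A ω := by
    intro ω hω
    have := ((cond_pos_iff hp.nonneg A True ω).1 hω).2
    simpa using this
  have k1 := Vd.vdf_event (σ := ς) (a := a) (s := s) (t := t) hlA hς hM hr hU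
    (fun ω hω => hb ω (hAω ω hω)) Θ B
  have e1 : Pool.Agent.H49.Ent.cond (Pool.Agent.H49.Ent.cond F.p A True) B True =
      Pool.Agent.H49.Ent.cond F.p B True := Piece.cond_cond hs hA.ne'
  have e2 : Pe (Pool.Agent.H49.Ent.cond F.p A True) B = Pe F.p B / Pe F.p A := by
    rw [Pe_cond]
    congr 2
    funext ω
    exact propext ⟨fun h => h.2, fun h => ⟨hs ω h, h⟩⟩
  rw [e1, e2] at k1
  have k2 := Pe_parts (p := F.p) hs
  obtain ⟨V, hV⟩ : ∃ V, V = F.vdf (Pool.Agent.H49.Ent.cond F.p B True) ς r U N a s t Θ :=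
    ⟨_, rfl⟩
  rw [← hV] at k1 ⊢
  have hl2 : 0 < Real.log 2 := Real.log_pos (by norm_num)
  have k3 : V ≤ 2 * N * Real.log 2 := by
    rw [hV]
    refine (Vd.vdf_le hlB Θ).trans (mul_le_mul_of_nonneg_right ?_ hl2.le)
    have h1 : (0 : ℝ) ≤ r := Nat.cast_nonneg _
    have h2 : (0 : ℝ) ≤ U := Nat.cast_nonneg _
    linarith
  have k0 : 0 ≤ 2 * (N : ℝ) * Real.log 2 := by positivity
  have k4 : 1 - ε ≤ Pe F.p B / Pe F.p A := by
    rw [le_div_iff₀ hA]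
    linarith
  have k5 : Pe F.p B / Pe F.p A ≤ 1 := by
    rw [div_le_one hA]
    exact Pe_mono_sub hp.nonneg hs
  have k6 : (1 - Pe F.p B / Pe F.p A) * V ≤ ε * (2 * N * Real.log 2) := by
    rcases le_total 0 V with h | h
    · exact mul_le_mul (by linarith) k3 h hε0
    · have h1 : (1 - Pe F.p B / Pe F.p A) * V ≤ 0 :=
        mul_nonpos_of_nonneg_of_nonpos (by linarith) h
      have h2 : 0 ≤ ε * (2 * N * Real.log 2) := mul_nonneg hε0 k0
      linarith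
  have e3 : V = Pe F.p B / Pe F.p A * V + (1 - Pe F.p B / Pe F.p A) * V := by ring
  linarith

/-- The deficit depends only on the values on the support. -/
theorem vdf_congr {p : F.Ω → ℝ} (hp : ∀ ω, 0 ≤ p ω) {r U N : ℕ} {a' s' t' : F.Ω → ℝ} {τ' : Type}
    {Θ : F.Ω → τ} {Θ' : F.Ω → τ'} (h1 : ∀ ω, 0 < p ω → a ω = a' ω ∧ s ω = s' ω ∧ t ω = t' ω)
    (h2 : ∀ ω ω', 0 < p ω → 0 < p ω' → (Θ ω = Θ ω' ↔ Θ' ω = Θ' ω')) :
    F.vdf p ς r U N a s t Θ = F.vdf p ς r U N a' s' t' Θ' := by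
  have key : ∀ ω, 0 < p ω → F.sbx ς r U N a s t ω = F.sbx ς r U N a' s' t' ω := by
    intro ω hω
    obtain ⟨e1, e2, e3⟩ := h1 ω hω
    unfold Fam.sbx
    rw [e1, e2, e3]
  unfold Fam.vdf
  congr 1
  refine CH_congr hp (fun _ _ _ _ e => (Prod.ext_iff.mp e).1)
    (fun _ _ _ _ e => (Prod.ext_iff.mp e).1) ?_ ?_
  · intro ω ω' hω hω' e
    have e1 := Prod.ext_iff.mp e
    have e2 : F.sbx ς r U N a s t ω = F.sbx ς r U N a s t ω' := e1.1
    rw [key ω hω, key ω' hω'] at e2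
    exact Prod.ext e2 ((h2 ω ω' hω hω').1 e1.2)
  · intro ω ω' hω hω' e
    have e1 := Prod.ext_iff.mp e
    have e2 : F.sbx ς r U N a' s' t' ω = F.sbx ς r U N a' s' t' ω' := e1.1
    rw [← key ω hω, ← key ω' hω'] at e2
    exact Prod.ext e2 ((h2 ω ω' hω hω').2 e1.2)

end row

end Pool.UST
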