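import Pool.Agent.H2.UST.Fr
import Pool.Agent.H10.S6U.Main

/-!
# The local U-step in a class: statements

The contexts are `F.blb w (cv (vp w) kap q) (frm σ (a w) s t)` (helper10), the frames are `UFr`.
-/

set_option autoImplicit false

namespace Pool.UST

open Finset Real
open Pool.Agent.H49.Ent Pool.Agent.H32.Dense Pool.STK Pool.KA Pool.KSAT Pool.K2S Pool.PB
  Pool.S6U Pool.S6C

/-- The levels of the contexts are in the range of the frames, with the room `ro`. -/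
structure Room {J : ℕ} (wb : ℕ) (vp : ℕ → ℕ) (kap Hu HN q : ℕ) (ro : ℝ) : Prop where
  u : (vp wb : ℝ) + q + ro ≤ Hu
  n : (kap : ℝ) + q + ro ≤ HN
  uJ : (wb : ℝ) + vp wb + q + ro ≤ J
  nJ : (wb : ℝ) + kap + q + ro ≤ J

/-- The activity grows at least with slope `ca` between `q₁` and `q₂`, up to `e`. -/
def ActG (act : ℚ → ℝ) (q₁ q₂ ca e : ℝ) : Prop :=
  ∀ q q' : ℚ, q₁ ≤ q → q ≤ q' → (q' : ℝ) ≤ q₂ → ca * (q' - q) - e ≤ act q' - act q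

/-- **(WF2)** The rows of the base position are full in all contexts. -/
def WF2Stmt : Prop :=
  ∀ (S : PCl 3) (a₁ R : ℝ) (i₀ : Fin 3) (act : ℚ → ℝ),
    (∀ (τ : ℝ) (J : ℕ) (F : Fam 3 J) (A : F.Ω → Prop), S.St τ J F A → Fam.Stt F a₁ R τ A) →
    ActN S i₀ act → ∀ (q₁ q₂ ca η : ℝ), 0 ≤ q₁ → q₁ < q₂ → q₂ + η ≤ 1 → 0 < ca → 0 < η →
    ActG act q₁ (q₂ + η) ca (ca * η / 16) → ∀ B C : ℝ,
    Clp S (fun J F A => ∀ (σ : Fin 3 → Fin 3) (wl wa wb : ℕ) (vp : ℕ → ℕ) (kap Hu HN : ℕ)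
      (al nu k b : (Fin 3 → ℤ) × (ℕ × F.ζ) → ℝ) (a : ℕ → F.Ω → ℝ) (s t : F.Ω → ℝ),
      UFr F A σ wl wa wb vp kap Hu HN al nu k b a s t B C → σ 0 = i₀ →
      ∀ w q X' : ℕ, wa ≤ w → w ≤ wb → q₁ * J ≤ q → (q : ℝ) + X' ≤ q₂ * J →
      Room (J := J) wb vp kap Hu HN q (η * J) → w + q + X' ≤ J →
      X' * Real.log 2 - η * J ≤ CH (Pool.Agent.H49.Ent.cond F.p A True)
        (Uni.dg X' (fun ω => F.mx w (cv (vp w) kap q) (frm σ (a w) s t) ω 0))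
        (fun ω => (F.blb w (cv (vp w) kap q) (frm σ (a w) s t) ω, F.T ω)))

/-- **(ACT2)** The velocities are active in all contexts. -/
def ACT2Stmt : Prop :=
  ∀ (S : PCl 3) (a₁ R : ℝ) (i₀ : Fin 3) (act : ℚ → ℝ),
    (∀ (τ : ℝ) (J : ℕ) (F : Fam 3 J) (A : F.Ω → Prop), S.St τ J F A → Fam.Stt F a₁ R τ A) →
    ActN S i₀ act → (∀ q q' : ℚ, 0 ≤ q → q ≤ q' → q' ≤ 1 → act q ≤ act q') →
    ∀ (q₁ q₂ ca η : ℝ), 0 ≤ q₁ → q₁ < q₂ → q₂ ≤ 1 → 0 < ca → 0 < η →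
    ActG act q₁ q₂ ca (η / 16) → ∀ B C : ℝ,
    Clp S (fun J F A => ∀ (σ : Fin 3 → Fin 3) (wl wa wb : ℕ) (vp : ℕ → ℕ) (kap Hu HN : ℕ)
      (al nu k b : (Fin 3 → ℤ) × (ℕ × F.ζ) → ℝ) (a : ℕ → F.Ω → ℝ) (s t : F.Ω → ℝ),
      UFr F A σ wl wa wb vp kap Hu HN al nu k b a s t B C → σ 0 = i₀ →
      ∀ w q X' : ℕ, wa ≤ w → w ≤ wb → q₁ * J ≤ q → (q : ℝ) + X' ≤ q₂ * J →
      Room (J := J) wb vp kap Hu HN q 0 →
      (ca * X' - η * J) * Real.log 2 ≤ CH (Pool.Agent.H49.Ent.cond F.p A True)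
        (Uni.dg X' (fun ω => F.md (cv (vp w) kap q) (frm σ (a w) s t) ω 0))
        (F.blb w (cv (vp w) kap q) (frm σ (a w) s t)))

/-- **(H62)** The slopes of two samples of a label `wn` are not close, if `wn` is a function of the
window and determines the frame. `rt` is the number `rot`. -/
def H62Stmt : Prop :=
  ∀ (S : PCl 3) (a₁ R : ℝ) (i₀ : Fin 3) (rt : ℚ → ℝ),
    (∀ (τ : ℝ) (J : ℕ) (F : Fam 3 J) (A : F.Ω → Prop), S.St τ J F A → Fam.Stt F a₁ R τ A) →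
    (∀ w : ℚ, 0 ≤ w → w ≤ 1 → PNum S (capS 1 (qRot i₀ 1 w)) (rt w)) →
    ∀ (w₁ w₂ : ℚ) (h ε : ℝ), 0 ≤ w₁ → w₁ < w₂ → w₂ ≤ 1 → 0 < h → 0 < ε →
    (∀ w : ℚ, w₁ ≤ w → w ≤ w₂ → 0 ≤ rt w ∧ rt w + h ≤ 1) → ∀ B C : ℝ,
    Clp S (fun J F A => ∀ (σ : Fin 3 → Fin 3) (wl wa wb : ℕ) (vp : ℕ → ℕ) (kap Hu HN : ℕ)
      (al nu k b : (Fin 3 → ℤ) × (ℕ × F.ζ) → ℝ) (a : ℕ → F.Ω → ℝ) (s t : F.Ω → ℝ),
      UFr F A σ wl wa wb vp kap Hu HN al nu k b a s t B C → σ 0 = i₀ →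
      ∀ (w D : ℕ) (V : Type) (wn : F.Ω → V) (x : ℝ), wa ≤ w → w ≤ wb →
      Det F.p (slam F w) wn →
      (∀ ω ω', A ω → A ω' → 0 < F.p ω → 0 < F.p ω' → wn ω = wn ω' →
        a w ω = a w ω' ∧ s ω = s ω' ∧ t ω = t ω') →
      (w₁ : ℝ) * J ≤ w → w + h * J ≤ w₂ * J →
      (∀ wg : ℚ, (w : ℝ) ≤ wg * J → wg * J ≤ w + h * J → w₁ ≤ wg → wg ≤ w₂ →
        rt wg * J + 2 * h * J ≤ vp w + x ∧ rt wg * J + 2 * h * J ≤ D ∧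
        rt wg * J + 2 * h * J ≤ kap ∧ rt wg * J + 2 * h * J ≤ Hu ∧
        rt wg * J + 2 * h * J ≤ HN) →
      Pool.KAF.Pr (dbl (Pool.Agent.H49.Ent.cond F.p A True) wn)
        {v | |sl (vp w) D (a w) (fun ω => al (Fam.pt F ω)) v.1 -
          sl (vp w) D (a w) (fun ω => al (Fam.pt F ω)) v.2| < (2 : ℝ) ^ (-x)} ≤ ε)

end Pool.UST
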