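import Pool.Agent.H64.KS6.WfeC
import Pool.Agent.H42.PB.Ext

/-!
# Contexts whose normal velocity is straight in the direction of the plank normals

The velocity level `P - w` of the normal coordinate may exceed the straightness of the fans; only
the straightness in the direction of the normal `(- t, - s, 1)` is used.
-/

set_option autoImplicit false

namespace Pool.UST

open Finset Real
open Pool.Agent.H49.Ent Pool.Agent.H32.Dense Pool.STK Pool.KA Pool.KA.Win Pool.KA.TRC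
  Pool.K2S Pool.K2S.Rows Pool.K2S.FF Pool.PB Pool.S6K.Wfe

variable {J : ℕ}

/-- The conditions on a context `B(w; w + q, U, P)` with the frame `(a, s, t)`. At exact points the
velocities are `d_u = al d_e + nu` up to `U - w` digits, and `d_N - s d_u - t d_e = k d_e + b` up
to `P - w` digits. -/
structure VOK (F : Fam 3 J) (A : F.Ω → Prop) (σ : Fin 3 → Fin 3) (w q U P : ℕ)
    (al nu k b : (Fin 3 → ℤ) × (ℕ × F.ζ) → ℝ) (a s t : F.Ω → ℝ) (B C δ : ℝ) : Prop where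
  wU : w ≤ U
  wP : w ≤ P
  qJ : w + q ≤ J
  UJ : U ≤ J
  PJ : P ≤ J
  on1 : ∀ ω, A ω → |F.d ω (σ 1) - al (Fam.pt F ω) * F.d ω (σ 0) - nu (Fam.pt F ω)| ≤
    B / 2 ^ (U - w)
  on2 : ∀ ω, A ω → |F.d ω (σ 2) - s ω * F.d ω (σ 1) - t ω * F.d ω (σ 0) - b (Fam.pt F ω) -
    k (Fam.pt F ω) * F.d ω (σ 0)| ≤ B / 2 ^ (P - w)
  bal : ∀ ω, A ω → |al (Fam.pt F ω)| ≤ B
  bd : ∀ ω, A ω → |a ω| ≤ B ∧ |s ω| ≤ B ∧ |t ω| ≤ B
  an1 : ∀ ω, A ω → |al (Fam.pt F ω) - a ω| ≤ C / 2 ^ (U - w - q)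
  an2 : ∀ ω, A ω → |k (Fam.pt F ω)| ≤ C / 2 ^ (P - w - q)
  det : Det F.p (wnd F w) (fun ω => (a ω, s ω, t ω))
  vis : ∀ B' : F.Ω → Prop, Sub B' A → 0 < Pe F.p B' →
    CH (Pool.Agent.H49.Ent.cond F.p B' True) (fun ω => (a ω, s ω, t ω)) (ptq F (σ 0) q) ≤ δ

/-- The constant of visibility. -/
noncomputable def visC (B C : ℝ) : ℝ :=
  2 * ((3 : ℕ) * Real.log (2 * ((3 : ℕ) * (|C| + 1) * (2 * ((3 : ℕ) * (3 * (2 * |B| + |C| + 1)) +
    (3 * (2 * |B| + |C| + 1))))) + 3))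

theorem pow_lvl {C : ℝ} {w q U : ℕ} : C / (2 : ℝ) ^ (U - w - q) ≤ (|C| + 1) * 2 ^ (w + q) / 2 ^ U := by
  have h1 : C / (2 : ℝ) ^ (U - w - q) ≤ |C| / (2 : ℝ) ^ (U - w - q) :=
    div_le_div_of_nonneg_right (le_abs_self C) (by positivity)
  refine h1.trans ?_
  rw [div_le_div_iff₀ (by positivity) (by positivity)]
  have h2 : (2 : ℝ) ^ U ≤ 2 ^ (w + q) * 2 ^ (U - w - q) := by
    rw [← pow_add]
    exact pow_le_pow_right₀ (by norm_num) (by omega)
  have h3 : 0 ≤ |C| := abs_nonneg C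
  calc |C| * 2 ^ U ≤ |C| * (2 ^ (w + q) * 2 ^ (U - w - q)) := mul_le_mul_of_nonneg_left h2 h3
    _ ≤ (|C| + 1) * 2 ^ (w + q) * 2 ^ (U - w - q) := by
        have h4 : (0 : ℝ) ≤ 2 ^ (w + q) * 2 ^ (U - w - q) := by positivity
        nlinarith

/-- **(U-VIS)** The context is visible from the exact point and `q` digits of the base velocity. -/
theorem VOK.ctx_vis {F : Fam 3 J} {A : F.Ω → Prop} {σ : Fin 3 → Fin 3} {w q U P : ℕ}
    {al nu k b : (Fin 3 → ℤ) × (ℕ × F.ζ) → ℝ} {a s t : F.Ω → ℝ} {B C δ : ℝ}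
    (h : VOK F A σ w q U P al nu k b a s t B C δ) (B' : F.Ω → Prop) (hB' : Sub B' A)
    (hB0 : 0 < Pe F.p B') :
    CH (Pool.Agent.H49.Ent.cond F.p B' True) (F.ctx σ w (w + q) U P a s t) (ptq F (σ 0) q) ≤
      δ + visC B C := by
  have hlB := isLaw_cond F.isLaw hB0
  have h0 := hlB.nonneg
  have hpos : ∀ ω, 0 < Pool.Agent.H49.Ent.cond F.p B' True ω → A ω := by
    intro ω hω
    have := ((cond_pos_iff F.isLaw.nonneg B' True ω).1 hω).2
    exact hB' ω (by simpa using this)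
  have k1 := CH_le_add h0 (F.ctx σ w (w + q) U P a s t) (fun ω => (a ω, s ω, t ω))
    (ptq F (σ 0) q)
  have k2 := h.vis B' hB' hB0
  have hBa := le_abs_self B
  have hCa := le_abs_self C
  have hB1 := abs_nonneg B
  have hC1 := abs_nonneg C
  have hwq := h.qJ
  have k3 := Box.CH_ctx_of_pt (F := F) (p := Pool.Agent.H49.Ent.cond F.p B' True) (σ := σ)
    (a := a) (s := s) (t := t) hlB (w := w) (r := w + q) (U := U) (P := P) (by omega) (by omega)
    h.wU h.wP h.qJ h.UJ h.PJ (α := fun ω => al (Fam.pt F ω)) (s₀ := s)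
    (t₀ := fun ω => t ω + k (Fam.pt F ω)) (B := 2 * |B| + |C| + 1) (D := |C| + 1)
    (by linarith) (by linarith)
    (by
      intro ω hω
      obtain ⟨b1, b2, b3⟩ := h.bd ω (hpos ω hω)
      refine ⟨?_, ?_, ?_⟩
      · have := h.bal ω (hpos ω hω)
        linarith
      · linarith
      · have c1 := h.an2 ω (hpos ω hω)
        have c2 : C / (2 : ℝ) ^ (P - w - q) ≤ |C| := by
          refine (div_le_div_of_nonneg_right hCa (by positivity)).trans ?_
          exact div_le_self hC1 (one_le_pow₀ (by norm_num))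
        have c3 := abs_add_le (t ω) (k (Fam.pt F ω))
        linarith)
    (by
      intro ω hω
      refine ⟨?_, ?_, ?_⟩
      · rw [abs_sub_comm]
        exact (h.an1 ω (hpos ω hω)).trans pow_lvl
      · rw [sub_self, abs_zero]
        positivity
      · have e : t ω - (t ω + k (Fam.pt F ω)) + (s ω - s ω) * al (Fam.pt F ω) =
          -k (Fam.pt F ω) := by ring
        rw [e, abs_neg]
        exact (h.an2 ω (hpos ω hω)).trans pow_lvl)
    (fun ω => ((a ω, s ω, t ω), ptq F (σ 0) q ω))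
    (by
      intro ω ω' hω hω' e
      have e1 := Prod.ext_iff.mp e
      have e2 := Prod.ext_iff.mp e1.1
      have e3 := Prod.ext_iff.mp e2.2
      have e4 := Prod.ext_iff.mp e1.2
      have ea : a ω = a ω' := e2.1
      have es : s ω = s ω' := e3.1
      have et : t ω = t ω' := e3.2
      have ept : Fam.pt F ω = Fam.pt F ω' := e4.1
      have ed : ⌊(2 : ℝ) ^ q * F.d ω (σ 0)⌋ = ⌊(2 : ℝ) ^ q * F.d ω' (σ 0)⌋ := e4.2
      have eX : F.X J ω = F.X J ω' := (Prod.ext_iff.mp ept).1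
      have eW : F.W ω = F.W ω' := (Prod.ext_iff.mp ept).2
      refine ⟨eX, eW, ⟨?_, es, ?_⟩, ⟨ea, es, et⟩, ?_, ?_, ?_⟩
      · simp only [ept]
      · simp only [ept, et]
      · have e5 := Box.near_of_floor ed
        have e6 : w + q - w = q := by omega
        rw [e6]
        refine e5.trans (div_le_div_of_nonneg_right (by linarith) (by positivity))
      · have c1 := h.on1 ω (hpos ω hω)
        have c2 := h.on1 ω' (hpos ω' hω')
        rw [← ept] at c2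
        have e7 : (F.d ω (σ 1) - al (Fam.pt F ω) * F.d ω (σ 0)) -
            (F.d ω' (σ 1) - al (Fam.pt F ω) * F.d ω' (σ 0)) =
            (F.d ω (σ 1) - al (Fam.pt F ω) * F.d ω (σ 0) - nu (Fam.pt F ω)) -
            (F.d ω' (σ 1) - al (Fam.pt F ω) * F.d ω' (σ 0) - nu (Fam.pt F ω)) := by ring
        rw [e7]
        refine (abs_sub _ _).trans ?_
        have e8 : B / (2 : ℝ) ^ (U - w) + B / 2 ^ (U - w) = 2 * B / 2 ^ (U - w) := by ring
        have e9 : 2 * B / (2 : ℝ) ^ (U - w) ≤ (2 * |B| + |C| + 1) / 2 ^ (U - w) :=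
          div_le_div_of_nonneg_right (by linarith) (by positivity)
        linarith
      · have c1 := h.on2 ω (hpos ω hω)
        have c2 := h.on2 ω' (hpos ω' hω')
        rw [← ept, ← es, ← et] at c2
        have e7 : (F.d ω (σ 2) - s ω * F.d ω (σ 1) - (t ω + k (Fam.pt F ω)) * F.d ω (σ 0)) -
            (F.d ω' (σ 2) - s ω * F.d ω' (σ 1) - (t ω + k (Fam.pt F ω)) * F.d ω' (σ 0)) =
            (F.d ω (σ 2) - s ω * F.d ω (σ 1) - t ω * F.d ω (σ 0) - b (Fam.pt F ω) -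
              k (Fam.pt F ω) * F.d ω (σ 0)) -
            (F.d ω' (σ 2) - s ω * F.d ω' (σ 1) - t ω * F.d ω' (σ 0) - b (Fam.pt F ω) -
              k (Fam.pt F ω) * F.d ω' (σ 0)) := by ring
        rw [e7]
        refine (abs_sub _ _).trans ?_
        have e8 : B / (2 : ℝ) ^ (P - w) + B / 2 ^ (P - w) = 2 * B / 2 ^ (P - w) := by ring
        have e9 : 2 * B / (2 : ℝ) ^ (P - w) ≤ (2 * |B| + |C| + 1) / 2 ^ (P - w) :=
          div_le_div_of_nonneg_right (by linarith) (by positivity)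
        linarith)
  unfold visC
  linarith

/-- The context determines the linear label. -/
theorem lab_of_ctx {F : Fam 3 J} {σ : Fin 3 → Fin 3} {w r U P : ℕ} (hU : w ≤ U) (hP : w ≤ P)
    {a s t : F.Ω → ℝ} {ω ω' : F.Ω} (h : F.ctx σ w r U P a s t ω = F.ctx σ w r U P a s t ω') :
    lab F w ![U, P] ![U - w, P - w] (zab σ a s t) (fun _ => ()) ω =
      lab F w ![U, P] ![U - w, P - w] (zab σ a s t) (fun _ => ()) ω' := by
  obtain ⟨h1, h2, h3, h4, h5⟩ := Box.mlb_ext (F := F) (g := w)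
    (M := fun o => tfr σ (a o) (s o) (t o)) h
  have hz : zab σ a s t ω = zab σ a s t ω' := by
    funext i
    exact congrFun h2 i.succ
  unfold lab
  refine Prod.ext (Prod.ext (Prod.ext h1 (Prod.ext hz rfl)) (Prod.ext ?_ ?_)) h5
  · funext i
    have h6 := congrFun h3 i.succ
    have e4 : vpr w r U P i.succ + w = (![U, P] : Fin 2 → ℕ) i := by
      fin_cases i
      · exact Nat.sub_add_cancel hU
      · exact Nat.sub_add_cancel hP
    change ⌊(2 : ℝ) ^ (vpr w r U P i.succ + w) * _⌋ =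
      ⌊(2 : ℝ) ^ (vpr w r U P i.succ + w) * _⌋ at h6
    rw [e4] at h6
    exact h6
  · funext i
    have h6 := congrFun h4 i.succ
    have e4 : vpr w r U P i.succ = (![U - w, P - w] : Fin 2 → ℕ) i := by
      fin_cases i <;> rfl
    change ⌊(2 : ℝ) ^ vpr w r U P i.succ * _⌋ =
      ⌊(2 : ℝ) ^ vpr w r U P i.succ * _⌋ at h6
    rw [e4] at h6
    exact h6

/-- **(U-WF)**, N-straight form, one family. -/
theorem ctx_wfe_one {η : ℝ} (hη : 0 < η) : ∃ γ : ℝ, 0 < γ ∧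
    ∀ B C δ κ : ℝ, 0 < κ → ∃ τ > 0, ∃ J₁ : ℕ, ∀ J ≥ J₁, ∀ (F : Fam 3 J) (A : F.Ω → Prop),
    F.Tr → F.Tm (τ * J) → F.Rb (τ * J) → Real.exp (-(τ * J)) ≤ Pe F.p A →
    ∀ (σ : Fin 3 → Fin 3) (w q x1 U P : ℕ), (x1 : ℝ) ≤ γ * J →
    Stb F.p (κ * J) A (FrzG F (σ 0) q (q + x1)) → ¬ FrzG F (σ 0) q (q + x1) A →
    ∀ (al nu k b : (Fin 3 → ℤ) × (ℕ × F.ζ) → ℝ) (a s t : F.Ω → ℝ),
    VOK F A σ w q U P al nu k b a s t B C δ →
    ∀ p : ℕ, w + q ≤ p → p ≤ J → ((p : ℝ) - (w + q : ℕ)) * Real.log 2 - η * J ≤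
      CH (Pool.Agent.H49.Ent.cond F.p A True) (fun ω => ⌊(2 : ℝ) ^ p * F.x ω (σ 0)⌋)
        (fun ω => (F.ctx σ w (w + q) U P a s t ω, F.T ω)) := by
  obtain ⟨γ, hγ, hfull⟩ := ws_cls (m := 3) hη
  refine ⟨γ, hγ, fun B C δ κ hκ => ?_⟩
  obtain ⟨τ, hτ, J₁, h1⟩ := hfull (δ + visC B C) κ hκ
  refine ⟨τ, hτ, J₁, fun J hJ F A hTr hTm hRb hPA σ w q x1 U P hx1 hFs hFn al nu k b a s t hC p
    hp hpJ => ?_⟩
  have hp0 := F.isLaw
  obtain ⟨n, hn⟩ := Nat.exists_eq_add_of_le hp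
  have key := h1 J hJ F A hTr hTm hRb hPA (σ 0) w q n x1 _
    (lab F w ![U, P] ![U - w, P - w] (zab σ a s t) (fun _ => ())) (by omega) hx1 hFs hFn
    (lab_det F (fun ω ω' hω hω' e => by
      have e1 := hC.det ω ω' hω hω' e
      have e2 := Prod.ext_iff.mp e1
      have e3 := Prod.ext_iff.mp e2.2
      have ea : a ω = a ω' := e2.1
      have es : s ω = s ω' := e3.1
      have et : t ω = t ω' := e3.2
      change (zab σ a s t ω, ()) = (zab σ a s t ω', ())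
      unfold zab
      rw [ea, es, et])) (by
      intro B' hB' hB0
      refine le_trans (CH_mono_left (isLaw_cond hp0 hB0).nonneg ?_) (hC.ctx_vis B' hB' hB0)
      intro ω ω' _ _ e
      exact lab_of_ctx hC.wU hC.wP (Prod.ext_iff.mp e).1)
  have hps : (p : ℝ) - ((w + q : ℕ) : ℝ) = n := by
    rw [hn]
    push_cast
    ring
  have e3 : q + w + n = p := by omega
  rw [hps]
  rw [e3] at key
  refine key.trans (CH_mono_cond (cond_nonneg hp0.nonneg A True) ?_)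
  intro ω ω' _ _ h
  have a1 := Prod.ext_iff.mp h
  have a2 := Prod.ext_iff.mp a1.2
  have a3 := Prod.ext_iff.mp a2.1
  have a4 := Prod.ext_iff.mp a2.2
  exact Prod.ext (ctx_of_lab hC.wU hC.wP a3.1 a3.2 a4.1) a1.1

/-- **(U-WF)**, N-straight form, in the classes with events. -/
theorem ctx_wfe_clp {η : ℝ} (hη : 0 < η) : ∃ γ : ℝ, 0 < γ ∧
    ∀ (S : PCl 3) (a R : ℝ), (∀ (τ : ℝ) (J : ℕ) (F : Fam 3 J) (A : F.Ω → Prop),
      S.St τ J F A → Fam.Stt F a R τ A) →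
    ∀ (q x : ℕ → ℕ), (∀ J : ℕ, (x J : ℝ) ≤ γ * J) → ∀ (σ : Fin 3 → Fin 3) (B C δ : ℝ),
    Clp S (fun J F A => ¬ FrzG F (σ 0) (q J) (q J + x J) A → ∀ (w U P : ℕ)
      (al nu k b : (Fin 3 → ℤ) × (ℕ × F.ζ) → ℝ) (a s t : F.Ω → ℝ),
      VOK F A σ w (q J) U P al nu k b a s t B C δ → ∀ p : ℕ, w + q J ≤ p → p ≤ J →
      ((p : ℝ) - (w + q J : ℕ)) * Real.log 2 - η * J ≤
        CH (Pool.Agent.H49.Ent.cond F.p A True) (fun ω => ⌊(2 : ℝ) ^ p * F.x ω (σ 0)⌋)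
          (fun ω => (F.ctx σ w (w + q J) U P a s t ω, F.T ω))) := by
  obtain ⟨γ, hγ, h1⟩ := ctx_wfe_one hη
  refine ⟨γ, hγ, fun S a R hSt q x hx σ B C δ => ?_⟩
  refine Clp.one ⟨1, fun J F _ => FrzG F (σ 0) (q J) (q J + x J),
    fun J F _ => FrzG.hered F (σ 0) _ _⟩ fun κ hκ => ?_
  obtain ⟨τ, hτ, J₁, k1⟩ := h1 B C δ κ hκ
  refine ⟨τ, hτ, J₁, fun J hJ F A hS hSb hnF w U P al nu k b a' s t hC p hp hpJ => ?_⟩
  obtain ⟨c1, c2, c3, c4⟩ := hSt τ J F A hS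
  exact k1 J hJ F A c1 c2.1 c3 c4 σ w (q J) (x J) U P (hx J) (hSb 0) hnF al nu k b a' s t hC p
    hp hpJ

end Pool.UST
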