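import Pool.Agent.H2.UST.Frames2
import Pool.Agent.H77.S6C.Row2
import Pool.Agent.H40.S6.Ev
import Pool.Agent.H24.S6D.Path

/-!
# UVLA from the row of one zone
-/

set_option autoImplicit false

namespace Pool.UST

open Finset Real
open Pool.Agent.H49.Ent Pool.Agent.H32.Dense Pool.STK Pool.KA Pool.KSAT Pool.K2S Pool.PB
  Pool.S6C Pool.KS6 Pool.S6V Pool.S6U

theorem ald_le {J : ℕ} {F : Fam 3 J} {D : ℕ} {al : F.Ω → ℝ} {ω : F.Ω} {M : ℝ} (h : |al ω| ≤ M) :
    |ald D al ω| ≤ M + 1 := by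
  have h1 : ald D al ω = (⌊(2 : ℝ) ^ D * al ω⌋ : ℝ) / 2 ^ D := rfl
  have h2 := Int.floor_le ((2 : ℝ) ^ D * al ω)
  have h3 := Int.lt_floor_add_one ((2 : ℝ) ^ D * al ω)
  have hp : (0 : ℝ) < 2 ^ D := by positivity
  have hp1 : (1 : ℝ) ≤ 2 ^ D := one_le_pow₀ (by norm_num)
  have h4 : |ald D al ω - al ω| ≤ 1 := by
    have e1 : ald D al ω - al ω = ((⌊(2 : ℝ) ^ D * al ω⌋ : ℝ) - 2 ^ D * al ω) / 2 ^ D := by
      rw [h1]
      field_simp
    rw [e1, abs_div, abs_of_pos hp, div_le_iff₀ hp, abs_le]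
    constructor <;> linarith
  have h5 := abs_sub_abs_le_abs_sub (ald D al ω) (al ω)
  linarith only [h, h4, h5]

/-- **One family.** -/
theorem fam_row {J : ℕ} {F : Fam 3 J} {A G : F.Ω → Prop} {ς : Fin 3 → Fin 3} {wl wa' wb' : ℕ}
    {vp : ℕ → ℕ} {kap Hu HN : ℕ} {al' nu kk b : (Fin 3 → ℤ) × (ℕ × F.ζ) → ℝ} {a : ℕ → F.Ω → ℝ}
    {s t : F.Ω → ℝ} {Λ : Type} {κ κ' : F.Ω → Λ} {pl : Λ → Pln} {al : F.Ω → ℝ} {C ε : ℝ}
    (hR : RowF F A G ς wl wa' wb' vp kap Hu HN al' nu kk b a s t κ κ' pl al C ε)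
    {wv lam P L' : ℕ} (hPk : PkL F A ς wv lam P C κ pl) (hOw : OwnS F A ς L' C al) (hC1 : 1 ≤ C)
    (hG : 0 < Pe F.p G) (hε : 0 ≤ ε) {wa wb m N Da Db : ℕ} {E X : ℝ}
    (hN1 : wa + Da + m ≤ N) (hN2 : wb + Db + m ≤ N) (ha : vp wa ≤ Da) (hb1 : vp wb ≤ Db)
    (hb2 : (Db : ℝ) ≤ vp wb + E)
    (hgr : F.vdf (Pool.Agent.H49.Ent.cond F.p G True) ς (wa + m) (wa + vp wa + m) N
        (ald Da fun ω => al' (Fam.pt F ω)) s t
        (fun ω => (Uni.dg Da (fun ω => al' (Fam.pt F ω)) ω, (κ' ω, F.W ω))) ≤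
      F.vdf (Pool.Agent.H49.Ent.cond F.p G True) ς (wb + m) (wb + vp wb + m) N
        (ald Db fun ω => al' (Fam.pt F ω)) s t
        (fun ω => (Uni.dg Db (fun ω => al' (Fam.pt F ω)) ω, (κ' ω, F.W ω))) + X) :
    F.vdf (Pool.Agent.H49.Ent.cond F.p A True) ς (wa + m) (wa + Da + m) N (ald Da al)
        (fun ω => -(pl (κ ω)).s) (fun ω => -(pl (κ ω)).c)
        (fun ω => (Uni.dg Da al ω, (κ ω, F.W ω))) ≤
      F.vdf (Pool.Agent.H49.Ent.cond F.p A True) ς (wb + m) (wb + Db + m) N (ald Db al)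
        (fun ω => -(pl (κ ω)).s) (fun ω => -(pl (κ ω)).c)
        (fun ω => (Uni.dg Db al ω, (κ ω, F.W ω))) +
      (X + E * Real.log 2 + ε * (4 * N * Real.log 2 + Vd.K2 (C + 5)) +
        (Vd.K1 (C + 5) + Vd.K2 (C + 5) + Real.log 2)) := by
  have hM : (1 : ℝ) ≤ C + 5 := by linarith only [hC1]
  have hς := hR.fr.bij
  have hl2 : 0 < Real.log 2 := Real.log_pos (by norm_num)
  have hlG := isLaw_cond F.isLaw hG
  have hb : ∀ D : ℕ, ∀ ω, A ω → |ald D al ω| ≤ C + 5 ∧ |(fun ω => -(pl (κ ω)).s) ω| ≤ C + 5 ∧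
      |(fun ω => -(pl (κ ω)).c) ω| ≤ C + 5 := by
    intro D ω hω
    have h1 := hPk.inc ω hω
    refine ⟨(ald_le (hOw.bd ω hω)).trans (by linarith only), ?_, ?_⟩
    · show |-(pl (κ ω)).s| ≤ C + 5
      rw [abs_neg]
      linarith only [hC1, h1, h1.s_le]
    · show |-(pl (κ ω)).c| ≤ C + 5
      rw [abs_neg]
      linarith only [hC1, h1, h1.c_le]
  have hsup : ∀ ω, 0 < Pool.Agent.H49.Ent.cond F.p G True ω → G ω := by
    intro ω hω
    have := ((cond_pos_iff F.isLaw.nonneg G True ω).1 hω).2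
    simpa using this
  -- the change of the data on `G`
  have hdg : ∀ D : ℕ, ∀ ω, G ω → Uni.dg D al ω = Uni.dg D (fun ω => al' (Fam.pt F ω)) ω := by
    intro D ω hω
    show ⌊(2 : ℝ) ^ D * al ω⌋ = ⌊(2 : ℝ) ^ D * al' (Fam.pt F ω)⌋
    rw [hR.al ω (hR.sub ω hω)]
  have hchg : ∀ (D r U : ℕ), F.vdf (Pool.Agent.H49.Ent.cond F.p G True) ς r U N (ald D al)
        (fun ω => -(pl (κ ω)).s) (fun ω => -(pl (κ ω)).c)
        (fun ω => (Uni.dg D al ω, (κ ω, F.W ω))) =
      F.vdf (Pool.Agent.H49.Ent.cond F.p G True) ς r U N (ald D fun ω => al' (Fam.pt F ω)) s t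
        (fun ω => (Uni.dg D (fun ω => al' (Fam.pt F ω)) ω, (κ' ω, F.W ω))) := by
    intro D r U
    refine vdf_congr hlG.nonneg ?_ ?_
    · intro ω hω
      have hω' := hsup ω hω
      refine ⟨?_, ?_, ?_⟩
      · show (Uni.dg D al ω : ℝ) / 2 ^ D = (Uni.dg D (fun ω => al' (Fam.pt F ω)) ω : ℝ) / 2 ^ D
        rw [hdg D ω hω']
      · rw [hR.s_eq ω, ← hR.lb ω (hR.sub ω hω')]
      · rw [hR.t_eq ω, ← hR.lb ω (hR.sub ω hω')]
    · intro ω ω' hω hω'
      have h1 := hsup ω hω
      have h2 := hsup ω' hω'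
      simp only [hdg D ω h1, hdg D ω' h2, hR.lb ω (hR.sub ω h1), hR.lb ω' (hR.sub ω' h2)]
  exact by
   have k1 := vdf_split (F := F) (ς := ς) (A := A) (B := G) (r := wa + m) (U := wa + Da + m)
     (N := N) (a := ald Da al) (s := fun ω => -(pl (κ ω)).s) (t := fun ω => -(pl (κ ω)).c) hς hR.sub
     hG hM (by omega) hN1 (fun ω hω => hb Da ω (hR.sub ω hω)) hε hR.prob
     (fun ω => (Uni.dg Da al ω, (κ ω, F.W ω)))
   rw [hchg] at k1
   have k2 := Vd.vdf_mono (σ := ς) (a := ald Da fun ω => al' (Fam.pt F ω)) (s := s) (t := t)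
     (r := wa + m) (U := wa + vp wa + m) (r' := wa + m) (U' := wa + Da + m) (N := N) hlG le_rfl
     (by omega) (fun ω => (Uni.dg Da (fun ω => al' (Fam.pt F ω)) ω, (κ' ω, F.W ω)))
   have k3 := Pool.S6D.vdf_lip (σ := ς) (a := ald Db fun ω => al' (Fam.pt F ω)) (s := s) (t := t)
     (r := wb + m) (U := wb + vp wb + m) (r' := wb + m) (U' := wb + Db + m) (N := N) (B := C + 5)
     hlG hM le_rfl (by omega) (by omega) hN2 (fun ω hω => by
       have h1 := hR.sub ω (hsup ω hω)
       have h2 := hb Db ω h1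
       refine ⟨?_, ?_, ?_⟩
       · have e1 : ald Db (fun ω => al' (Fam.pt F ω)) ω = ald Db al ω := by
           show (Uni.dg Db (fun ω => al' (Fam.pt F ω)) ω : ℝ) / 2 ^ Db = (Uni.dg Db al ω : ℝ) / 2 ^ Db
           rw [hdg Db ω (hsup ω hω)]
         rw [e1]
         exact h2.1
       · rw [hR.s_eq ω, ← hR.lb ω h1]
         exact h2.2.1
       · rw [hR.t_eq ω, ← hR.lb ω h1]
         exact h2.2.2)
     (fun ω => (Uni.dg Db (fun ω => al' (Fam.pt F ω)) ω, (κ' ω, F.W ω)))
   have k4 := vdf_split' (F := F) (ς := ς) (A := A) (B := G) (r := wb + m) (U := wb + Db + m)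
     (N := N) (a := ald Db al) (s := fun ω => -(pl (κ ω)).s) (t := fun ω => -(pl (κ ω)).c) hς hR.sub
     hG hM (by omega) hN2 (hb Db) hε hR.prob
     (fun ω => (Uni.dg Db al ω, (κ ω, F.W ω)))
   rw [hchg] at k4
   have k5 : (((wb + m : ℕ) : ℝ) - (wb + m : ℕ) + (((wb + Db + m : ℕ) : ℝ) - (wb + vp wb + m : ℕ))) *
       Real.log 2 ≤ E * Real.log 2 := by
     refine mul_le_mul_of_nonneg_right ?_ hl2.le
     push_cast
     linarith only [hb2]
   exact by
    have e1 : ε * (4 * N * Real.log 2 + Vd.K2 (C + 5)) = ε * (2 * N * Real.log 2 + Vd.K2 (C + 5)) +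
      ε * (2 * N * Real.log 2) := by ring
    rw [e1]
    linarith only [hgr, k1, k2, k3, k4, k5]

/-- The value of a monotone function at a point with a slope. -/
theorem slp_le {f : ℚ → ℝ} (hf : ∀ q q' : ℚ, 0 ≤ q → q ≤ q' → q' ≤ 1 → f q ≤ f q') {x v s : ℝ}
    (hx : 0 ≤ x) (hs0 : 0 ≤ s) (h : Pool.Sel51.Slp f x v s) {y : ℚ} (hy : x < y) (hy1 : y ≤ 1) :
    v ≤ f y := by
  refine le_of_forall_pos_le_add fun ε hε => ?_
  obtain ⟨δ, hδ, h1⟩ := h 1 one_pos
  obtain ⟨q, hq1, hq2⟩ := rat_btw (show x < min (x + min δ ε) y from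
    lt_min (by linarith only [hδ, hε, lt_min hδ hε]) hy)
  have hq3 : (q : ℝ) < x + min δ ε := hq2.trans_le (min_le_left _ _)
  have hq4 : (q : ℝ) < y := hq2.trans_le (min_le_right _ _)
  have hq5 := min_le_left δ ε
  have hq6 := min_le_right δ ε
  have e0 : |(q : ℝ) - x| = q - x := abs_of_pos (by linarith only [hq1])
  have h2 := h1 q (by rw [e0]; linarith only [hq3, hq5])
  rw [e0, abs_le] at h2
  have hq0 : (0 : ℝ) ≤ q := by linarith only [hx, hq1]
  have h3 := hf q y (by exact_mod_cast hq0) (by exact_mod_cast hq4.le) hy1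
  have h4 : 0 ≤ s * ((q : ℝ) - x) := mul_nonneg hs0 (by linarith only [hq1])
  linarith only [hq3, hq6, h2, h3, h4, h2.1]

/-- The floor of a natural level. -/
theorem lv_eq {ρ : Row} {p q k : ℝ} {x : ℚ} {J : ℕ}
    (h : ⌊(x : ℝ) * J⌋₊ + ⌊(ρ.rot x - k) * J⌋₊ + ⌊q * J⌋₊ ≤ ⌊p * J⌋₊) :
    lr p q x J = ⌊(x : ℝ) * J⌋₊ + ⌊q * J⌋₊ ∧
      lu ρ p q k x J = ⌊(x : ℝ) * J⌋₊ + ⌊(ρ.rot x - k) * J⌋₊ + ⌊q * J⌋₊ ∧
      ld ρ p q k x J = ⌊(ρ.rot x - k) * J⌋₊ := by
  have h1 : lr p q x J = ⌊(x : ℝ) * J⌋₊ + ⌊q * J⌋₊ := min_eq_left (by omega)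
  have h2 : lu ρ p q k x J = ⌊(x : ℝ) * J⌋₊ + ⌊(ρ.rot x - k) * J⌋₊ + ⌊q * J⌋₊ := min_eq_left h
  refine ⟨h1, h2, ?_⟩
  unfold ld
  rw [h1, h2]
  omega

/-- **UVLA** from the row of one zone. -/
theorem uvla_of (hG : RowStmt {v | 0 ≤ v}) : UVLAStmt := by
  intro S a R h₁ i₀ c s₂ r D σ hC act κa hact T p v q H hP a₀ α hAP
  have hR1 := hC.row 1 one_pos le_rfl hC.D1
  have hrm : ∀ w w' : ℚ, 0 ≤ w → w ≤ w' → w' ≤ 1 → (σ 1).rot w ≤ (σ 1).rot w' :=
    fun w w' h0 h1 h2 => hR1.rot_mono hC.ne h0 h1 h2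
  have hr0 : ∀ w : ℚ, 0 ≤ w → w ≤ 1 → 0 ≤ (σ 1).rot w := fun w h0 h1 => hR1.rot_nn hC.ne h0 h1
  obtain ⟨Nn, hNn, hslp⟩ := Pool.Sel51.slp_ae hrm
  refine ⟨Nn, hNn, fun x₀ hvx hxN hpx hy => ?_⟩
  obtain ⟨y₀, hy1, hy2, hy3, hy4⟩ := hy
  have hv0 : (0 : ℝ) < v := by exact_mod_cast hP.v0
  have hx0 : 0 < x₀ := hv0.trans hvx
  have hy0 : (0 : ℚ) ≤ y₀ := by
    have : (0 : ℝ) ≤ y₀ := by linarith only [hvx, hy1, hv0]
    exact_mod_cast this
  have hy01 : y₀ ≤ 1 := by exact_mod_cast hy2.le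
  have hry := hr0 y₀ hy0 hy01
  have hx1 : x₀ < 1 := hy1.trans hy2
  have hp1 := hP.p1
  have hp0 := hP.p0
  have hq0 := hP.q0
  obtain ⟨V₀, u, hu, hsl⟩ := hslp x₀ hx0 hx1 hxN
  have hV := slp_le hrm hx0.le hu hsl hy1 hy01
  have hV1 : V₀ < 1 := by linarith only [hvx, hy1, hy4, hv0, hp1, hq0, hV]
  have hpi : 0 < (σ 1).pi := by linarith only [hy3, hry, hq0]
  intro η hη
  obtain ⟨e₂, he₂, hG⟩ := hG (η / 16) α u (by positivity) hAP.α0 hu hu
  obtain ⟨L₀, hL₀, hG⟩ := hG S a R i₀ (σ 1).rot act x₀ V₀ q a₀ hC.st hR1.rot hr0 hact.num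
    hact.mono hx0 hx1 hV1 hAP.q0 hAP.q1 hsl hAP.slp
  obtain ⟨E, hE⟩ : ∃ E, E = min e₂ (η / 16) := ⟨_, rfl⟩
  have hE0 : 0 < E := by rw [hE]; exact lt_min he₂ (by positivity)
  have hE1 : E ≤ e₂ := by rw [hE]; exact min_le_left _ _
  exact by
   have hE2 : E ≤ η / 16 := by rw [hE]; exact min_le_right _ _
   obtain ⟨L₁, hL₁, hF⟩ := row_frames2 hC hpi hx0 hx1 hu hsl hE0
   obtain ⟨δs, hδs, hsl'⟩ := hsl (E / 2) (by positivity)
   -- the gaps
   obtain ⟨g, hg⟩ : ∃ g, g = min (min (p - x₀ - q - V₀) ((σ 1).pi - V₀ - q))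
     (min (H - (p - x₀)) (min (1 - p) (x₀ - v))) := ⟨_, rfl⟩
   have hg0 : 0 < g := by
     rw [hg]
     exact lt_min (lt_min (by linarith only [hy1, hy4, hV]) (by linarith only [hy3, hV]))
       (lt_min (by linarith only [hpx]) (lt_min (by linarith only [hp1]) (by linarith only [hvx])))
   have g1 : g ≤ p - x₀ - q - V₀ := by
     rw [hg]; exact (min_le_left _ _).trans (min_le_left _ _)
   have g2 : g ≤ (σ 1).pi - V₀ - q := by
     rw [hg]; exact (min_le_left _ _).trans (min_le_right _ _)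
   have g3 : g ≤ H - (p - x₀) := by
     rw [hg]; exact (min_le_right _ _).trans (min_le_left _ _)
   have g4 : g ≤ 1 - p := by
     rw [hg]
     exact (min_le_right _ _).trans ((min_le_right _ _).trans (min_le_left _ _))
   have g5 : g ≤ x₀ - v := by
     rw [hg]
     exact (min_le_right _ _).trans ((min_le_right _ _).trans (min_le_right _ _))
   obtain ⟨Z, hZ⟩ : ∃ Z, Z = u + 3 * E + 4 := ⟨_, rfl⟩
   have hZ4 : 4 ≤ Z := by rw [hZ]; linarith only [hu, hE0]
   obtain ⟨δ, hδ⟩ : ∃ δ, δ = min (min δs (L₀ / 3)) (min (L₁ / 3) (g / (6 * Z))) := ⟨_, rfl⟩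
   have hδ0 : 0 < δ := by
     rw [hδ]
     exact lt_min (lt_min hδs (by positivity)) (lt_min (by positivity) (by positivity))
   have d1 : δ ≤ δs := by rw [hδ]; exact (min_le_left _ _).trans (min_le_left _ _)
   have d2 : δ ≤ L₀ / 3 := by rw [hδ]; exact (min_le_left _ _).trans (min_le_right _ _)
   exact by
    have d3 : δ ≤ L₁ / 3 := by rw [hδ]; exact (min_le_right _ _).trans (min_le_left _ _)
    have d4 : δ ≤ g / (6 * Z) := by rw [hδ]; exact (min_le_right _ _).trans (min_le_right _ _)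
    refine ⟨δ, hδ0, fun x y hxa hxb hya hyb hxy => ?_⟩
    have hxyr : (x : ℝ) < y := by exact_mod_cast hxy
    obtain ⟨L, hL⟩ : ∃ L, L = 3 / 2 * ((y : ℝ) - x) := ⟨_, rfl⟩
    have hL0 : 0 < L := by rw [hL]; linarith only [hxyr]
    have hLδ : L ≤ 3 * δ := by rw [hL]; linarith only [hxa, hyb]
    have hLZ : L * Z ≤ g / 2 := by
      have h1 : 3 * δ ≤ g / (2 * Z) := by
        have : g / (2 * Z) = 3 * (g / (6 * Z)) := by field_simp; ring
        linarith only [d4, this]
      have h2 : L ≤ g / (2 * Z) := hLδ.trans h1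
      calc L * Z ≤ g / (2 * Z) * Z := mul_le_mul_of_nonneg_right h2 (by linarith only [hvx, hy1, hy4, hv0, hry, hp1, hq0, hu, hE0, hZ])
        _ = g / 2 := by field_simp
    have hLZ' : L * u + 3 * (L * E) + 4 * L ≤ g / 2 := by
      have : L * Z = L * u + 3 * (L * E) + 4 * L := by rw [hZ]; ring
      linarith only [hLZ, this]
    have hLu : 0 ≤ L * u := by positivity
    have hLE : 0 < L * E := by positivity
    have hxv : (v : ℝ) < x := by linarith only [g5, hya, hxyr, hL, hLZ', hLu, hLE]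
    have hx00 : (0 : ℝ) < x := by linarith only [hv0, g5, hya, hxyr, hL, hLZ', hLu, hLE]
    have hyy1 : (y : ℝ) < 1 := by linarith only [hy1, hy4, hry, hq0, g4, hxb, hxyr, hL, hLZ', hLu, hLE]
    have hxq0 : (0 : ℚ) ≤ x := by exact_mod_cast hx00.le
    have hyq0 : (0 : ℚ) ≤ y := hxq0.trans hxy.le
    have hyq1 : y ≤ 1 := by exact_mod_cast hyy1.le
    have hxq1 : x ≤ 1 := hxy.le.trans hyq1
    obtain ⟨k₀, hk₀, hF⟩ := hF L hL0 (by linarith only [d3, hxa, hyb, hL])
    refine ⟨min k₀ (min (g / 4) (E * L / 8)), lt_min hk₀ (lt_min (by positivity) (by positivity)),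
      fun k hk hkk => ?_⟩
    have hk1 : k ≤ k₀ := hkk.trans (min_le_left _ _)
    exact by
     have hk2 : k ≤ g / 4 := hkk.trans ((min_le_right _ _).trans (min_le_left _ _))
     intro C hC1
     obtain ⟨τ, hτ, hcl⟩ := hF k hk hk1 v hP.v0.le (by linarith only [g5, hxyr, hL, hLZ', hLu, hLE]) {x, y} (by
       intro z hz
       rw [Finset.mem_insert, Finset.mem_singleton] at hz
       rcases hz with rfl | rfl
       · exact ⟨hxq0, hxq1⟩
       · exact ⟨hyq0, hyq1⟩) C hC1
     have hcl2 := (hG L (C + 4) C hL0 (by linarith only [d2, hxa, hyb, hL])).ev (ϖ := 1 / 2) (by norm_num)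
     have hpos : Clp S (fun _ F A => 0 < Pe F.p A) :=
       Clp.of one_pos 0 fun J _ F A hA => lt_of_lt_of_le (Real.exp_pos _) (hC.st 1 J F A hA).2.2.2
     have hK1 : 0 ≤ Vd.K1 (C + 5) := Pool.S6D.K1_nonneg (by linarith only [hC1])
     obtain ⟨K₃, hK₃⟩ : ∃ K₃, K₃ = 4 * Real.log 2 / τ + |Vd.K2 (C + 5)| +
       (Vd.K1 (C + 5) + |Vd.K2 (C + 5)| + Real.log 2) := ⟨_, rfl⟩
     have hl2 : 0 < Real.log 2 := Real.log_pos (by norm_num)
     have hK₃0 : 0 ≤ K₃ := by rw [hK₃]; positivity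
     have hyx : 0 < (y : ℝ) - x := by linarith only [hxyr]
     obtain ⟨J₂, hJ₂⟩ := exists_nat_ge (6 / L + 2 * u / (E * L) + 16 / g + 1 / τ +
       8 * K₃ / (η * ((y : ℝ) - x)))
     refine Clp.mono (J₂ := J₂) (hcl.and (hcl2.and hpos)) ?_
     rintro J hJ F A ⟨hA1, hA2, hA3⟩ ς hς hς0 Λ κ pl al h1 h2 h3
     have hJr : 6 / L + 2 * u / (E * L) + 16 / g + 1 / τ + 8 * K₃ / (η * ((y : ℝ) - x)) ≤ J :=
       hJ₂.trans (by exact_mod_cast hJ)
     have p1 : 0 < 6 / L := by positivity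
     have p2 : 0 ≤ 2 * u / (E * L) := by positivity
     have p3 : 0 < 16 / g := by positivity
     have p4 : 0 < 1 / τ := by positivity
     have p5 : 0 ≤ 8 * K₃ / (η * ((y : ℝ) - x)) := by positivity
     have hJp : (0 : ℝ) < J := by linarith only [hJr, p1, p2, p3, p4, p5]
     have j1 : 6 ≤ L * J := by
       have : 6 / L ≤ J := by linarith only [hJr, p2, p3, p4, p5]
       rw [div_le_iff₀ hL0] at this
       linarith only [this]
     exact by
      have j2 : 2 * u ≤ L * E * J := by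
        have : 2 * u / (E * L) ≤ J := by linarith only [hJr, p1, p3, p4, p5]
        rw [div_le_iff₀ (by positivity)] at this
        linarith only [this]
      have j3 : 16 ≤ g * J := by
        have : 16 / g ≤ J := by linarith only [hJr, p1, p2, p4, p5]
        rw [div_le_iff₀ hg0] at this
        linarith only [this]
      have j4 : 1 ≤ τ * J := by
        have : 1 / τ ≤ J := by linarith only [hJr, p1, p2, p3, p5]
        rw [div_le_iff₀ hτ] at this
        linarith only [this]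
      have j5 : 8 * K₃ ≤ η * (((y : ℝ) - x) * J) := by
        have : 8 * K₃ / (η * ((y : ℝ) - x)) ≤ J := by linarith only [hJr, p1, p2, p3, p4]
        rw [div_le_iff₀ (by positivity)] at this
        linarith only [this]
      obtain ⟨G, wa', wb', vp, al', nu, kk, b, a, s, t, κ', hRF, hlin, hvp⟩ :=
        hA1 ς hς hς0 Λ κ pl al _ _ _ _ h1 h2 h3
      -- the probability of the part
      obtain ⟨ε, hε⟩ : ∃ ε, ε = Real.exp (-(τ * J)) := ⟨_, rfl⟩
      have hε0 : 0 ≤ ε := by rw [hε]; exact (Real.exp_pos _).le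
      have hε1 : ε * (1 + τ * J) ≤ 1 := by
        have k1 := Real.add_one_le_exp (τ * J)
        rw [hε, Real.exp_neg, inv_mul_le_iff₀ (Real.exp_pos _)]
        linarith only [k1]
      have hε2 : ε ≤ 1 / 2 := by
        have : ε * 2 ≤ ε * (1 + τ * J) := mul_le_mul_of_nonneg_left (by linarith only [j4]) hε0
        linarith only [hε1, this]
      rw [← hε] at hRF
      have hPG : 1 / 2 * Pe F.p A ≤ Pe F.p G := by
        have k1 := Pe_parts (p := F.p) hRF.sub
        have k2 := hRF.prob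
        have k3 : ε * Pe F.p A ≤ 1 / 2 * Pe F.p A := mul_le_mul_of_nonneg_right hε2 hA3.le
        linarith only [k1, k2, k3]
      exact by
       have hG0 : 0 < Pe F.p G := by linarith only [hA3, hPG]
       -- the floors
       obtain ⟨wa, hwa⟩ : ∃ wa, wa = ⌊(x : ℝ) * J⌋₊ := ⟨_, rfl⟩
       obtain ⟨wb, hwb⟩ : ∃ wb, wb = ⌊(y : ℝ) * J⌋₊ := ⟨_, rfl⟩
       obtain ⟨m, hm⟩ : ∃ m, m = ⌊q * J⌋₊ := ⟨_, rfl⟩
       obtain ⟨N, hN⟩ : ∃ N, N = ⌊p * J⌋₊ := ⟨_, rfl⟩
       obtain ⟨Da, hDa⟩ : ∃ Da, Da = ⌊((σ 1).rot x - k) * J⌋₊ := ⟨_, rfl⟩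
       obtain ⟨Db, hDb⟩ : ∃ Db, Db = ⌊((σ 1).rot y - k) * J⌋₊ := ⟨_, rfl⟩
       have c1 : (wa : ℝ) ≤ x * J := by rw [hwa]; exact Nat.floor_le (by positivity)
       have c2 : x * J < (wa : ℝ) + 1 := by rw [hwa]; exact Nat.lt_floor_add_one _
       have c3 : (wb : ℝ) ≤ y * J := by
         rw [hwb]
         exact Nat.floor_le (mul_nonneg (by linarith only [hv0, g5, hya, hxyr, hL, hLZ', hLu, hLE]) hJp.le)
       have c4 : y * J < (wb : ℝ) + 1 := by rw [hwb]; exact Nat.lt_floor_add_one _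
       have c5 : (m : ℝ) ≤ q * J := by rw [hm]; exact Nat.floor_le (by positivity)
       have c6 : q * J < (m : ℝ) + 1 := by rw [hm]; exact Nat.lt_floor_add_one _
       have c7 : (N : ℝ) ≤ p * J := by rw [hN]; exact Nat.floor_le (by positivity)
       have c8 : p * J < (N : ℝ) + 1 := by rw [hN]; exact Nat.lt_floor_add_one _
       have cL : (3 : ℝ) / 2 * ((y - x) * J) = L * J := by rw [hL]; ring
       have cx : (x₀ - x) * J ≤ (y - x) * J := mul_le_mul_of_nonneg_right (by linarith only [hya]) hJp.le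
       have cy : (y - x₀) * J ≤ (y - x) * J := mul_le_mul_of_nonneg_right (by linarith only [hxb]) hJp.le
       have cx' : 0 ≤ (x₀ - x) * J := mul_nonneg (by linarith only [hxb]) hJp.le
       have cy' : 0 ≤ (y - x₀) * J := mul_nonneg (by linarith only [hya]) hJp.le
       have hab : wa ≤ wb := by
         rw [hwa, hwb]
         exact Nat.floor_le_floor (mul_le_mul_of_nonneg_right hxyr.le hJp.le)
       have habr : (wa : ℝ) ≤ wb := by exact_mod_cast hab
       have z1 : (x₀ - L) * J ≤ wa := by linarith only [hy1, hy4, hv0, hry, hq0, g4, g5, hxyr, hL, hLZ', hLu, hLE, j1, c2, cL, cx]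
       have z2 : (wb : ℝ) ≤ (x₀ + L) * J := by linarith only [hy1, hy4, hv0, hry, hq0, g4, g5, hxyr, hL, hLZ', hLu, hLE, j1, c3, cL, cy]
       have z3 : wa + L / 2 * J ≤ (wb : ℝ) := by linarith only [j1, c1, c4, cL]
       exact by
        obtain ⟨wa1, wa2, wa3⟩ := hlin wa z1 (by linarith only [hy1, hy4, hv0, hry, hq0, g4, g5, hxyr, hL, hLZ', hLu, hLE, j1, c1, cy])
        obtain ⟨wb1, wb2, wb3⟩ := hlin wb (by linarith only [hy1, hy4, hv0, hry, hq0, g4, g5, hxyr, hL, hLZ', hLu, hLE, j1, c4, cx]) z2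
        have v1 : vp wa ≤ Da := by
          rw [hDa, hwa]
          exact hvp x (by simp) (by rw [← hwa]; exact wa1)
        have v2 : vp wb ≤ Db := by
          rw [hDb, hwb]
          exact hvp y (by simp) (by rw [← hwb]; exact wb1)
        rw [abs_le] at wa3 wb3
        -- the slope at the two windows
        have hub : u * ((wb : ℝ) - x₀ * J) ≤ L * u * J := by
          have : u * ((wb : ℝ) - x₀ * J) ≤ u * (L * J) := mul_le_mul_of_nonneg_left (by linarith only [hy1, hy4, hv0, hry, hq0, g4, g5, hxyr, hL, hLZ', hLu, hLE, j1, c3, cL, cy]) hu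
          linarith only [this]
        have vb : (vp wb : ℝ) ≤ V₀ * J + L * u * J + L * E * J := by linarith only [wb3, hub, wb3.2]
        have up : ∀ (z : ℚ) (w : ℕ), |(z : ℝ) - x₀| < δs → |(z : ℝ) - x₀| ≤ L → (z : ℝ) * J < w + 1 →
            V₀ * J + u * (w - x₀ * J) - L * E * J ≤ vp w →
            ((⌊((σ 1).rot z - k) * J⌋₊ : ℕ) : ℝ) ≤ vp w + 2 * (L * E * J) := by
          intro z w hz1 hz2 hz3 hz4
          rcases le_total (((σ 1).rot z - k) * J) 0 with hneg | hpos'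
          · rw [Nat.floor_of_nonpos hneg]
            push_cast
            have : (0 : ℝ) ≤ vp w := Nat.cast_nonneg _
            have : 0 ≤ L * E * J := by positivity
            linarith only [hu, j2]
          · have k1 := Nat.floor_le hpos'
            have k2 := (abs_le.1 (hsl' z hz1)).2
            have k3 : E / 2 * |(z : ℝ) - x₀| ≤ E / 2 * L := mul_le_mul_of_nonneg_left hz2 (by positivity)
            have k4 : (σ 1).rot z * J ≤ (V₀ + u * ((z : ℝ) - x₀) + E / 2 * L) * J :=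
              mul_le_mul_of_nonneg_right (by linarith only [k2, k3]) hJp.le
            have k5 : u * (z * J) ≤ u * (w + 1) := mul_le_mul_of_nonneg_left hz3.le hu
            have k6 : 0 ≤ k * J := by positivity
            have e1 : (V₀ + u * ((z : ℝ) - x₀) + E / 2 * L) * J =
              V₀ * J + (u * (z * J) - u * (x₀ * J)) + L * E * J / 2 := by ring
            have e2 : ((σ 1).rot z - k) * J = (σ 1).rot z * J - k * J := by ring
            have k7 := k1.trans_eq e2
            rw [e1] at k4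
            linarith only [j2, hz4, k1, k4, k5, k6]
        exact by
         have hxa' : |(x : ℝ) - x₀| ≤ L := by rw [abs_le]; constructor <;> linarith
         have hya' : |(y : ℝ) - x₀| ≤ L := by rw [abs_le]; constructor <;> linarith
         have v3 : (Da : ℝ) ≤ vp wa + 2 * (L * E * J) := by
           rw [hDa]
           exact up x wa (by rw [abs_lt]; constructor <;> linarith) hxa' c2 (by linarith only [wa3, wa3.1])
         have v4 : (Db : ℝ) ≤ vp wb + 2 * (L * E * J) := by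
           rw [hDb]
           exact up y wb (by rw [abs_lt]; constructor <;> linarith) hya' c4 (by linarith only [wb3, wb3.1])
         have hDab : Da ≤ Db := by
           rw [hDa, hDb]
           refine Nat.floor_le_floor (mul_le_mul_of_nonneg_right ?_ hJp.le)
           linarith only [hrm, hxq0, hxy, hyq1, hrm x y hxq0 hxy.le hyq1]
         -- products with `J`
         have q1 : (L * u + 3 * (L * E) + 4 * L) * J ≤ g / 2 * J := mul_le_mul_of_nonneg_right hLZ' hJp.le
         have q1' : (L * u + 3 * (L * E) + 4 * L) * J = L * u * J + 3 * (L * E * J) + 4 * (L * J) := by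
           ring
         rw [q1'] at q1
         have q2 : g * J ≤ (p - x₀ - q - V₀) * J := mul_le_mul_of_nonneg_right g1 hJp.le
         have q3 : g * J ≤ ((σ 1).pi - V₀ - q) * J := mul_le_mul_of_nonneg_right g2 hJp.le
         have q4 : g * J ≤ (H - (p - x₀)) * J := mul_le_mul_of_nonneg_right g3 hJp.le
         have q5 : g * J ≤ (1 - p) * J := mul_le_mul_of_nonneg_right g4 hJp.le
         have q6 : g * J ≤ (x₀ - v) * J := mul_le_mul_of_nonneg_right g5 hJp.le
         have q7 : k * J ≤ g / 4 * J := mul_le_mul_of_nonneg_right hk2 hJp.le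
         have q8 : p * J ≤ (T + q) * J := mul_le_mul_of_nonneg_right hP.pT hJp.le
         have q9 : 0 ≤ L * u * J := by positivity
         have q10 : 0 ≤ L * E * J := by positivity
         have n1 : wb + Db + m ≤ N := by
           have : ((wb : ℝ) + Db + m) < N + 1 := by linarith only [hy1, hy4, hv0, hry, hq0, hu, g4, g5, hxyr, hL, hLZ', hLu, hLE, j1, j2, c3, c5, c8, cL, cy, wb3, hub, v4, q1, q2, q9]
           have h' : wb + Db + m < N + 1 := by exact_mod_cast this
           omega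
         exact by
          have n2 : wa + Da + m ≤ N := by omega
          obtain ⟨kap', hkap'⟩ : ∃ kap', kap' = N - (wa + m) := ⟨_, rfl⟩
          have hkr : (kap' : ℝ) = N - (wa + m) := by
            rw [hkap', Nat.cast_sub (by omega)]
            push_cast
            ring
          have hkk' : kap' ≤ ⌊(T - v - k) * J⌋₊ := by
            refine Nat.le_floor ?_
            rw [hkr]
            have e1 : (T - v - k) * (J : ℝ) = T * J - v * J - k * J := by ring
            rw [e1]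
            linarith only [hy1, hy4, hv0, hry, hq0, hu, g4, g5, hxyr, hL, hLZ', hLu, hLE, j1, j2, c2, c6, c7, cL, cx, q1, q6, q7, q8, q9]
          have hU := (hRF.fr.win (wa' := wa) (wb' := wb) wa1 wb2).lvl hkk' (le_refl _) (le_refl _)
          have r1 : ((σ 1).pi - k) * (J : ℝ) < (⌊((σ 1).pi - k) * J⌋₊ : ℝ) + 1 := Nat.lt_floor_add_one _
          have r2 : (H - k) * (J : ℝ) < (⌊(H - k) * J⌋₊ : ℝ) + 1 := Nat.lt_floor_add_one _
          have key := hA2 G hRF.sub hPG ς ⌊(v : ℝ) * J⌋₊ wa wb vp kap' ⌊((σ 1).pi - k) * J⌋₊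
            ⌊(H - k) * J⌋₊ al' nu kk b a s t hU hς0 z1 z2 z3 (by
              intro w hw1 hw2
              have hw1' : (wa : ℝ) ≤ w := by exact_mod_cast hw1
              have hw2' : (w : ℝ) ≤ wb := by exact_mod_cast hw2
              refine ((hlin w (by linarith only [hy1, hy4, hv0, hry, hq0, g4, g5, hxyr, hL, hLZ', hLu, hLE, j1, c2, cL, cx, hw1']) (by linarith only [hy1, hy4, hv0, hry, hq0, g4, g5, hxyr, hL, hLZ', hLu, hLE, j1, c3, cL, cy, hw2'])).2.2).trans ?_
              exact mul_le_mul_of_nonneg_right (mul_le_mul_of_nonneg_right hE1 hL0.le) hJp.le)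
            (by rw [hkr]; linarith only [hy1, hy4, hv0, hry, hq0, hu, g4, g5, hxyr, hL, hLZ', hLu, hLE, j1, j2, c1, c5, c8, cy, wb3, hub, q1, q2, q9])
            (by
              rw [← hm]
              constructor
              · linarith only [hy1, hy4, hv0, hry, hq0, hu, g4, g5, hxyr, hL, hLZ', hLu, hLE, j1, j2, c5, wb3, hub, q1, q3, q7, q9, r1]
              · rw [hkr]; linarith only [hy1, hy4, hv0, hry, hq0, hu, g4, g5, hxyr, hL, hLZ', hLu, hLE, j1, j2, c2, c7, cL, cx, q1, q4, q7, q9, r2]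
              · linarith only [hy1, hy4, hv0, hry, hq0, hu, g4, g5, hxyr, hL, hLZ', hLu, hLE, j1, j2, c3, c5, cL, cy, wb3, hub, q1, q2, q5, q9]
              · rw [hkr]; linarith only [hy1, hy4, hv0, hry, hq0, hu, g4, g5, hxyr, hL, hLZ', hLu, hLE, j1, j2, c2, c3, c7, cL, q1, q5, q9])
            Λ κ' (hRF.side.sub hRF.sub) (by
              intro ω ω' _ _ e
              show (s ω, t ω) = (s ω', t ω')
              rw [hRF.s_eq ω, hRF.s_eq ω', hRF.t_eq ω, hRF.t_eq ω', e]) N Da Db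
            (by rw [← hm]; omega) (by rw [← hm]; linarith only [hy1, hy4, hv0, hry, hq0, hu, g4, g5, hxyr, hL, hLZ', hLu, hLE, j1, j2, c3, c5, c8, cL, cy, wb3, hub, q1, q2, q9]) v1 (by
              have : L * E * J ≤ e₂ * L * J := by
                have h' : E * (L * J) ≤ e₂ * (L * J) := mul_le_mul_of_nonneg_right hE1 (by positivity)
                linarith only [h']
              linarith only [hu, j2, v3, this]) v2 hDab
          exact by
           rw [← hm] at key
           have fin := fam_row hRF h1 h3 hC1 hG0 hε0 n2 n1 v1 v2 v4 key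
           obtain ⟨l1, l2, l3⟩ := lv_eq (ρ := σ 1) (p := p) (q := q) (k := k) (x := x) (J := J) (by
             rw [← hwa, ← hDa, ← hm, ← hN]; exact n2)
           obtain ⟨l4, l5, l6⟩ := lv_eq (ρ := σ 1) (p := p) (q := q) (k := k) (x := y) (J := J) (by
             rw [← hwb, ← hDb, ← hm, ← hN]; exact n1)
           unfold Vd
           rw [l1, l2, l3, l4, l5, l6, ← hwa, ← hwb, ← hDa, ← hDb, ← hm, ← hN]
           refine fin.trans (add_le_add_right ?_ _)
           -- the errors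
           have e0 : 0 ≤ ε * (4 * Real.log 2 / τ) := by positivity
           have e1 : ε * (4 * N * Real.log 2 + Vd.K2 (C + 5)) ≤ 4 * Real.log 2 / τ + |Vd.K2 (C + 5)| := by
             have i1 : (N : ℝ) ≤ J := by
               have : p * (J : ℝ) ≤ 1 * J := mul_le_mul_of_nonneg_right hp1.le hJp.le
               linarith only [hy1, hy4, hv0, hry, hq0, hu, g4, g5, hxyr, hL, hLZ', hLu, hLE, j1, j2, c7, q1, q5, q9]
             have i2 : ε * (J * (4 * Real.log 2)) ≤ 4 * Real.log 2 / τ := by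
               rw [le_div_iff₀ hτ]
               have : ε * (τ * J) ≤ 1 := by linarith only [hε0, hε1]
               have i3 := mul_le_mul_of_nonneg_right this (show 0 ≤ 4 * Real.log 2 by positivity)
               linarith only [i3]
             have i4 : ε * (N * (4 * Real.log 2)) ≤ ε * (J * (4 * Real.log 2)) :=
               mul_le_mul_of_nonneg_left (mul_le_mul_of_nonneg_right i1 (by positivity)) hε0
             have i5 : ε * Vd.K2 (C + 5) ≤ |Vd.K2 (C + 5)| := by
               have a1 : ε * Vd.K2 (C + 5) ≤ ε * |Vd.K2 (C + 5)| :=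
                 mul_le_mul_of_nonneg_left (le_abs_self _) hε0
               have a2 : ε * |Vd.K2 (C + 5)| ≤ 1 * |Vd.K2 (C + 5)| :=
                 mul_le_mul_of_nonneg_right (by linarith only [hy1, hy4, hv0, hry, hq0, g4, g5, hxyr, hL, hLZ', hLu, hLE, hε2]) (abs_nonneg _)
               linarith only [a1, a2]
             have : ε * (4 * N * Real.log 2 + Vd.K2 (C + 5)) = ε * (N * (4 * Real.log 2)) +
               ε * Vd.K2 (C + 5) := by ring
             linarith only [i2, i4, i5]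
           exact by
            have e2 := le_abs_self (Vd.K2 (C + 5))
            have e3 : ε * (4 * N * Real.log 2 + Vd.K2 (C + 5)) +
                (Vd.K1 (C + 5) + Vd.K2 (C + 5) + Real.log 2) ≤ K₃ := by
              rw [hK₃]
              linarith only [e1, e2]
            have e4 : E * (L * J) ≤ η / 16 * (L * J) := mul_le_mul_of_nonneg_right hE2 (by positivity)
            have e5 : 2 * (L * E * J) * Real.log 2 ≤ η / 8 * (L * J) * Real.log 2 :=
              mul_le_mul_of_nonneg_right (by linarith only [e4]) hl2.le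
            have e6 : 0 ≤ η * (((y : ℝ) - x) * J) := by positivity
            have hlog := Real.log_two_gt_d9
            have e7 : η * (((y : ℝ) - x) * J) * (1 / 2) ≤ η * (((y : ℝ) - x) * J) * Real.log 2 :=
              mul_le_mul_of_nonneg_left (by linarith only [hy1, hy4, hv0, hry, hq0, g4, g5, hxyr, hL, hLZ', hLu, hLE, hlog]) e6
            have e8 : η / 16 * L * J = 3 / 32 * (η * (((y : ℝ) - x) * J)) := by rw [hL]; ring
            have e9 : η / 8 * (L * J) * Real.log 2 = 3 / 16 * (η * (((y : ℝ) - x) * J) * Real.log 2) := by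
              rw [hL]; ring
            have e10 : η * ((y : ℝ) - x) * J * Real.log 2 = η * (((y : ℝ) - x) * J) * Real.log 2 := by ring
            rw [e10]
            linarith only [hK₃, hK₃0, j5, e1, e2, e5, e7, e8, e9]

end Pool.UST

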