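import Pool.Agent.H2.UST.Vla
import Pool.Agent.H10.S6U.Uz6

/-!
# UVLA
-/

set_option autoImplicit false

namespace Pool.UST

/-- **(UVLA)** -/
theorem uvla_thm : Pool.S6V.UVLAStmt := uvla_of (Pool.S6V.row_cls us_all)

end Pool.UST
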